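import Pool.Agent.H78.PG.TTail

/-!
# LQ / PG, THyp: `D(M, χ) = M L(1,χ) + O(√(M KK))`

`K = KK m`, `D = ⌊√(M K)⌋ ≤ M` (as `K ≤ M`).  `∑_{d ≤ D} χ(d) ⌊M/d⌋ = M ∑_{d ≤ D} χ(d)/d + O(D)`;
`∑_{D < d ≤ M} χ(d) ⌊M/d⌋ = ∑_{k ≤ M/(D+1)} ∑_{D < d ≤ M/k} χ(d)` (`⌊M/d⌋ = #{k ≥ 1 : k d ≤ M}`), at most
`(M/(D+1)) 2K ≤ 2 √(M K)` (`pv` twice, `D + 1 ≥ √(M K)`); and `tail`: `M 2K/(D+1) ≤ 2 √(M K)`.  Total `≤ 5 √(M K)`.
-/

set_option autoImplicit false

namespace Pool.Agent.H78.PG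

open Finset
open Pool.Agent.H34PG (lam lam_val lam_mul lam_prime)
open Pool.Agent.H11.LQ

private theorem thyp_K0 (m : ℕ) [NeZero m] : 0 ≤ KK m := by
  unfold KK
  have hm : (1 : ℝ) ≤ (m : ℝ) := by exact_mod_cast Nat.one_le_iff_ne_zero.mpr (NeZero.ne m)
  have h1 : 0 ≤ Real.log m := Real.log_nonneg hm
  positivity

/-- the sum over an interval `(D, N]` -/
private theorem thyp_int (m : ℕ) [NeZero m] (χ : DirichletCharacter ℂ m) (hχ : χ ≠ 1) (D N : ℕ)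
    (h : D ≤ N) : ‖∑ x ∈ Ioc D N, χ (x : ZMod m)‖ ≤ 2 * KK m := by
  have h1 : ∑ x ∈ Icc 1 N, χ (x : ZMod m)
      = ∑ x ∈ Icc 1 D, χ (x : ZMod m) + ∑ x ∈ Ioc D N, χ (x : ZMod m) := by
    rw [← sum_union]
    · congr 1
      ext x
      simp only [mem_union, mem_Icc, mem_Ioc]
      omega
    · rw [disjoint_left]
      intro x hx hx2
      rw [mem_Icc] at hx
      rw [mem_Ioc] at hx2
      omega
  have h2 : ∑ x ∈ Ioc D N, χ (x : ZMod m)
      = ∑ x ∈ Icc 1 N, χ (x : ZMod m) - ∑ x ∈ Icc 1 D, χ (x : ZMod m) := by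
    rw [h1]; ring
  rw [h2]
  refine (norm_sub_le _ _).trans ?_
  have h3 := pv m χ hχ N
  have h4 := pv m χ hχ D
  linarith

/-- the part `d ≤ D` -/
private theorem thyp_low (m : ℕ) [NeZero m] (χ : DirichletCharacter ℂ m) (M D : ℕ) :
    ‖∑ d ∈ Icc 1 D, χ (d : ZMod m) * ((M / d : ℕ) : ℂ)
      - M * ∑ d ∈ Icc 1 D, χ (d : ZMod m) / (d : ℂ)‖ ≤ D := by
  rw [mul_sum, ← sum_sub_distrib]
  refine (norm_sum_le _ _).trans ?_
  have h1 : ∀ d ∈ Icc 1 D, ‖χ (d : ZMod m) * ((M / d : ℕ) : ℂ) - M * (χ (d : ZMod m) / (d : ℂ))‖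
      ≤ 1 := by
    intro d hd
    rw [mem_Icc] at hd
    have hd0 : (0 : ℝ) < d := by exact_mod_cast hd.1
    have e1 : χ (d : ZMod m) * ((M / d : ℕ) : ℂ) - M * (χ (d : ZMod m) / (d : ℂ))
        = χ (d : ZMod m) * ((((M / d : ℕ) : ℝ) - (M : ℝ) / d : ℝ) : ℂ) := by
      push_cast
      ring
    rw [e1, norm_mul, Complex.norm_real]
    have h2 : ‖χ (d : ZMod m)‖ ≤ 1 := DirichletCharacter.norm_le_one χ _
    have h3 : ‖(((M / d : ℕ) : ℝ) - (M : ℝ) / d)‖ ≤ 1 := by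
      rw [Real.norm_eq_abs, abs_le]
      have h4 : ((M / d : ℕ) : ℝ) ≤ (M : ℝ) / d := Nat.cast_div_le
      have h5 : (M : ℝ) / d < ((M / d : ℕ) : ℝ) + 1 := by
        rw [div_lt_iff₀ hd0]
        have h6 : M < (M / d + 1) * d := by
          have := Nat.lt_div_mul_add (a := M) hd.1
          calc M < M / d * d + d := this
            _ = (M / d + 1) * d := by ring
        exact_mod_cast h6
      constructor <;> linarith
    calc ‖χ (d : ZMod m)‖ * ‖(((M / d : ℕ) : ℝ) - (M : ℝ) / d)‖ ≤ 1 * 1 :=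
          mul_le_mul h2 h3 (norm_nonneg _) zero_le_one
      _ = 1 := one_mul 1
  refine (sum_le_sum h1).trans ?_
  simp

/-- the part `D < d ≤ M` -/
private theorem thyp_high (m : ℕ) [NeZero m] (χ : DirichletCharacter ℂ m) (hχ : χ ≠ 1) (M D : ℕ) :
    ‖∑ d ∈ Ioc D M, χ (d : ZMod m) * ((M / d : ℕ) : ℂ)‖ ≤ (M / (D + 1) : ℕ) * (2 * KK m) := by
  have e1 : ∀ d ∈ Ioc D M, χ (d : ZMod m) * ((M / d : ℕ) : ℂ)
      = ∑ k ∈ Icc 1 (M / (D + 1)), if k * d ≤ M then χ (d : ZMod m) else 0 := by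
    intro d hd
    rw [mem_Ioc] at hd
    have hd0 : 0 < d := by omega
    rw [← sum_filter, sum_const, nsmul_eq_mul, mul_comm]
    congr 1
    have e2 : (Icc 1 (M / (D + 1))).filter (fun k => k * d ≤ M) = Icc 1 (M / d) := by
      ext k
      simp only [mem_filter, mem_Icc]
      constructor
      · rintro ⟨⟨h1, _⟩, h2⟩
        exact ⟨h1, (Nat.le_div_iff_mul_le hd0).mpr h2⟩
      · rintro ⟨h1, h2⟩
        refine ⟨⟨h1, h2.trans (Nat.div_le_div_left (by omega) (by omega))⟩,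
          (Nat.le_div_iff_mul_le hd0).mp h2⟩
    rw [e2, Nat.card_Icc]
    simp
  rw [sum_congr rfl e1, sum_comm]
  refine (norm_sum_le _ _).trans ?_
  have h1 : ∀ k ∈ Icc 1 (M / (D + 1)),
      ‖∑ d ∈ Ioc D M, if k * d ≤ M then χ (d : ZMod m) else 0‖ ≤ 2 * KK m := by
    intro k hk
    rw [mem_Icc] at hk
    have hk0 : 0 < k := by omega
    have h2 : k * (D + 1) ≤ M := (Nat.le_div_iff_mul_le (by omega)).mp hk.2
    have h3 : D + 1 ≤ M / k := (Nat.le_div_iff_mul_le hk0).mpr (by rw [mul_comm]; exact h2)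
    have e3 : (Ioc D M).filter (fun d => k * d ≤ M) = Ioc D (M / k) := by
      ext d
      simp only [mem_filter, mem_Ioc]
      constructor
      · rintro ⟨⟨h4, _⟩, h5⟩
        exact ⟨h4, (Nat.le_div_iff_mul_le hk0).mpr (by rw [mul_comm]; exact h5)⟩
      · rintro ⟨h4, h5⟩
        exact ⟨⟨h4, h5.trans (Nat.div_le_self _ _)⟩,
          by rw [mul_comm]; exact (Nat.le_div_iff_mul_le hk0).mp h5⟩
    rw [← sum_filter, e3]
    exact thyp_int m χ hχ D (M / k) (by omega)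
  refine (sum_le_sum h1).trans ?_
  rw [sum_const, nsmul_eq_mul, Nat.card_Icc]
  simp

theorem hyper (m : ℕ) [NeZero m] (χ : DirichletCharacter ℂ m) (hχ : χ ≠ 1) (M : ℕ) (hM : 1 ≤ M)
    (hK : KK m ≤ M) :
    ‖DD m M χ - M * DirichletCharacter.LFunction χ 1‖ ≤ 5 * Real.sqrt (M * KK m) := by
  have hK0 : 0 ≤ KK m := thyp_K0 m
  have hM0 : (0 : ℝ) < M := by exact_mod_cast hM
  obtain ⟨P, hP⟩ : ∃ P, P = Real.sqrt (M * KK m) := ⟨_, rfl⟩
  have hP0 : 0 ≤ P := hP ▸ Real.sqrt_nonneg _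
  have hP2 : P * P = M * KK m := by
    rw [hP]; exact Real.mul_self_sqrt (by positivity)
  have hPM : P ≤ M := by
    rw [hP, Real.sqrt_le_left hM0.le, pow_two]
    exact mul_le_mul_of_nonneg_left hK hM0.le
  obtain ⟨D, hD⟩ : ∃ D, D = ⌊P⌋₊ := ⟨_, rfl⟩
  have hD1 : (D : ℝ) ≤ P := hD ▸ Nat.floor_le hP0
  have hD2 : P < D + 1 := hD ▸ Nat.lt_floor_add_one P
  have hDM : D ≤ M := by
    have : (D : ℝ) ≤ M := hD1.trans hPM
    exact_mod_cast this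
  have hD0 : (0 : ℝ) < (D : ℝ) + 1 := by positivity
  have key : M * KK m / (D + 1) ≤ P := by
    rw [div_le_iff₀ hD0, ← hP2]
    exact mul_le_mul_of_nonneg_left hD2.le hP0
  have e1 : DD m M χ = ∑ d ∈ Icc 1 D, χ (d : ZMod m) * ((M / d : ℕ) : ℂ)
      + ∑ d ∈ Ioc D M, χ (d : ZMod m) * ((M / d : ℕ) : ℂ) := by
    unfold DD
    rw [← sum_union]
    · congr 1
      ext x
      simp only [mem_union, mem_Icc, mem_Ioc]
      omega
    · rw [disjoint_left]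
      intro x hx hx2
      rw [mem_Icc] at hx
      rw [mem_Ioc] at hx2
      omega
  have e2 : DD m M χ - M * DirichletCharacter.LFunction χ 1
      = (∑ d ∈ Icc 1 D, χ (d : ZMod m) * ((M / d : ℕ) : ℂ)
          - M * ∑ d ∈ Icc 1 D, χ (d : ZMod m) / (d : ℂ))
        + ∑ d ∈ Ioc D M, χ (d : ZMod m) * ((M / d : ℕ) : ℂ)
        - M * (DirichletCharacter.LFunction χ 1 - ∑ d ∈ Icc 1 D, χ (d : ZMod m) / (d : ℂ)) := by
    rw [e1]; ring
  have h1 := thyp_low m χ M D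
  have h2 := thyp_high m χ hχ M D
  have h3 := tail m χ hχ D
  have h4 : ((M / (D + 1) : ℕ) : ℝ) * (2 * KK m) ≤ 2 * P := by
    have h5 : ((M / (D + 1) : ℕ) : ℝ) ≤ (M : ℝ) / ((D + 1 : ℕ) : ℝ) := Nat.cast_div_le
    push_cast at h5
    calc ((M / (D + 1) : ℕ) : ℝ) * (2 * KK m) ≤ (M : ℝ) / (D + 1) * (2 * KK m) :=
          mul_le_mul_of_nonneg_right h5 (by positivity)
      _ = 2 * (M * KK m / (D + 1)) := by ring
      _ ≤ 2 * P := by linarith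
  have h6 : ‖(M : ℂ) * (DirichletCharacter.LFunction χ 1
      - ∑ d ∈ Icc 1 D, χ (d : ZMod m) / (d : ℂ))‖ ≤ 2 * P := by
    rw [norm_mul, Complex.norm_natCast]
    calc (M : ℝ) * ‖DirichletCharacter.LFunction χ 1 - ∑ d ∈ Icc 1 D, χ (d : ZMod m) / (d : ℂ)‖
        ≤ M * (2 * KK m / (D + 1)) := mul_le_mul_of_nonneg_left h3 hM0.le
      _ = 2 * (M * KK m / (D + 1)) := by ring
      _ ≤ 2 * P := by linarith
  rw [e2, ← hP]
  refine (norm_sub_le _ _).trans ?_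
  refine (add_le_add (norm_add_le _ _) le_rfl).trans ?_
  linarith

end Pool.Agent.H78.PG
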