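import Pool.Agent.H78.PG.TSplit

/-!
# LQ / PG, TLam: `∑_{d ≤ M, (d,m)=1} λ(d) ⌊M/d⌋` is small

`∑_{d ∈ cop m M} λ(d) ⌊M/d⌋ = ∑_{n ≤ M} ∑_{d | n, (d,m)=1} λ(d)`.  By `split`, `n = u y`, `u | m^∞`, `(y,m)=1`; the
divisors of `u y` prime to `m` are the divisors of `y`, and `∑_{d | y} λ(d) = 1` if `y` is a square and `0`
otherwise (`lamsq`).  The number of squares in `[1, M/u]` is `≤ √(M/u)`; `sm_sum`.
`lamsq`: multiplicative in `y`; prime powers: `∑_{i ≤ k} (-1)^i`.  Mathlib: `ArithmeticFunction.IsMultiplicative`,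
or `Nat.recOnPosPrimePosCoprime`, `Nat.Coprime.sum_divisors_mul`-type lemmas.
-/

set_option autoImplicit false

namespace Pool.Agent.H78.PG

open Finset
open Pool.Agent.H34PG (lam lam_val lam_mul lam_prime)
open Pool.Agent.H11.LQ

private theorem tlam_sq {a b c : ℕ} (h : a.Coprime b) (hc : a * b = c ^ 2) :
    ∃ d, a = d ^ 2 :=
  exists_eq_pow_of_mul_eq_pow (by
    have : gcd a b = 1 := h
    rw [this]
    exact isUnit_one) hc

private theorem tlam_isSquare_mul {a b : ℕ} (h : a.Coprime b) :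
    IsSquare (a * b) ↔ IsSquare a ∧ IsSquare b := by
  constructor
  · rintro ⟨c, hc⟩
    have hc2 : a * b = c ^ 2 := by rw [hc, sq]
    constructor
    · obtain ⟨d, hd⟩ := tlam_sq h hc2
      exact ⟨d, by rw [hd, sq]⟩
    · obtain ⟨d, hd⟩ := tlam_sq h.symm (by rw [mul_comm]; exact hc2)
      exact ⟨d, by rw [hd, sq]⟩
  · rintro ⟨⟨c, hc⟩, ⟨d, hd⟩⟩
    exact ⟨c * d, by rw [hc, hd]; ring⟩

private theorem tlam_sum_mul {a b : ℕ} (h : a.Coprime b) :
    ∑ d ∈ (a * b).divisors, lam d = (∑ d ∈ a.divisors, lam d) * ∑ d ∈ b.divisors, lam d := by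
  rw [Nat.divisors_mul, Finset.mul_def, Finset.sum_image h.mul_injOn_divisors, Finset.sum_product,
    Finset.sum_mul_sum]
  refine Finset.sum_congr rfl fun x hx => Finset.sum_congr rfl fun y hy => ?_
  exact lam_mul x y (Nat.pos_of_mem_divisors hx) (Nat.pos_of_mem_divisors hy)

private theorem tlam_pow {p : ℕ} (hp : p.Prime) (k : ℕ) : lam (p ^ k) = (-1) ^ k := by
  unfold lam
  rw [ArithmeticFunction.cardFactors_apply_prime_pow hp]

private theorem tlam_pow_square {p : ℕ} (hp : p.Prime) (k : ℕ) :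
    IsSquare (p ^ k) ↔ Even k := by
  constructor
  · rintro ⟨c, hc⟩
    have h1 := congrArg (fun n => n.factorization p) hc
    have hc0 : c ≠ 0 := by
      rintro rfl
      rw [mul_zero] at hc
      exact absurd hc (pow_ne_zero _ hp.ne_zero)
    simp only [hp.factorization_pow, Finsupp.single_eq_same, Nat.factorization_mul hc0 hc0,
      Finsupp.add_apply] at h1
    exact ⟨_, h1⟩
  · rintro ⟨c, rfl⟩
    exact ⟨p ^ c, by rw [pow_add]⟩

private theorem tlam_alt (k : ℕ) :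
    ∑ i ∈ range (k + 1), ((-1 : ℤ)) ^ i = if Even k then 1 else 0 := by
  induction k with
  | zero => simp
  | succ n ih =>
    rw [Finset.sum_range_succ, ih]
    rcases Nat.even_or_odd n with h | h
    · rw [if_pos h, if_neg (by rw [Nat.even_add_one]; exact not_not.mpr h),
        (Even.add_one h).neg_one_pow]
      norm_num
    · rw [if_neg (Nat.not_even_iff_odd.mpr h), if_pos (Odd.add_one h),
        (Odd.add_one h).neg_one_pow]
      norm_num

theorem lamsq (y : ℕ) (hy : 1 ≤ y) :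
    ∑ d ∈ y.divisors, lam d = if IsSquare y then 1 else 0 := by
  induction y using Nat.recOnPosPrimePosCoprime with
  | prime_pow p n hp hn =>
    rw [Nat.sum_divisors_prime_pow hp]
    simp only [tlam_pow hp, tlam_pow_square hp, tlam_alt]
  | zero => omega
  | one =>
    rw [Nat.divisors_one, Finset.sum_singleton, if_pos IsSquare.one]
    exact Pool.Agent.H34PG.lam_one
  | coprime a b ha hb hab iha ihb =>
    rw [tlam_sum_mul hab, iha (by omega), ihb (by omega)]
    by_cases h1 : IsSquare a <;> by_cases h2 : IsSquare b <;>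
      simp only [tlam_isSquare_mul hab, h1, h2, if_true, if_false, and_self, and_true, true_and,
        and_false, false_and, mul_one, mul_zero, zero_mul, one_mul]

/-- the divisor sum over divisors prime to `m` -/
private noncomputable def tf (m n : ℕ) : ℝ :=
  ∑ d ∈ n.divisors.filter (fun d => d.Coprime m), ((lam d : ℤ) : ℝ)

private theorem tlam_lhs (m M : ℕ) :
    ∑ d ∈ cop m M, ((lam d : ℤ) : ℝ) * ((M / d : ℕ) : ℝ) = ∑ n ∈ Icc 1 M, tf m n := by
  have h1 : ∀ d : ℕ, ((M / d : ℕ) : ℝ) = ∑ n ∈ Icc 1 M, if d ∣ n then (1 : ℝ) else 0 := by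
    intro d
    rw [← Nat.Ioc_filter_dvd_card_eq_div M d, Finset.card_filter]
    push_cast
    have : Ioc 0 M = Icc 1 M := by
      ext x
      rw [Finset.mem_Ioc, Finset.mem_Icc]
      omega
    rw [this]
  simp only [h1, Finset.mul_sum]
  rw [Finset.sum_comm]
  refine Finset.sum_congr rfl fun n hn => ?_
  rw [Finset.mem_Icc] at hn
  unfold tf
  simp only [mul_ite, mul_one, mul_zero]
  rw [← Finset.sum_filter]
  refine Finset.sum_congr ?_ fun _ _ => rfl
  ext d
  rw [Finset.mem_filter, Finset.mem_filter, mem_cop, Nat.mem_divisors]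
  constructor
  · rintro ⟨⟨h2, h3, h4⟩, h5⟩
    exact ⟨⟨h5, by omega⟩, h4⟩
  · rintro ⟨⟨h2, h3⟩, h4⟩
    have h5 := Nat.le_of_dvd (by omega) h2
    have h6 := Nat.pos_of_dvd_of_pos h2 (by omega)
    exact ⟨⟨h6, by omega, h4⟩, h2⟩

private theorem tf_eq {m M u y : ℕ} (hu : u ∈ sm m M) (hy : y ∈ cop m (M / u)) :
    tf m (u * y) = if IsSquare y then 1 else 0 := by
  rw [mem_sm] at hu
  rw [mem_cop] at hy
  have h1 : (u * y).divisors.filter (fun d => d.Coprime m) = y.divisors := by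
    ext d
    rw [Finset.mem_filter, Nat.mem_divisors, Nat.mem_divisors]
    constructor
    · rintro ⟨⟨h2, h3⟩, h4⟩
      refine ⟨?_, by omega⟩
      have h5 : d.Coprime u := by
        rw [Nat.coprime_iff_gcd_eq_one]
        by_contra hcon
        obtain ⟨p, hp, hpd⟩ := Nat.exists_prime_and_dvd hcon
        have h6 : p ∣ d := hpd.trans (Nat.gcd_dvd_left _ _)
        have h7 : p ∣ u := hpd.trans (Nat.gcd_dvd_right _ _)
        have h8 := hu.2 p hp h7
        have h9 := Nat.dvd_gcd h6 h8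
        rw [h4] at h9
        exact hp.one_lt.ne' (Nat.dvd_one.mp h9)
      exact h5.dvd_of_dvd_mul_left h2
    · rintro ⟨h2, h3⟩
      refine ⟨⟨h2.mul_left u, Nat.mul_ne_zero (by omega) h3⟩, ?_⟩
      exact Nat.Coprime.coprime_dvd_left h2 hy.2.2
  unfold tf
  rw [h1]
  have h2 := lamsq y hy.1
  have h3 : ((∑ d ∈ y.divisors, lam d : ℤ) : ℝ) = ((if IsSquare y then 1 else 0 : ℤ) : ℝ) := by
    rw [h2]
  push_cast at h3
  exact h3

private theorem tlam_squares (A : Finset ℕ) (x : ℝ) (hA : ∀ y ∈ A, 1 ≤ y ∧ (y : ℝ) ≤ x) :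
    ∑ y ∈ A, (if IsSquare y then (1 : ℝ) else 0) ≤ Real.sqrt x := by
  classical
  rw [← Finset.sum_filter, Finset.sum_const, nsmul_eq_mul, mul_one]
  have h1 : A.filter IsSquare ⊆ (Icc 1 ⌊Real.sqrt x⌋₊).image (fun c => c * c) := by
    intro y hy
    rw [Finset.mem_filter] at hy
    obtain ⟨h2, c, rfl⟩ := hy
    obtain ⟨h3, h4⟩ := hA _ h2
    rw [Finset.mem_image]
    refine ⟨c, Finset.mem_Icc.mpr ⟨?_, ?_⟩, rfl⟩
    · by_contra hcon
      have : c = 0 := by omega
      subst this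
      omega
    · refine Nat.le_floor ?_
      refine Real.le_sqrt_of_sq_le ?_
      push_cast at h4
      rw [sq]
      exact h4
  have h2 := (Finset.card_le_card h1).trans Finset.card_image_le
  rw [Nat.card_Icc, Nat.add_sub_cancel] at h2
  calc ((A.filter IsSquare).card : ℝ) ≤ (⌊Real.sqrt x⌋₊ : ℝ) := by exact_mod_cast h2
    _ ≤ Real.sqrt x := Nat.floor_le (Real.sqrt_nonneg _)

theorem lam_sum (m M : ℕ) (hm : 1 ≤ m) :
    |∑ d ∈ cop m M, ((lam d : ℤ) : ℝ) * ((M / d : ℕ) : ℝ)| ≤ Real.sqrt M *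
      ∏ p ∈ m.primeFactors, (1 - (p : ℝ) ^ (-(1 / 2 : ℝ)))⁻¹ := by
  rw [tlam_lhs, split m M hm (tf m)]
  have h1 : ∑ d ∈ sm m M, ∑ y ∈ cop m (M / d), tf m (d * y) =
      ∑ d ∈ sm m M, ∑ y ∈ cop m (M / d), (if IsSquare y then (1 : ℝ) else 0) :=
    Finset.sum_congr rfl fun d hd => Finset.sum_congr rfl fun y hy => tf_eq hd hy
  rw [h1, abs_of_nonneg (Finset.sum_nonneg fun d _ => Finset.sum_nonneg fun y _ => by
    split_ifs <;> norm_num)]
  have h2 : ∀ d ∈ sm m M, ∑ y ∈ cop m (M / d), (if IsSquare y then (1 : ℝ) else 0) ≤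
      Real.sqrt M * (d : ℝ) ^ (-(1 / 2 : ℝ)) := by
    intro d hd
    rw [mem_sm] at hd
    have hd0 : (0 : ℝ) < d := by exact_mod_cast hd.1.1
    have h3 : Real.sqrt M * (d : ℝ) ^ (-(1 / 2 : ℝ)) = Real.sqrt ((M : ℝ) / d) := by
      rw [Real.sqrt_div (by positivity), Real.rpow_neg hd0.le, ← Real.sqrt_eq_rpow]
      rfl
    rw [h3]
    refine tlam_squares _ _ fun y hy => ?_
    rw [mem_cop] at hy
    refine ⟨hy.1, ?_⟩
    rw [le_div_iff₀ hd0]
    have h4 : y * d ≤ M := (Nat.mul_le_mul_right d hy.2.1).trans (Nat.div_mul_le_self M d)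
    exact_mod_cast h4
  calc _ ≤ ∑ d ∈ sm m M, Real.sqrt M * (d : ℝ) ^ (-(1 / 2 : ℝ)) := Finset.sum_le_sum h2
    _ = Real.sqrt M * ∑ d ∈ sm m M, (d : ℝ) ^ (-(1 / 2 : ℝ)) := by rw [Finset.mul_sum]
    _ ≤ _ := mul_le_mul_of_nonneg_left (sm_sum m M hm) (Real.sqrt_nonneg _)

end Pool.Agent.H78.PG
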