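import Pool.Agent.H78.PG.TGrow
import Pool.Agent.H91.EHA.SwD3

/-!
# LQ / PG, TSie: Siegel's theorem for all real nonprincipal characters

`Pool.Agent.H91.EHA.siegel` is for primitive characters.  `χ` mod `m`, `χ² = 1`, `χ ≠ 1`, `χ*` its primitive
character mod the conductor `q` (`DirichletCharacter.primitiveCharacter`), `χ*² = 1` and `χ* ≠ 1`
(`changeLevel` injective).  Mathlib `DirichletCharacter.LFunction_changeLevel`:
`L(1,χ) = L(1,χ*) ∏_{p | m} (1 - χ*(p)/p)` (or the eta / `primeFactors` form), so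
`|L(1,χ)| ≥ |L(1,χ*)| ∏_{p | m} (1 - 1/p) = |L(1,χ*)| φ(m)/m ≥ c q^(-θ/3) m^(-θ/3) ≥ m^(-θ)` (`tot_le`, `q ≤ m`).
-/

set_option autoImplicit false

namespace Pool.Agent.H78.PG

open Finset
open Pool.Agent.H34PG (lam lam_val lam_mul lam_prime)
open Pool.Agent.H11.LQ

private theorem tsie_prod {m : ℕ} [NeZero m] {q : ℕ} (ψ : DirichletCharacter ℂ q) :
    (m.totient : ℝ) / m ≤ ‖∏ p ∈ m.primeFactors, (1 - ψ p * (p : ℂ) ^ (-(1 : ℂ)))‖ := by
  have hm0 : (m : ℝ) ≠ 0 := by exact_mod_cast NeZero.ne m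
  have h1 : ((m.totient : ℚ) : ℝ) = ((m * ∏ p ∈ m.primeFactors, (1 - (p : ℚ)⁻¹) : ℚ) : ℝ) := by
    rw [Nat.totient_eq_mul_prod_factors]
  push_cast at h1
  rw [h1, mul_div_assoc, mul_comm, div_mul_cancel₀ _ hm0, norm_prod]
  refine Finset.prod_le_prod (fun p hp => ?_) fun p hp => ?_
  · have hp1 : (1 : ℝ) ≤ p := by exact_mod_cast (Nat.prime_of_mem_primeFactors hp).one_le
    have := inv_le_one_of_one_le₀ hp1
    linarith
  · have h2 : ‖ψ p * (p : ℂ) ^ (-(1 : ℂ))‖ ≤ (p : ℝ)⁻¹ := by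
      rw [Complex.cpow_neg, Complex.cpow_one, norm_mul, norm_inv, Complex.norm_natCast]
      have h3 := DirichletCharacter.norm_le_one ψ (p : ZMod q)
      have h4 : (0 : ℝ) ≤ (p : ℝ)⁻¹ := by positivity
      exact mul_le_of_le_one_left h4 h3
    have h5 := norm_sub_norm_le (1 : ℂ) (ψ p * (p : ℂ) ^ (-(1 : ℂ)))
    rw [norm_one] at h5
    linarith

theorem siegel_all (θ : ℝ) (hθ : 0 < θ) : ∃ m0 : ℕ, ∀ (m : ℕ) [NeZero m], m0 ≤ m →
    ∀ χ : DirichletCharacter ℂ m, χ ^ 2 = 1 → χ ≠ 1 →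
      (m : ℝ) ^ (-θ) ≤ ‖DirichletCharacter.LFunction χ 1‖ := by
  have hθ3 : 0 < θ / 3 := by positivity
  obtain ⟨c, hc, hs⟩ := Pool.Agent.H91.EHA.siegel (θ / 3) hθ3
  obtain ⟨m1, hm1⟩ := tot_le (θ / 3) hθ3
  obtain ⟨m2, hm2⟩ := grow c⁻¹ 0 (θ / 3) hθ3
  refine ⟨max m1 m2, ?_⟩
  intro m _ hm χ hχ2 hχ1
  have hmpos : (0 : ℝ) < m := by exact_mod_cast Nat.pos_of_ne_zero (NeZero.ne m)
  have hcond : NeZero χ.conductor := ⟨by
    intro h
    have h1 := χ.conductor_dvd_level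
    rw [h] at h1
    exact NeZero.ne m (Nat.eq_zero_of_zero_dvd h1)⟩
  obtain ⟨ψ, hψ⟩ : ∃ ψ, ψ = χ.primitiveCharacter := ⟨_, rfl⟩
  have hch : DirichletCharacter.changeLevel χ.conductor_dvd_level ψ = χ := by
    rw [hψ]
    exact χ.changeLevel_primitiveCharacter
  have hψp : ψ.IsPrimitive := by
    rw [hψ]
    exact χ.primitiveCharacter_isPrimitive
  have hψ2 : ψ ^ 2 = 1 := by
    apply DirichletCharacter.changeLevel_injective χ.conductor_dvd_level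
    rw [map_pow, hch, hχ2, map_one]
  have hψ1 : ψ ≠ 1 := by
    intro h
    apply hχ1
    rw [← hch, h, map_one]
  have h1 := hs χ.conductor ψ hψp hψ2 hψ1
  have h2 : DirichletCharacter.LFunction χ 1 = DirichletCharacter.LFunction ψ 1 *
      ∏ p ∈ m.primeFactors, (1 - ψ p * (p : ℂ) ^ (-(1 : ℂ))) := by
    have h3 := DirichletCharacter.LFunction_changeLevel χ.conductor_dvd_level ψ (s := 1)
      (Or.inl hψ1)
    rw [hch] at h3
    exact h3
  rw [h2, norm_mul]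
  have h3 := tsie_prod (m := m) ψ
  have h4 := hm1 m (le_trans (le_max_left _ _) hm)
  have h5 := hm2 m (le_trans (le_max_right _ _) hm)
  rw [pow_zero, mul_one] at h5
  have h6 : (m : ℝ) ^ (-(θ / 3)) ≤ (m.totient : ℝ) / m := by
    rw [le_div_iff₀ hmpos, Real.rpow_neg hmpos.le, inv_mul_le_iff₀ (Real.rpow_pos_of_pos hmpos _)]
    exact h4
  have h7 : c * (m : ℝ) ^ (-(θ / 3)) ≤ ‖DirichletCharacter.LFunction ψ 1‖ := by
    refine le_trans ?_ h1
    refine mul_le_mul_of_nonneg_left ?_ hc.le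
    have hq : (0 : ℝ) < χ.conductor := by exact_mod_cast Nat.pos_of_ne_zero hcond.out
    rw [Real.rpow_neg hmpos.le, Real.rpow_neg hq.le]
    refine inv_anti₀ (Real.rpow_pos_of_pos hq _) ?_
    refine Real.rpow_le_rpow hq.le ?_ hθ3.le
    exact_mod_cast Nat.le_of_dvd (Nat.pos_of_ne_zero (NeZero.ne m)) χ.conductor_dvd_level
  have h8 : (1 : ℝ) ≤ c * (m : ℝ) ^ (θ / 3) := by
    rw [inv_le_iff_one_le_mul₀ hc] at h5
    linarith
  have hp3 : (0 : ℝ) < (m : ℝ) ^ (-(θ / 3)) := Real.rpow_pos_of_pos hmpos _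
  calc (m : ℝ) ^ (-θ) = (m : ℝ) ^ (-(θ / 3)) * (m : ℝ) ^ (-(θ / 3)) * (m : ℝ) ^ (-(θ / 3)) := by
        rw [← Real.rpow_add hmpos, ← Real.rpow_add hmpos]
        congr 1
        ring
    _ ≤ c * (m : ℝ) ^ (-(θ / 3)) * (m : ℝ) ^ (-(θ / 3)) := by
        have h9 : (m : ℝ) ^ (-(θ / 3)) ≤ c := by
          rw [Real.rpow_neg hmpos.le, inv_le_iff_one_le_mul₀ (Real.rpow_pos_of_pos hmpos _)]
          linarith
        have h10 : 0 ≤ (m : ℝ) ^ (-(θ / 3)) * (m : ℝ) ^ (-(θ / 3)) := by positivity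
        nlinarith
    _ ≤ ‖DirichletCharacter.LFunction ψ 1‖ * ((m.totient : ℝ) / m) := by
        refine mul_le_mul h7 h6 hp3.le (norm_nonneg _)
    _ ≤ _ := mul_le_mul_of_nonneg_left h3 (norm_nonneg _)

end Pool.Agent.H78.PG
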