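import Pool.Agent.H78.PG.TT7
import Pool.Agent.H78.PG.TLam
import Pool.Agent.H78.PG.THyp
import Pool.Agent.H78.PG.TSie

/-!
# LQ / PG: the analytic part

`M = m/2`, `χ` from `t7`.  `DD m M χ = ∑_{d ∈ cop m M} λ(d) ⌊M/d⌋ + ∑_{d ∈ cop m M} (χ(d) - λ(d)) ⌊M/d⌋`; the first sum is
`≤ √M m^θ` (`lam_sum`, `prod_le`), the second `≤ M ∑ ‖χ - λ‖/d ≤ M m^(-δ/30) (1 + log m)` (`psum`).  With `hyper`:
`M ‖L(1,χ)‖ ≤ M m^(-δ/40)`, against `siegel_all`.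
-/

set_option autoImplicit false

namespace Pool.Agent.H78.PG

open Finset
open Pool.Agent.H34PG (lam lam_val lam_mul lam_prime)
open Pool.Agent.H11.LQ

/-- `DD` as a sum over the numbers prime to `m` -/
theorem DD_cop (m M : ℕ) (χ : DirichletCharacter ℂ m) :
    DD m M χ = ∑ d ∈ cop m M, χ (d : ZMod m) * ((M / d : ℕ) : ℂ) := by
  unfold DD cop
  rw [Finset.sum_filter]
  refine Finset.sum_congr rfl (fun d _ => ?_)
  split_ifs with h
  · rfl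
  · have : χ (d : ZMod m) = 0 := by
      apply χ.map_nonunit
      rw [ZMod.isUnit_iff_coprime]
      exact h
    rw [this, zero_mul]

/-- the comparison of `DD` with the Liouville sum -/
theorem DD_le (m M : ℕ) (χ : DirichletCharacter ℂ m) (θ : ℝ) (hθ : 0 ≤ θ)
    (h : ∀ N : ℕ, 1 ≤ N → N ≤ M →
      ∑ x ∈ cop m N, ‖((lam x : ℤ) : ℂ) - χ (x : ZMod m)‖ ≤ θ * N) :
    ‖DD m M χ‖ ≤ |∑ d ∈ cop m M, ((lam d : ℤ) : ℝ) * ((M / d : ℕ) : ℝ)|
      + M * (θ * (1 + Real.log M)) := by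
  set a : ℕ → ℝ := fun n => if n.Coprime m then ‖((lam n : ℤ) : ℂ) - χ (n : ZMod m)‖ else 0
    with ha
  have hA : ∀ N : ℕ, ∑ n ∈ Icc 1 N, a n = ∑ x ∈ cop m N, ‖((lam x : ℤ) : ℂ) - χ (x : ZMod m)‖ := by
    intro N
    unfold cop
    rw [Finset.sum_filter]
  have h1 := psum a θ hθ M (fun N hN1 hN2 => by rw [hA]; exact h N hN1 hN2)
  have h2 : DD m M χ = (∑ d ∈ cop m M, ((lam d : ℤ) : ℂ) * ((M / d : ℕ) : ℂ))
      - ∑ d ∈ cop m M, (((lam d : ℤ) : ℂ) - χ (d : ZMod m)) * ((M / d : ℕ) : ℂ) := by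
    rw [DD_cop, ← Finset.sum_sub_distrib]
    refine Finset.sum_congr rfl (fun d _ => ?_)
    ring
  have h3 : ‖∑ d ∈ cop m M, ((lam d : ℤ) : ℂ) * ((M / d : ℕ) : ℂ)‖
      = |∑ d ∈ cop m M, ((lam d : ℤ) : ℝ) * ((M / d : ℕ) : ℝ)| := by
    rw [← Real.norm_eq_abs, ← Complex.norm_real]
    push_cast
    rfl
  have h4 : ‖∑ d ∈ cop m M, (((lam d : ℤ) : ℂ) - χ (d : ZMod m)) * ((M / d : ℕ) : ℂ)‖
      ≤ M * ∑ n ∈ Icc 1 M, a n / n := by
    refine (norm_sum_le _ _).trans ?_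
    rw [Finset.mul_sum]
    have h5 : ∑ n ∈ Icc 1 M, (M : ℝ) * (a n / n)
        = ∑ n ∈ cop m M, (M : ℝ) * (‖((lam n : ℤ) : ℂ) - χ (n : ZMod m)‖ / n) := by
      unfold cop
      rw [Finset.sum_filter]
      refine Finset.sum_congr rfl (fun n _ => ?_)
      simp only [ha]
      split_ifs <;> simp
    rw [h5]
    refine Finset.sum_le_sum (fun d hd => ?_)
    rw [norm_mul, Complex.norm_natCast]
    have h6 : ((M / d : ℕ) : ℝ) ≤ (M : ℝ) / d := Nat.cast_div_le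
    calc ‖((lam d : ℤ) : ℂ) - χ (d : ZMod m)‖ * ((M / d : ℕ) : ℝ)
        ≤ ‖((lam d : ℤ) : ℂ) - χ (d : ZMod m)‖ * ((M : ℝ) / d) :=
          mul_le_mul_of_nonneg_left h6 (norm_nonneg _)
      _ = (M : ℝ) * (‖((lam d : ℤ) : ℂ) - χ (d : ZMod m)‖ / d) := by ring
  rw [h2]
  refine (norm_sub_le _ _).trans ?_
  rw [h3]
  have h7 : (M : ℝ) * ∑ n ∈ Icc 1 M, a n / n ≤ M * (θ * (1 + Real.log M)) :=
    mul_le_mul_of_nonneg_left h1 (Nat.cast_nonneg _)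
  linarith

/-- the case of small `δ` -/
theorem analytic_small (δ : ℝ) (h0 : 0 < δ) (h1 : δ ≤ 1 / 100) : ∃ m0 : ℕ, ∀ (m : ℕ),
    m0 ≤ m → ∀ η : ℤ, ¬ Hyp δ m η := by
  obtain ⟨m1, H1⟩ := t7 δ h0 h1
  obtain ⟨m2, H2⟩ := siegel_all (δ / 50) (by positivity)
  obtain ⟨m3, H3⟩ := prod_le (1 / 100) (by norm_num)
  obtain ⟨m4, H4⟩ := KK_le (1 / 100) (by norm_num)
  obtain ⟨m5, H5⟩ := grow 3 1 (δ / 120) (by positivity)
  obtain ⟨m6, H6⟩ := grow 30 0 (1 / 10) (by norm_num)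
  refine ⟨max 4 (max m1 (max m2 (max m3 (max m4 (max m5 m6))))), fun m hm η hH => ?_⟩
  simp only [max_le_iff] at hm
  obtain ⟨hm4', hm1, hm2, hm3, hm4, hm5, hm6⟩ := hm
  haveI : NeZero m := ⟨by omega⟩
  obtain ⟨χ, hχ2, hχ1, hχM⟩ := H1 m hm1 η hH
  have hS := H2 m hm2 χ hχ2 hχ1
  have hP := H3 m hm3
  have hK := H4 m hm4
  have hL := H5 m hm5
  have hG := H6 m hm6
  rw [pow_one] at hL
  rw [pow_zero, mul_one] at hG
  set M : ℕ := m / 2 with hM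
  have hM1 : 1 ≤ M := by omega
  have hM2 : 2 * M ≤ m := by omega
  have hmR : (4 : ℝ) ≤ m := by exact_mod_cast hm4'
  have hm0 : (0 : ℝ) < m := by linarith
  have hm1' : (1 : ℝ) ≤ m := by linarith
  have hMR1 : (1 : ℝ) ≤ M := by exact_mod_cast hM1
  have hMR0 : (0 : ℝ) < M := by linarith
  have hM4 : (m : ℝ) ≤ 4 * M := by
    have : m ≤ 4 * M := by omega
    exact_mod_cast this
  have hMm : (M : ℝ) ≤ m := by
    have : M ≤ m := by omega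
    exact_mod_cast this
  -- the square root of M
  have hsM : (m : ℝ) ^ (1 / 2 : ℝ) ≤ 2 * Real.sqrt M := by
    rw [← Real.sqrt_eq_rpow]
    have h4 : Real.sqrt m ≤ Real.sqrt (4 * M) := Real.sqrt_le_sqrt hM4
    have h5 : Real.sqrt (4 * M) = 2 * Real.sqrt M := by
      rw [Real.sqrt_mul (by norm_num), show (4 : ℝ) = 2 ^ 2 by norm_num,
        Real.sqrt_sq (by norm_num)]
    linarith
  have hKM : KK m ≤ M := by
    have h4 : (m : ℝ) ^ (1 / 2 + 1 / 100 : ℝ) * (m : ℝ) ^ (1 / 10 : ℝ) ≤ m := by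
      rw [← Real.rpow_add hm0]
      calc (m : ℝ) ^ (1 / 2 + 1 / 100 + 1 / 10 : ℝ) ≤ (m : ℝ) ^ (1 : ℝ) :=
            Real.rpow_le_rpow_of_exponent_le hm1' (by norm_num)
        _ = m := Real.rpow_one _
    have h5 : 0 ≤ (m : ℝ) ^ (1 / 2 + 1 / 100 : ℝ) := Real.rpow_nonneg hm0.le _
    nlinarith
  have hHy := hyper m χ hχ1 M hM1 hKM
  have hDD := DD_le m M χ ((m : ℝ) ^ (-(δ / 30))) (Real.rpow_nonneg hm0.le _)
    (fun N hN1 hN2 => by
      rw [mul_comm]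
      exact hχM N hN1 (by omega))
  have hLam := lam_sum m M (by omega)
  -- the three error terms
  set T : ℝ := (m : ℝ) ^ (-(δ / 40)) with hT
  have hT0 : 0 < T := Real.rpow_pos_of_pos hm0 _
  have hs0 : 0 < Real.sqrt M := Real.sqrt_pos.2 hMR0
  have hss : Real.sqrt M * Real.sqrt M = M := Real.mul_self_sqrt hMR0.le
  have hTinv : T * (m : ℝ) ^ (δ / 40) = 1 := by
    rw [hT, ← Real.rpow_add hm0]
    rw [show -(δ / 40) + δ / 40 = 0 by ring, Real.rpow_zero]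
  have e1 : Real.sqrt M * ∏ p ∈ m.primeFactors, (1 - (p : ℝ) ^ (-(1 / 2 : ℝ)))⁻¹ ≤ M * T / 3 := by
    have h4 : 3 * ((m : ℝ) ^ (1 / 100 : ℝ) * (m : ℝ) ^ (δ / 40)) ≤ Real.sqrt M := by
      have h5 : 30 * ((m : ℝ) ^ (1 / 100 : ℝ) * (m : ℝ) ^ (δ / 40)) ≤ (m : ℝ) ^ (1 / 2 : ℝ) := by
        have h6 : (m : ℝ) ^ (1 / 10 : ℝ) * ((m : ℝ) ^ (1 / 100 : ℝ) * (m : ℝ) ^ (δ / 40))
            ≤ (m : ℝ) ^ (1 / 2 : ℝ) := by
          rw [← Real.rpow_add hm0, ← Real.rpow_add hm0]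
          exact Real.rpow_le_rpow_of_exponent_le hm1' (by linarith)
        have h7 : 0 ≤ (m : ℝ) ^ (1 / 100 : ℝ) * (m : ℝ) ^ (δ / 40) := by positivity
        nlinarith
      have h7 : 0 ≤ (m : ℝ) ^ (1 / 100 : ℝ) * (m : ℝ) ^ (δ / 40) := by positivity
      linarith
    have h8 : Real.sqrt M * ∏ p ∈ m.primeFactors, (1 - (p : ℝ) ^ (-(1 / 2 : ℝ)))⁻¹
        ≤ Real.sqrt M * (m : ℝ) ^ (1 / 100 : ℝ) := mul_le_mul_of_nonneg_left hP hs0.le
    have h9 : Real.sqrt M * (m : ℝ) ^ (1 / 100 : ℝ)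
        = Real.sqrt M * ((m : ℝ) ^ (1 / 100 : ℝ) * (m : ℝ) ^ (δ / 40)) * T := by
      calc Real.sqrt M * (m : ℝ) ^ (1 / 100 : ℝ)
          = Real.sqrt M * (m : ℝ) ^ (1 / 100 : ℝ) * (T * (m : ℝ) ^ (δ / 40)) := by
            rw [hTinv, mul_one]
        _ = _ := by ring
    rw [h9] at h8
    refine h8.trans ?_
    have h10 : Real.sqrt M * ((m : ℝ) ^ (1 / 100 : ℝ) * (m : ℝ) ^ (δ / 40)) ≤ M / 3 := by
      have := mul_le_mul_of_nonneg_left h4 hs0.le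
      rw [hss] at this
      linarith
    have := mul_le_mul_of_nonneg_right h10 hT0.le
    linarith
  have e2 : (M : ℝ) * ((m : ℝ) ^ (-(δ / 30)) * (1 + Real.log M)) ≤ M * T / 3 := by
    have h4 : Real.log M ≤ Real.log m := Real.log_le_log hMR0 hMm
    have h5 : (m : ℝ) ^ (-(δ / 30)) * (m : ℝ) ^ (δ / 120) = T := by
      rw [hT, ← Real.rpow_add hm0]
      congr 1
      ring
    have h6 : 0 ≤ (m : ℝ) ^ (-(δ / 30)) := Real.rpow_nonneg hm0.le _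
    have h7 : (m : ℝ) ^ (-(δ / 30)) * (1 + Real.log M) ≤ T / 3 := by
      rw [← h5]
      have h8 : 1 + Real.log M ≤ (m : ℝ) ^ (δ / 120) / 3 := by linarith
      have := mul_le_mul_of_nonneg_left h8 h6
      linarith
    have := mul_le_mul_of_nonneg_left h7 hMR0.le
    linarith
  have e3 : 5 * Real.sqrt (M * KK m) ≤ M * T / 3 := by
    have h4 : Real.sqrt (M * KK m) ≤ Real.sqrt M * (m : ℝ) ^ (51 / 200 : ℝ) := by
      rw [Real.sqrt_mul hMR0.le]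
      refine mul_le_mul_of_nonneg_left ?_ hs0.le
      have h5 : Real.sqrt (KK m) ≤ Real.sqrt ((m : ℝ) ^ (1 / 2 + 1 / 100 : ℝ)) :=
        Real.sqrt_le_sqrt hK
      have h6 : Real.sqrt ((m : ℝ) ^ (1 / 2 + 1 / 100 : ℝ)) = (m : ℝ) ^ (51 / 200 : ℝ) := by
        rw [Real.sqrt_eq_rpow, ← Real.rpow_mul hm0.le]
        congr 1
        norm_num
      linarith
    have h5 : 15 * ((m : ℝ) ^ (51 / 200 : ℝ) * (m : ℝ) ^ (δ / 40)) ≤ Real.sqrt M := by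
      have h6 : 30 * ((m : ℝ) ^ (51 / 200 : ℝ) * (m : ℝ) ^ (δ / 40)) ≤ (m : ℝ) ^ (1 / 2 : ℝ) := by
        have h6 : (m : ℝ) ^ (1 / 10 : ℝ) * ((m : ℝ) ^ (51 / 200 : ℝ) * (m : ℝ) ^ (δ / 40))
            ≤ (m : ℝ) ^ (1 / 2 : ℝ) := by
          rw [← Real.rpow_add hm0, ← Real.rpow_add hm0]
          exact Real.rpow_le_rpow_of_exponent_le hm1' (by linarith)
        have h7 : 0 ≤ (m : ℝ) ^ (51 / 200 : ℝ) * (m : ℝ) ^ (δ / 40) := by positivity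
        nlinarith
      linarith
    have h9 : Real.sqrt M * (m : ℝ) ^ (51 / 200 : ℝ)
        = Real.sqrt M * ((m : ℝ) ^ (51 / 200 : ℝ) * (m : ℝ) ^ (δ / 40)) * T := by
      calc Real.sqrt M * (m : ℝ) ^ (51 / 200 : ℝ)
          = Real.sqrt M * (m : ℝ) ^ (51 / 200 : ℝ) * (T * (m : ℝ) ^ (δ / 40)) := by
            rw [hTinv, mul_one]
        _ = _ := by ring
    have h10 : Real.sqrt M * ((m : ℝ) ^ (51 / 200 : ℝ) * (m : ℝ) ^ (δ / 40)) ≤ M / 15 := by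
      have := mul_le_mul_of_nonneg_left h5 hs0.le
      rw [hss] at this
      linarith
    have h11 := mul_le_mul_of_nonneg_right h10 hT0.le
    rw [h9] at h4
    linarith
  -- conclusion
  have hfin : (M : ℝ) * ‖DirichletCharacter.LFunction χ 1‖ ≤ M * T := by
    have h4 : ‖(M : ℂ) * DirichletCharacter.LFunction χ 1‖
        ≤ ‖DD m M χ‖ + ‖DD m M χ - M * DirichletCharacter.LFunction χ 1‖ := by
      have : (M : ℂ) * DirichletCharacter.LFunction χ 1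
          = DD m M χ - (DD m M χ - M * DirichletCharacter.LFunction χ 1) := by ring
      rw [this]
      refine (norm_sub_le _ _).trans (le_of_eq ?_)
      rw [← this]
    rw [norm_mul, Complex.norm_natCast] at h4
    linarith
  have hfin2 : ‖DirichletCharacter.LFunction χ 1‖ ≤ T := le_of_mul_le_mul_left hfin hMR0
  have hlt : T < (m : ℝ) ^ (-(δ / 50)) := by
    rw [hT]
    apply Real.rpow_lt_rpow_of_exponent_lt (by linarith)
    linarith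
  linarith

/-- the analytic part -/
theorem analytic (δ : ℝ) (h0 : 0 < δ) : ∃ m0 : ℕ, ∀ m : ℕ, m0 ≤ m → ∀ η : ℤ, (η = 1 ∨ η = -1) →
    ¬ ∀ q : ℕ, q.Prime → (q : ℝ) ≤ (m : ℝ) ^ δ → ((Ex m η q).card : ℝ) ≤ (m : ℝ) ^ (1 - δ) := by
  obtain ⟨m0, H⟩ := analytic_small (min δ (1 / 100)) (lt_min h0 (by norm_num)) (min_le_right _ _)
  refine ⟨max m0 1, fun m hm η hη hh => H m ((le_max_left _ _).trans hm) η ⟨hη, ?_⟩⟩
  have hm1 : (1 : ℝ) ≤ m := by exact_mod_cast (le_max_right _ _).trans hm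
  intro q hq hqm
  have h2 : (m : ℝ) ^ (min δ (1 / 100)) ≤ (m : ℝ) ^ δ :=
    Real.rpow_le_rpow_of_exponent_le hm1 (min_le_left _ _)
  refine (hh q hq (hqm.trans h2)).trans ?_
  apply Real.rpow_le_rpow_of_exponent_le hm1
  have := min_le_left δ (1 / 100)
  linarith

end Pool.Agent.H78.PG
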