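import Pool.Agent.H78.PG.TDefs

/-!
# LQ / PG, TCop: the number of `x ≤ M` prime to `m`

`#cop = ∑_{d | m} μ(d) ⌊M/d⌋`, `|⌊M/d⌋ - M/d| ≤ 1` for the `2^ω(m)` squarefree `d`, `∑_{d | m} μ(d)/d = φ(m)/m`.
Or by induction over the set of prime factors `P`: with `f(P, M) = #{x ≤ M : no p ∈ P divides x}`:
`f(P ∪ {q}, M) = f(P, M) - f(P, M/q)`, so `|f(P, M) - M ∏ (1 - 1/p)| ≤ 2^#P` for all `M` (also real `M`: use `⌊M/q⌋`,
`|M/q - ⌊M/q⌋| < 1`; state the induction for real `t`: `|#{x ≤ t} - t ∏ (1-1/p)| ≤ 2^#P`).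
-/

set_option autoImplicit false

namespace Pool.Agent.H78.PG

open Finset
open Pool.Agent.H34PG (lam lam_val lam_mul lam_prime)
open Pool.Agent.H11.LQ

/-- the numbers up to `M` divisible by no member of `P` -/
private def tcopF (P : Finset ℕ) (M : ℕ) : Finset ℕ :=
  (Icc 1 M).filter (fun x => ∀ p ∈ P, ¬ p ∣ x)

private theorem tcop_card_insert (P : Finset ℕ) (q : ℕ) (hq : q.Prime) (hP : ∀ p ∈ P, p.Prime)
    (hqP : q ∉ P) (M : ℕ) :
    (tcopF (insert q P) M).card + (tcopF P (M / q)).card = (tcopF P M).card := by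
  have hinj : Set.InjOn (fun y : ℕ => q * y) (tcopF P (M / q)) := by
    intro a _ b _ h
    exact Nat.eq_of_mul_eq_mul_left hq.pos h
  rw [← card_image_of_injOn hinj, ← card_union_of_disjoint]
  · congr 1
    ext x
    simp only [tcopF, mem_union, mem_filter, mem_Icc, mem_image, mem_insert, forall_eq_or_imp]
    constructor
    · rintro (⟨h1, _, h3⟩ | ⟨y, ⟨⟨h1, h2⟩, h3⟩, rfl⟩)
      · exact ⟨h1, h3⟩
      · refine ⟨⟨Nat.mul_pos hq.pos h1, ?_⟩, ?_⟩
        · calc q * y ≤ q * (M / q) := Nat.mul_le_mul_left _ h2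
            _ ≤ M := Nat.mul_div_le M q
        · intro p hp hd
          rcases (hP p hp).dvd_mul.mp hd with h | h
          · rw [(Nat.prime_dvd_prime_iff_eq (hP p hp) hq).mp h] at hp
            exact hqP hp
          · exact h3 p hp h
    · rintro ⟨h1, h3⟩
      by_cases hd : q ∣ x
      · right
        obtain ⟨y, rfl⟩ := hd
        have hy : 1 ≤ y := by
          rcases Nat.eq_zero_or_pos y with h | h
          · rw [h, mul_zero] at h1
            omega
          · exact h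
        refine ⟨y, ⟨⟨hy, ?_⟩, ?_⟩, rfl⟩
        · rw [Nat.le_div_iff_mul_le hq.pos, mul_comm]
          exact h1.2
        · intro p hp h
          exact h3 p hp (Dvd.dvd.mul_left h q)
      · left
        exact ⟨h1, hd, h3⟩
  · rw [Finset.disjoint_left]
    intro x hx hx2
    simp only [tcopF, mem_filter, mem_insert, forall_eq_or_imp, mem_image] at hx hx2
    obtain ⟨y, _, rfl⟩ := hx2
    exact hx.2.1 (Dvd.intro y rfl)

private theorem tcop_est (P : Finset ℕ) (hP : ∀ p ∈ P, p.Prime) :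
    ∀ M : ℕ, |((tcopF P M).card : ℝ) - M * ∏ p ∈ P, (1 - (p : ℝ)⁻¹)| ≤ 2 ^ P.card - 1 := by
  induction P using Finset.induction_on with
  | empty =>
    intro M
    simp [tcopF]
  | insert q P hqP ih =>
    intro M
    have hq : q.Prime := hP q (mem_insert_self q P)
    have hP' : ∀ p ∈ P, p.Prime := fun p hp => hP p (mem_insert_of_mem hp)
    have hcard := tcop_card_insert P q hq hP' hqP M
    have h1 := ih hP' M
    have h2 := ih hP' (M / q)
    have hc : ((tcopF (insert q P) M).card : ℝ)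
        = ((tcopF P M).card : ℝ) - ((tcopF P (M / q)).card : ℝ) := by
      rw [← hcard]
      push_cast
      ring
    rw [prod_insert hqP, card_insert_of_notMem hqP, hc]
    set X : ℝ := ∏ p ∈ P, (1 - (p : ℝ)⁻¹) with hX
    have hX0 : 0 ≤ X := by
      rw [hX]
      apply prod_nonneg
      intro p hp
      have : (1 : ℝ) ≤ p := by exact_mod_cast (hP' p hp).one_lt.le
      have : (p : ℝ)⁻¹ ≤ 1 := inv_le_one_of_one_le₀ this
      linarith
    have hX1 : X ≤ 1 := by
      rw [hX]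
      apply prod_le_one
      · intro p hp
        have : (1 : ℝ) ≤ p := by exact_mod_cast (hP' p hp).one_lt.le
        have : (p : ℝ)⁻¹ ≤ 1 := inv_le_one_of_one_le₀ this
        linarith
      · intro p hp
        have : (0 : ℝ) ≤ (p : ℝ)⁻¹ := by positivity
        linarith
    have hq0 : (0 : ℝ) < q := by exact_mod_cast hq.pos
    have hfl1 : ((M / q : ℕ) : ℝ) ≤ M * (q : ℝ)⁻¹ := by
      rw [← div_eq_mul_inv]
      exact Nat.cast_div_le
    have hfl2 : (M : ℝ) * (q : ℝ)⁻¹ ≤ ((M / q : ℕ) : ℝ) + 1 := by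
      rw [← div_eq_mul_inv, div_le_iff₀ hq0]
      have : M < q * (M / q + 1) := Nat.lt_mul_div_succ M hq.pos
      have h3 : (M : ℝ) ≤ (q : ℝ) * (((M / q : ℕ) : ℝ) + 1) := by exact_mod_cast this.le
      linarith
    have hd : |((M / q : ℕ) : ℝ) * X - M * (q : ℝ)⁻¹ * X| ≤ 1 := by
      rw [← sub_mul, abs_mul, abs_of_nonneg hX0]
      have : |((M / q : ℕ) : ℝ) - M * (q : ℝ)⁻¹| ≤ 1 := by
        rw [abs_le]
        constructor <;> linarith
      calc |((M / q : ℕ) : ℝ) - M * (q : ℝ)⁻¹| * X ≤ 1 * 1 := by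
            apply mul_le_mul this hX1 hX0 zero_le_one
        _ = 1 := one_mul 1
    have hpow : (2 : ℝ) ^ (P.card + 1) = 2 * 2 ^ P.card := pow_succ' 2 _
    rw [hpow]
    rw [abs_le] at h1 h2 hd ⊢
    constructor <;> nlinarith [h1.1, h1.2, h2.1, h2.2, hd.1, hd.2]

theorem cop_card_ge (m M : ℕ) (hm : 1 ≤ m) :
    (M : ℝ) * m.totient / m - 2 ^ (m.primeFactors.card) ≤ ((cop m M).card : ℝ) := by
  have hm0 : (m : ℝ) ≠ 0 := by
    have : 0 < m := hm
    exact_mod_cast this.ne'
  have heq : cop m M = tcopF m.primeFactors M := by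
    ext x
    rw [mem_cop]
    simp only [tcopF, mem_filter, mem_Icc]
    rw [and_assoc]
    refine and_congr_right fun h1 => and_congr_right fun _ => ?_
    constructor
    · intro hc p hp hd
      have hpp := Nat.prime_of_mem_primeFactors hp
      have hpm := Nat.dvd_of_mem_primeFactors hp
      have := Nat.dvd_gcd hd hpm
      rw [hc] at this
      exact hpp.one_lt.ne' (Nat.dvd_one.mp this)
    · intro h
      rw [Nat.coprime_iff_gcd_eq_one]
      by_contra hg
      obtain ⟨p, hp, hpd⟩ := Nat.exists_prime_and_dvd hg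
      have hpx := hpd.trans (Nat.gcd_dvd_left x m)
      have hpm := hpd.trans (Nat.gcd_dvd_right x m)
      exact h p (Nat.mem_primeFactors.mpr ⟨hp, hpm, by omega⟩) hpx
  have htot : (m.totient : ℝ) = m * ∏ p ∈ m.primeFactors, (1 - (p : ℝ)⁻¹) := by
    have h := Nat.totient_eq_mul_prod_factors m
    have h2 : ((m.totient : ℚ) : ℝ) = ((m * ∏ p ∈ m.primeFactors, (1 - (p : ℚ)⁻¹) : ℚ) : ℝ) := by
      rw [h]
    push_cast at h2
    exact h2
  have hest := tcop_est m.primeFactors (fun p hp => Nat.prime_of_mem_primeFactors hp) M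
  rw [heq, htot]
  have h3 : (M : ℝ) * (m * ∏ p ∈ m.primeFactors, (1 - (p : ℝ)⁻¹)) / m
      = M * ∏ p ∈ m.primeFactors, (1 - (p : ℝ)⁻¹) := by
    field_simp
  rw [h3]
  have := (abs_le.mp hest).1
  linarith

end Pool.Agent.H78.PG
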