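import Pool.Agent.H78.PG.TPV

/-!
# LQ / PG, TQO: quasi-orthogonality on short intervals

`pv_cop`: characters vanish at numbers not prime to `m`, so `∑ x ∈ cop m M = ∑ x ∈ Icc 1 M`.
`quasi`: expand `‖∑ d_χ χ(x)‖²`; the diagonal gives `#cop * ∑ ‖d_χ‖²`; off the diagonal
`|∑_x χ(x) conj(χ'(x))| ≤ KK m` (`pv` for `χ * χ'⁻¹ ≠ 1`), and `(∑ ‖d_χ‖)² ≤ #X ∑ ‖d_χ‖²`.
-/

set_option autoImplicit false

namespace Pool.Agent.H78.PG

open Finset
open Pool.Agent.H34PG (lam lam_val lam_mul lam_prime)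
open Pool.Agent.H11.LQ

theorem pv_cop (m : ℕ) [NeZero m] (χ : DirichletCharacter ℂ m) (hχ : χ ≠ 1) (M : ℕ) :
    ‖∑ x ∈ cop m M, χ (x : ZMod m)‖ ≤ KK m := by
  have h : ∑ x ∈ cop m M, χ (x : ZMod m) = ∑ x ∈ Icc 1 M, χ (x : ZMod m) := by
    unfold cop
    rw [Finset.sum_filter_of_ne]
    intro x _ hx
    by_contra hc
    apply hx
    apply χ.map_nonunit
    intro hu
    exact hc ((ZMod.isUnit_iff_coprime x m).1 hu)
  rw [h]
  exact pv m χ hχ M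

theorem tqo_KK_nonneg (m : ℕ) [NeZero m] : 0 ≤ KK m := by
  unfold KK
  have h1 : (1 : ℝ) ≤ m := by exact_mod_cast Nat.one_le_iff_ne_zero.2 (NeZero.ne m)
  have h2 : 0 ≤ Real.log m := Real.log_nonneg h1
  positivity

theorem tqo_corr (m : ℕ) [NeZero m] (χ χ' : DirichletCharacter ℂ m) (M : ℕ) :
    ‖(∑ x ∈ cop m M, χ (x : ZMod m) * (starRingEnd ℂ) (χ' (x : ZMod m)))
      - (if χ = χ' then (((cop m M).card : ℕ) : ℂ) else 0)‖ ≤ KK m := by
  have hconj : ∀ x ∈ cop m M, (starRingEnd ℂ) (χ' (x : ZMod m)) = χ'⁻¹ (x : ZMod m) := by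
    intro x _
    have := MulChar.star_apply' χ' (x : ZMod m)
    simpa using this
  by_cases h : χ = χ'
  · subst h
    have h1 : (∑ x ∈ cop m M, χ (x : ZMod m) * (starRingEnd ℂ) (χ (x : ZMod m)))
        = (((cop m M).card : ℕ) : ℂ) := by
      rw [Finset.card_eq_sum_ones, Nat.cast_sum]
      apply Finset.sum_congr rfl
      intro x hx
      rw [hconj x hx, ← MulChar.mul_apply, mul_inv_cancel]
      have hu : IsUnit (x : ZMod m) := (ZMod.isUnit_iff_coprime x m).2 (mem_cop.1 hx).2.2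
      rw [MulChar.one_apply hu]
      simp
    rw [h1, if_pos rfl, sub_self, norm_zero]
    exact tqo_KK_nonneg m
  · rw [if_neg h, sub_zero]
    have h1 : (∑ x ∈ cop m M, χ (x : ZMod m) * (starRingEnd ℂ) (χ' (x : ZMod m)))
        = ∑ x ∈ cop m M, (χ * χ'⁻¹) (x : ZMod m) := by
      apply Finset.sum_congr rfl
      intro x hx
      rw [hconj x hx, MulChar.mul_apply]
    rw [h1]
    apply pv_cop
    intro hc
    exact h (mul_inv_eq_one.1 hc)

theorem tqo_expand (m : ℕ) [NeZero m] (X : Finset (DirichletCharacter ℂ m))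
    (d : DirichletCharacter ℂ m → ℂ) (M : ℕ) :
    (((∑ x ∈ cop m M, ‖∑ χ ∈ X, d χ * χ (x : ZMod m)‖ ^ 2
        - ((cop m M).card : ℝ) * ∑ χ ∈ X, ‖d χ‖ ^ 2 : ℝ)) : ℂ)
      = ∑ χ ∈ X, ∑ χ' ∈ X, d χ * (starRingEnd ℂ) (d χ') *
        ((∑ x ∈ cop m M, χ (x : ZMod m) * (starRingEnd ℂ) (χ' (x : ZMod m)))
          - (if χ = χ' then (((cop m M).card : ℕ) : ℂ) else 0)) := by
  classical
  have h1 : ((∑ x ∈ cop m M, ‖∑ χ ∈ X, d χ * χ (x : ZMod m)‖ ^ 2 : ℝ) : ℂ)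
      = ∑ χ ∈ X, ∑ χ' ∈ X, d χ * (starRingEnd ℂ) (d χ') *
        (∑ x ∈ cop m M, χ (x : ZMod m) * (starRingEnd ℂ) (χ' (x : ZMod m))) := by
    push_cast
    have : ∀ x ∈ cop m M, ((‖∑ χ ∈ X, d χ * χ (x : ZMod m)‖ : ℝ) : ℂ) ^ 2
        = ∑ χ ∈ X, ∑ χ' ∈ X, d χ * (starRingEnd ℂ) (d χ') *
          (χ (x : ZMod m) * (starRingEnd ℂ) (χ' (x : ZMod m))) := by
      intro x _
      rw [← Complex.mul_conj', map_sum, Finset.sum_mul_sum]
      apply Finset.sum_congr rfl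
      intro χ _
      apply Finset.sum_congr rfl
      intro χ' _
      rw [map_mul]
      ring
    rw [Finset.sum_congr rfl this, Finset.sum_comm]
    apply Finset.sum_congr rfl
    intro χ _
    rw [Finset.sum_comm]
    apply Finset.sum_congr rfl
    intro χ' _
    rw [Finset.mul_sum]
  have h2 : ((((cop m M).card : ℝ) * ∑ χ ∈ X, ‖d χ‖ ^ 2 : ℝ) : ℂ)
      = ∑ χ ∈ X, ∑ χ' ∈ X, d χ * (starRingEnd ℂ) (d χ') *
        (if χ = χ' then (((cop m M).card : ℕ) : ℂ) else 0) := by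
    push_cast
    rw [Finset.mul_sum]
    apply Finset.sum_congr rfl
    intro χ hχ
    have : ∀ χ' ∈ X, d χ * (starRingEnd ℂ) (d χ') *
        (if χ = χ' then (((cop m M).card : ℕ) : ℂ) else 0)
        = if χ = χ' then (((cop m M).card : ℕ) : ℂ) * ((‖d χ‖ : ℝ) : ℂ) ^ 2 else 0 := by
      intro χ' _
      by_cases h : χ = χ'
      · subst h
        rw [if_pos rfl, if_pos rfl, ← Complex.mul_conj']
        ring
      · rw [if_neg h, if_neg h, mul_zero]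
    rw [Finset.sum_congr rfl this, Finset.sum_ite_eq, if_pos hχ]
  rw [Complex.ofReal_sub, h1, h2, ← Finset.sum_sub_distrib]
  apply Finset.sum_congr rfl
  intro χ _
  rw [← Finset.sum_sub_distrib]
  apply Finset.sum_congr rfl
  intro χ' _
  rw [mul_sub]

theorem quasi (m : ℕ) [NeZero m] (X : Finset (DirichletCharacter ℂ m))
    (d : DirichletCharacter ℂ m → ℂ) (M : ℕ) :
    (((cop m M).card : ℝ) - X.card * KK m) * ∑ χ ∈ X, ‖d χ‖ ^ 2
      ≤ ∑ x ∈ cop m M, ‖∑ χ ∈ X, d χ * χ (x : ZMod m)‖ ^ 2 := by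
  have h := tqo_expand m X d M
  have hK := tqo_KK_nonneg m
  set S : ℝ := ∑ x ∈ cop m M, ‖∑ χ ∈ X, d χ * χ (x : ZMod m)‖ ^ 2 with hS
  set Q : ℝ := ∑ χ ∈ X, ‖d χ‖ ^ 2 with hQ
  have h1 : |S - ((cop m M).card : ℝ) * Q| ≤ KK m * (∑ χ ∈ X, ‖d χ‖) ^ 2 := by
    have h2 : |S - ((cop m M).card : ℝ) * Q| = ‖(((S - ((cop m M).card : ℝ) * Q : ℝ)) : ℂ)‖ := by
      rw [Complex.norm_real, Real.norm_eq_abs]
    rw [h2, h, sq, Finset.sum_mul_sum, Finset.mul_sum]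
    refine (norm_sum_le _ _).trans (Finset.sum_le_sum fun χ _ => ?_)
    rw [Finset.mul_sum]
    refine (norm_sum_le _ _).trans (Finset.sum_le_sum fun χ' _ => ?_)
    rw [norm_mul, norm_mul, RCLike.norm_conj, mul_comm (KK m)]
    exact mul_le_mul_of_nonneg_left (tqo_corr m χ χ' M) (by positivity)
  have h3 : (∑ χ ∈ X, ‖d χ‖) ^ 2 ≤ X.card * Q := by
    have := sq_sum_le_card_mul_sum_sq (s := X) (f := fun χ => ‖d χ‖)
    exact this
  have h4 : KK m * (∑ χ ∈ X, ‖d χ‖) ^ 2 ≤ KK m * (X.card * Q) :=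
    mul_le_mul_of_nonneg_left h3 hK
  have h5 := (abs_le.1 h1).1
  nlinarith [h4, h5]

end Pool.Agent.H78.PG
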