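import Pool.Agent.H78.PG.TDefs
import Pool.Agent.H92.EH3.DivBound

/-!
# LQ / PG, TGrow: growth lemmas

`grow`: `isLittleO_log_rpow_atTop` (`log x = o(x^(θ/(2k+2)))`), `(1 + log m)^k = o(m^θ)`.
`div_le`: `Pool.Agent.H92.EH.div_bound` with `θ/2` (`C m^(θ/2) ≤ m^θ`, `C` constant: `grow C 0`).
`two_pow_le`: `2^ω(m) ≤ d(m)` (`Nat.card_divisors`, every factor `e + 1 ≥ 2`).
`tot_le`: `m/φ(m) = ∏ (1 - 1/p)⁻¹ ≤ 2^ω(m)` (`Nat.totient_eq_mul_prod_factors`).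
`prod_le`: `(1 - p^(-1/2))⁻¹ ≤ 4 = 2^2` for `p ≥ 2` (`2^(-1/2) ≤ 0.7072 ≤ 3/4`), so the product is `≤ (2^ω)^2`.
`KK_le`: `KK m = √m d(m) (1 + log m)`, from `div_le` and `grow` with `θ/2`.
-/

set_option autoImplicit false

namespace Pool.Agent.H78.PG

open Finset
open Pool.Agent.H34PG (lam lam_val lam_mul lam_prime)
open Pool.Agent.H11.LQ

theorem grow (A : ℝ) (k : ℕ) (θ : ℝ) (hθ : 0 < θ) :
    ∃ m0 : ℕ, ∀ m : ℕ, m0 ≤ m → A * (1 + Real.log m) ^ k ≤ (m : ℝ) ^ θ := by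
  have h1 : (fun x : ℝ => Real.log x) =o[Filter.atTop] (fun x : ℝ => x ^ (θ / (k + 1))) :=
    isLittleO_log_rpow_atTop (by positivity)
  have hA : 0 < 1 / (2 * (|A| + 1)) := by positivity
  have h2 := h1.bound hA
  rw [Filter.eventually_atTop] at h2
  obtain ⟨x0, hx0⟩ := h2
  have h3 : Filter.Tendsto (fun x : ℝ => x ^ (θ / (k + 1))) Filter.atTop Filter.atTop :=
    tendsto_rpow_atTop (by positivity)
  have h4 := h3.eventually (Filter.eventually_ge_atTop (2 * (|A| + 1)))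
  rw [Filter.eventually_atTop] at h4
  obtain ⟨x1, hx1⟩ := h4
  refine ⟨max 1 (max ⌈x0⌉₊ ⌈x1⌉₊), fun m hm => ?_⟩
  simp only [max_le_iff] at hm
  obtain ⟨hm1, hm2, hm3⟩ := hm
  have hmR : (1 : ℝ) ≤ m := by exact_mod_cast hm1
  have hm0 : (0 : ℝ) < m := by linarith
  have e0 : x0 ≤ m := (Nat.le_ceil x0).trans (by exact_mod_cast hm2)
  have e1 : x1 ≤ m := (Nat.le_ceil x1).trans (by exact_mod_cast hm3)
  have h5 := hx0 m e0
  have h6 := hx1 m e1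
  have hlog : 0 ≤ Real.log m := Real.log_nonneg hmR
  set y : ℝ := (m : ℝ) ^ (θ / (k + 1)) with hy
  have hy0 : 0 < y := Real.rpow_pos_of_pos hm0 _
  rw [Real.norm_of_nonneg hlog, Real.norm_of_nonneg hy0.le] at h5
  have hA1 : (1 : ℝ) ≤ |A| + 1 := by linarith [abs_nonneg A]
  have h7 : 1 + Real.log m ≤ y := by
    have h8 : (1 : ℝ) ≤ y / 2 := by linarith
    have h9 : 1 / (2 * (|A| + 1)) * y ≤ y / 2 := by
      have : 1 / (2 * (|A| + 1)) ≤ 1 / 2 := by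
        apply one_div_le_one_div_of_le (by norm_num)
        linarith
      nlinarith
    linarith
  have h8 : (1 + Real.log m) ^ k ≤ y ^ k := pow_le_pow_left₀ (by linarith) h7 k
  have h9 : A ≤ y := by
    have := le_abs_self A
    linarith
  have h10 : y * y ^ k = (m : ℝ) ^ θ := by
    rw [← pow_succ', hy, ← Real.rpow_natCast, ← Real.rpow_mul hm0.le]
    congr 1
    push_cast
    field_simp
  calc A * (1 + Real.log m) ^ k ≤ y * (1 + Real.log m) ^ k :=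
        mul_le_mul_of_nonneg_right h9 (by positivity)
    _ ≤ y * y ^ k := mul_le_mul_of_nonneg_left h8 hy0.le
    _ = (m : ℝ) ^ θ := h10

/-- the divisor bound for all numbers up to `m` -/
theorem div_le' (θ : ℝ) (hθ : 0 < θ) :
    ∃ m0 : ℕ, ∀ m : ℕ, m0 ≤ m → ∀ y : ℕ, 1 ≤ y → y ≤ m →
      (y.divisors.card : ℝ) ≤ (m : ℝ) ^ θ := by
  obtain ⟨C, hC1, hC⟩ := Pool.Agent.H92.EH.div_bound (θ / 2) (by positivity)
  obtain ⟨m0, hm0⟩ := grow C 0 (θ / 2) (by positivity)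
  refine ⟨max m0 1, fun m hm y hy1 hym => ?_⟩
  have hm1 : (1 : ℝ) ≤ m := by exact_mod_cast (le_max_right _ _).trans hm
  have h1 := hm0 m ((le_max_left _ _).trans hm)
  rw [pow_zero, mul_one] at h1
  have h2 := hC y hy1
  have h3 : (y : ℝ) ^ (θ / 2) ≤ (m : ℝ) ^ (θ / 2) :=
    Real.rpow_le_rpow (Nat.cast_nonneg _) (by exact_mod_cast hym) (by positivity)
  have h4 : (m : ℝ) ^ (θ / 2) * (m : ℝ) ^ (θ / 2) = (m : ℝ) ^ θ := by
    rw [← Real.rpow_add (by linarith)]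
    congr 1
    ring
  calc (y.divisors.card : ℝ) ≤ C * (y : ℝ) ^ (θ / 2) := h2
    _ ≤ (m : ℝ) ^ (θ / 2) * (m : ℝ) ^ (θ / 2) :=
      mul_le_mul h1 h3 (Real.rpow_nonneg (Nat.cast_nonneg _) _)
        (Real.rpow_nonneg (by linarith) _)
    _ = (m : ℝ) ^ θ := h4

theorem div_le (θ : ℝ) (hθ : 0 < θ) :
    ∃ m0 : ℕ, ∀ m : ℕ, m0 ≤ m → (m.divisors.card : ℝ) ≤ (m : ℝ) ^ θ := by
  obtain ⟨m0, hm0⟩ := div_le' θ hθ
  refine ⟨max m0 1, fun m hm => ?_⟩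
  exact hm0 m ((le_max_left _ _).trans hm) m ((le_max_right _ _).trans hm) le_rfl

theorem tgrow_two_pow (m : ℕ) (hm : 1 ≤ m) : 2 ^ m.primeFactors.card ≤ m.divisors.card := by
  rw [Nat.card_divisors (by omega)]
  rw [← Finset.prod_const]
  refine Finset.prod_le_prod' (fun p hp => ?_)
  have : 0 < m.factorization p :=
    (Nat.prime_of_mem_primeFactors hp).factorization_pos_of_dvd (by omega)
      (Nat.dvd_of_mem_primeFactors hp)
  omega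

theorem two_pow_le (θ : ℝ) (hθ : 0 < θ) :
    ∃ m0 : ℕ, ∀ m : ℕ, m0 ≤ m → (2 : ℝ) ^ (m.primeFactors.card) ≤ (m : ℝ) ^ θ := by
  obtain ⟨m0, hm0⟩ := div_le θ hθ
  refine ⟨max m0 1, fun m hm => ?_⟩
  refine le_trans ?_ (hm0 m ((le_max_left _ _).trans hm))
  exact_mod_cast tgrow_two_pow m ((le_max_right _ _).trans hm)

theorem tot_le (θ : ℝ) (hθ : 0 < θ) :
    ∃ m0 : ℕ, ∀ m : ℕ, m0 ≤ m → (m : ℝ) ≤ (m : ℝ) ^ θ * m.totient := by
  obtain ⟨m0, hm0⟩ := two_pow_le θ hθ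
  refine ⟨max m0 1, fun m hm => ?_⟩
  have h1 := hm0 m ((le_max_left _ _).trans hm)
  have h2 : ((m.totient : ℚ) : ℝ) = ((m * ∏ p ∈ m.primeFactors, (1 - (p : ℚ)⁻¹) : ℚ) : ℝ) := by
    rw [Nat.totient_eq_mul_prod_factors]
  push_cast at h2
  have h3 : (1 / 2 : ℝ) ^ m.primeFactors.card ≤ ∏ p ∈ m.primeFactors, (1 - (p : ℝ)⁻¹) := by
    rw [← Finset.prod_const]
    refine Finset.prod_le_prod (fun _ _ => by norm_num) (fun p hp => ?_)
    have hp2 : (2 : ℝ) ≤ p := by exact_mod_cast (Nat.prime_of_mem_primeFactors hp).two_le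
    have : (p : ℝ)⁻¹ ≤ 2⁻¹ := inv_anti₀ (by norm_num) hp2
    norm_num at this ⊢
    linarith
  have h4 : 1 ≤ (2 : ℝ) ^ m.primeFactors.card * ∏ p ∈ m.primeFactors, (1 - (p : ℝ)⁻¹) := by
    have h5 : (2 : ℝ) ^ m.primeFactors.card * (1 / 2 : ℝ) ^ m.primeFactors.card = 1 := by
      rw [← mul_pow]
      norm_num
    calc (1 : ℝ) = (2 : ℝ) ^ m.primeFactors.card * (1 / 2 : ℝ) ^ m.primeFactors.card := h5.symm
      _ ≤ _ := mul_le_mul_of_nonneg_left h3 (by positivity)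
  have hm0' : (0 : ℝ) ≤ m := Nat.cast_nonneg _
  have h6 : 0 ≤ ∏ p ∈ m.primeFactors, (1 - (p : ℝ)⁻¹) :=
    le_trans (by positivity) h3
  calc (m : ℝ) = m * 1 := by ring
    _ ≤ m * ((2 : ℝ) ^ m.primeFactors.card * ∏ p ∈ m.primeFactors, (1 - (p : ℝ)⁻¹)) :=
      mul_le_mul_of_nonneg_left h4 hm0'
    _ = (2 : ℝ) ^ m.primeFactors.card * (m * ∏ p ∈ m.primeFactors, (1 - (p : ℝ)⁻¹)) := by ring
    _ ≤ (m : ℝ) ^ θ * (m * ∏ p ∈ m.primeFactors, (1 - (p : ℝ)⁻¹)) :=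
      mul_le_mul_of_nonneg_right h1 (mul_nonneg hm0' h6)
    _ = (m : ℝ) ^ θ * m.totient := by rw [h2]

theorem prod_le (θ : ℝ) (hθ : 0 < θ) :
    ∃ m0 : ℕ, ∀ m : ℕ, m0 ≤ m →
      ∏ p ∈ m.primeFactors, (1 - (p : ℝ) ^ (-(1 / 2 : ℝ)))⁻¹ ≤ (m : ℝ) ^ θ := by
  obtain ⟨m0, hm0⟩ := two_pow_le (θ / 2) (by positivity)
  refine ⟨max m0 1, fun m hm => ?_⟩
  have hm1 : (1 : ℝ) ≤ m := by exact_mod_cast (le_max_right _ _).trans hm
  have h1 := hm0 m ((le_max_left _ _).trans hm)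
  have h2 : ∏ p ∈ m.primeFactors, (1 - (p : ℝ) ^ (-(1 / 2 : ℝ)))⁻¹
      ≤ (4 : ℝ) ^ m.primeFactors.card := by
    rw [← Finset.prod_const]
    have hfac : ∀ p ∈ m.primeFactors, (1 / 4 : ℝ) ≤ 1 - (p : ℝ) ^ (-(1 / 2 : ℝ)) := by
      intro p hp
      have hp2 : (2 : ℝ) ≤ p := by exact_mod_cast (Nat.prime_of_mem_primeFactors hp).two_le
      have h3 : (p : ℝ) ^ (-(1 / 2 : ℝ)) ≤ (2 : ℝ) ^ (-(1 / 2 : ℝ)) :=
        Real.rpow_le_rpow_of_nonpos (by norm_num) hp2 (by norm_num)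
      have h4 : (2 : ℝ) ^ (-(1 / 2 : ℝ)) ≤ 3 / 4 := by
        rw [Real.rpow_neg (by norm_num), ← Real.sqrt_eq_rpow]
        rw [inv_le_comm₀ (by positivity) (by norm_num)]
        apply Real.le_sqrt_of_sq_le
        norm_num
      linarith
    refine Finset.prod_le_prod (fun p hp => ?_) (fun p hp => ?_)
    · have := hfac p hp
      exact inv_nonneg.2 (by linarith)
    · have h5 := hfac p hp
      rw [inv_le_comm₀ (by linarith) (by norm_num)]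
      linarith
  refine h2.trans ?_
  have h3 : (4 : ℝ) ^ m.primeFactors.card
      = (2 : ℝ) ^ m.primeFactors.card * (2 : ℝ) ^ m.primeFactors.card := by
    rw [← mul_pow]
    norm_num
  have h4 : (m : ℝ) ^ (θ / 2) * (m : ℝ) ^ (θ / 2) = (m : ℝ) ^ θ := by
    rw [← Real.rpow_add (by linarith)]
    congr 1
    ring
  rw [h3, ← h4]
  exact mul_le_mul h1 h1 (by positivity) (Real.rpow_nonneg (by linarith) _)

theorem KK_le (θ : ℝ) (hθ : 0 < θ) :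
    ∃ m0 : ℕ, ∀ m : ℕ, m0 ≤ m → KK m ≤ (m : ℝ) ^ (1 / 2 + θ) := by
  obtain ⟨m1, H1⟩ := div_le (θ / 2) (by positivity)
  obtain ⟨m2, H2⟩ := grow 1 1 (θ / 2) (by positivity)
  refine ⟨max m1 (max m2 1), fun m hm => ?_⟩
  simp only [max_le_iff] at hm
  obtain ⟨hm1, hm2, hm3⟩ := hm
  have hmR : (1 : ℝ) ≤ m := by exact_mod_cast hm3
  have h1 := H1 m hm1
  have h2 := H2 m hm2
  rw [pow_one, one_mul] at h2
  have hlog : 0 ≤ Real.log m := Real.log_nonneg hmR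
  have h4 : (m : ℝ) ^ (1 / 2 : ℝ) * (m : ℝ) ^ (θ / 2) * (m : ℝ) ^ (θ / 2)
      = (m : ℝ) ^ (1 / 2 + θ) := by
    rw [← Real.rpow_add (by linarith), ← Real.rpow_add (by linarith)]
    congr 1
    ring
  unfold KK
  rw [← h4, Real.sqrt_eq_rpow]
  have h5 : 0 ≤ (m : ℝ) ^ (1 / 2 : ℝ) := Real.rpow_nonneg (by linarith) _
  have h6 : 0 ≤ (m : ℝ) ^ (θ / 2) := Real.rpow_nonneg (by linarith) _
  refine mul_le_mul (mul_le_mul_of_nonneg_left h1 h5) h2 (by linarith) (mul_nonneg h5 h6)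

end Pool.Agent.H78.PG
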