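import Pool.Agent.H78.PG.TSplit
import Pool.Agent.H78.PG.TQO

/-!
# LQ / PG, TDec: the completely multiplicative extension of a character with value `1` at `p | m`

`g n = ψ (part of n prime to m)`, for instance `g n = ∏ p ∈ n.primeFactors, (if p ∣ m then 1 else ψ p)^(v_p n)`
(`Nat.factorization` is additive), `g 0 = 0`.  For `d` with all prime factors dividing `m` and `y` prime to `m`:
`g (d y) = ψ y`.  By `split`: `∑_{n ≤ M} g n = ∑_{d ∈ sm m M} ∑_{y ∈ cop m (M/d)} ψ y`, the inner sum is at most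
`min (M/d) (KK m) ≤ √(M (KK m)/d)` (`pv_cop` and the trivial bound), and `sm_sum`.
-/

set_option autoImplicit false

namespace Pool.Agent.H78.PG

open Finset
open Pool.Agent.H34PG (lam lam_val lam_mul lam_prime)
open Pool.Agent.H11.LQ

/-- the completely multiplicative extension of `ψ` with value `1` at the primes dividing `m` -/
noncomputable def tdec_g (m : ℕ) (ψ : DirichletCharacter ℂ m) (n : ℕ) : ℂ :=
  if n = 0 then 0 else n.factorization.prod (fun p k => (if p ∣ m then 1 else ψ (p : ZMod m)) ^ k)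

theorem tdec_mul (m : ℕ) (ψ : DirichletCharacter ℂ m) (a b : ℕ) (ha : 1 ≤ a) (hb : 1 ≤ b) :
    tdec_g m ψ (a * b) = tdec_g m ψ a * tdec_g m ψ b := by
  have ha' : a ≠ 0 := by omega
  have hb' : b ≠ 0 := by omega
  unfold tdec_g
  rw [if_neg ha', if_neg hb', if_neg (mul_ne_zero ha' hb'), Nat.factorization_mul ha' hb']
  exact Finsupp.prod_add_index' (fun p => pow_zero _) (fun p k l => pow_add _ _ _)

theorem tdec_one (m : ℕ) (ψ : DirichletCharacter ℂ m) : tdec_g m ψ 1 = 1 := by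
  unfold tdec_g
  simp

theorem tdec_prime (m : ℕ) (ψ : DirichletCharacter ℂ m) {p : ℕ} (hp : p.Prime) :
    tdec_g m ψ p = if p ∣ m then 1 else ψ (p : ZMod m) := by
  unfold tdec_g
  rw [if_neg hp.ne_zero, hp.factorization]
  rw [Finsupp.prod_single_index (h := fun p k => (if p ∣ m then (1 : ℂ) else ψ (p : ZMod m)) ^ k)
    (pow_zero _), pow_one]

theorem tdec_norm (m : ℕ) (ψ : DirichletCharacter ℂ m) (n : ℕ) : ‖tdec_g m ψ n‖ ≤ 1 := by
  unfold tdec_g
  split_ifs with h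
  · simp
  · rw [Finsupp.prod, norm_prod]
    apply Finset.prod_le_one (fun _ _ => norm_nonneg _)
    intro p _
    rw [norm_pow]
    apply pow_le_one₀ (norm_nonneg _)
    split_ifs
    · simp
    · exact DirichletCharacter.norm_le_one ψ _

theorem tdec_cop (m : ℕ) (ψ : DirichletCharacter ℂ m) (y : ℕ) (hy : 1 ≤ y) (h : y.Coprime m) :
    tdec_g m ψ y = ψ (y : ZMod m) := by
  induction y using Nat.recOnMul with
  | zero => omega
  | one => rw [tdec_one]; simp
  | prime p hp =>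
    rw [tdec_prime m ψ hp, if_neg]
    intro hpm
    have := Nat.Coprime.eq_one_of_dvd h hpm
    exact hp.one_lt.ne' this
  | mul a b iha ihb =>
    have ha : 1 ≤ a := Nat.one_le_iff_ne_zero.2 (by rintro rfl; omega)
    have hb : 1 ≤ b := Nat.one_le_iff_ne_zero.2 (by rintro rfl; omega)
    have hca : a.Coprime m := Nat.Coprime.coprime_mul_right h
    have hcb : b.Coprime m := Nat.Coprime.coprime_mul_left h
    rw [tdec_mul m ψ a b ha hb, iha ha hca, ihb hb hcb]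
    push_cast
    rw [map_mul]

theorem tdec_sm (m : ℕ) (ψ : DirichletCharacter ℂ m) (d : ℕ) (hd : 1 ≤ d)
    (h : ∀ p : ℕ, p.Prime → p ∣ d → p ∣ m) : tdec_g m ψ d = 1 := by
  unfold tdec_g
  rw [if_neg (by omega), Finsupp.prod]
  apply Finset.prod_eq_one
  intro p hp
  rw [Nat.support_factorization] at hp
  rw [if_pos (h p (Nat.prime_of_mem_primeFactors hp) (Nat.dvd_of_mem_primeFactors hp)), one_pow]

theorem gext (m : ℕ) [NeZero m] (ψ : DirichletCharacter ℂ m) (hψ : ψ ≠ 1) :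
    ∃ g : ℕ → ℂ, g 1 = 1 ∧ (∀ a b : ℕ, 1 ≤ a → 1 ≤ b → g (a * b) = g a * g b) ∧
      (∀ n, ‖g n‖ ≤ 1) ∧ (∀ p : ℕ, p.Prime → ¬ p ∣ m → g p = ψ (p : ZMod m)) ∧
      (∀ p : ℕ, p.Prime → p ∣ m → g p = 1) ∧
      ∀ M : ℕ, ‖∑ n ∈ Icc 1 M, g n‖ ≤ Real.sqrt (M * KK m) *
        ∏ p ∈ m.primeFactors, (1 - (p : ℝ) ^ (-(1 / 2 : ℝ)))⁻¹ := by
  have hm : 1 ≤ m := Nat.one_le_iff_ne_zero.2 (NeZero.ne m)
  have hK0 : 0 ≤ KK m := by
    unfold KK
    have : 0 ≤ Real.log m := Real.log_nonneg (by exact_mod_cast hm)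
    positivity
  refine ⟨tdec_g m ψ, tdec_one m ψ, tdec_mul m ψ, tdec_norm m ψ, ?_, ?_, ?_⟩
  · intro p hp hpm
    rw [tdec_prime m ψ hp, if_neg hpm]
  · intro p hp hpm
    rw [tdec_prime m ψ hp, if_pos hpm]
  · intro M
    rw [split m M hm]
    have h1 : ∀ d ∈ sm m M, ‖∑ y ∈ cop m (M / d), tdec_g m ψ (d * y)‖
        ≤ Real.sqrt (M * KK m) * (d : ℝ) ^ (-(1 / 2 : ℝ)) := by
      intro d hd
      rw [mem_sm] at hd
      obtain ⟨⟨hd1, hd2⟩, hd3⟩ := hd
      have hdR : (1 : ℝ) ≤ d := by exact_mod_cast hd1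
      have hd0 : (0 : ℝ) < d := by linarith
      have h2 : ∑ y ∈ cop m (M / d), tdec_g m ψ (d * y) = ∑ y ∈ cop m (M / d), ψ (y : ZMod m) := by
        refine Finset.sum_congr rfl (fun y hy => ?_)
        rw [mem_cop] at hy
        rw [tdec_mul m ψ d y hd1 hy.1, tdec_sm m ψ d hd1 hd3, one_mul,
          tdec_cop m ψ y hy.1 hy.2.2]
      rw [h2]
      have h3 : ‖∑ y ∈ cop m (M / d), ψ (y : ZMod m)‖ ≤ KK m := pv_cop m ψ hψ (M / d)
      have h4 : ‖∑ y ∈ cop m (M / d), ψ (y : ZMod m)‖ ≤ (M : ℝ) / d := by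
        refine (norm_sum_le _ _).trans ?_
        have h5 : ∑ y ∈ cop m (M / d), ‖ψ (y : ZMod m)‖ ≤ ∑ y ∈ cop m (M / d), (1 : ℝ) :=
          Finset.sum_le_sum (fun y _ => DirichletCharacter.norm_le_one ψ _)
        refine h5.trans ?_
        rw [Finset.sum_const, nsmul_eq_mul, mul_one]
        have h6 : (cop m (M / d)).card ≤ M / d := by
          unfold cop
          refine (Finset.card_filter_le _ _).trans ?_
          simp
        calc ((cop m (M / d)).card : ℝ) ≤ ((M / d : ℕ) : ℝ) := by exact_mod_cast h6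
          _ ≤ (M : ℝ) / d := Nat.cast_div_le
      set z := ‖∑ y ∈ cop m (M / d), ψ (y : ZMod m)‖ with hz
      have hz0 : 0 ≤ z := norm_nonneg _
      have h7 : z ^ 2 ≤ (M : ℝ) / d * KK m := by
        rw [sq]
        exact mul_le_mul h4 h3 hz0 (by positivity)
      have h8 : Real.sqrt (M * KK m) * (d : ℝ) ^ (-(1 / 2 : ℝ)) = Real.sqrt ((M : ℝ) / d * KK m) := by
        rw [Real.rpow_neg hd0.le, ← Real.sqrt_eq_rpow, ← Real.sqrt_inv, ← Real.sqrt_mul (by positivity)]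
        congr 1
        ring
      rw [h8]
      exact Real.le_sqrt_of_sq_le h7
    calc ‖∑ d ∈ sm m M, ∑ y ∈ cop m (M / d), tdec_g m ψ (d * y)‖
        ≤ ∑ d ∈ sm m M, ‖∑ y ∈ cop m (M / d), tdec_g m ψ (d * y)‖ := norm_sum_le _ _
      _ ≤ ∑ d ∈ sm m M, Real.sqrt (M * KK m) * (d : ℝ) ^ (-(1 / 2 : ℝ)) :=
        Finset.sum_le_sum h1
      _ = Real.sqrt (M * KK m) * ∑ d ∈ sm m M, (d : ℝ) ^ (-(1 / 2 : ℝ)) := by
        rw [Finset.mul_sum]
      _ ≤ _ := mul_le_mul_of_nonneg_left (sm_sum m M hm) (Real.sqrt_nonneg _)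

end Pool.Agent.H78.PG
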