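import Pool.Agent.H78.PG.TGrow
import Pool.Agent.H36.IS.MtA

/-!
# LQ / PG, TMert: few primes between `m^(49/100)` and `m^(51/100)`

From `Pool.Agent.H36.IS.mertA` (`∑_{p ≤ n} -log(1 - 1/p) - log log n` converges): with `z = ⌊m^(51/100)⌋`,
`w = ⌊m^(49/100)⌋`: `∑_{w < p ≤ z} 1/p ≤ ∑_{w < p ≤ z} -log(1-1/p) = log(log z/log w) + o(1)`, and
`log z/log w → 51/49`, `log(51/49) ≤ 2/49 < 1/24`.
`harm`: `∑_{p ≤ y} 1/p ≤ ∑_{n ≤ y} 1/n ≤ 1 + log y`.
-/

set_option autoImplicit false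

namespace Pool.Agent.H78.PG

open Finset
open Pool.Agent.H34PG (lam lam_val lam_mul lam_prime)
open Pool.Agent.H11.LQ

theorem mert : ∃ m0 : ℕ, ∀ m : ℕ, m0 ≤ m →
    ∑ p ∈ (Icc 1 ⌊(m : ℝ) ^ (51 / 100 : ℝ)⌋₊).filter (fun p => p.Prime ∧ yy m < p),
      (1 : ℝ) / p ≤ 1 / 16 := by
  obtain ⟨c, hc⟩ := Pool.Agent.H36.IS.mertA
  obtain ⟨n0, hn0⟩ := Metric.tendsto_atTop.1 hc (1 / 100) (by norm_num)
  have hw : Filter.Tendsto (fun m : ℕ => ⌊(m : ℝ) ^ (49 / 100 : ℝ)⌋₊) Filter.atTop Filter.atTop :=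
    tendsto_nat_floor_atTop.comp
      ((tendsto_rpow_atTop (by norm_num : (0 : ℝ) < 49 / 100)).comp tendsto_natCast_atTop_atTop)
  have hlog : Filter.Tendsto (fun m : ℕ => Real.log (m : ℝ)) Filter.atTop Filter.atTop :=
    Real.tendsto_log_atTop.comp tendsto_natCast_atTop_atTop
  obtain ⟨m0, hm0⟩ := Filter.eventually_atTop.1
    ((hw.eventually_ge_atTop (max n0 2)).and (hlog.eventually_ge_atTop 2000))
  refine ⟨m0, fun m hm => ?_⟩
  obtain ⟨ha, hb⟩ := hm0 m hm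
  have hm1 : (1 : ℝ) ≤ m := by
    by_contra hlt
    rw [not_le] at hlt
    have : Real.log (m : ℝ) ≤ 0 := Real.log_nonpos (Nat.cast_nonneg m) hlt.le
    linarith
  have hyw : yy m = ⌊(m : ℝ) ^ (49 / 100 : ℝ)⌋₊ := rfl
  rw [← hyw] at ha
  have hwz : yy m ≤ ⌊(m : ℝ) ^ (51 / 100 : ℝ)⌋₊ :=
    Nat.floor_le_floor (Real.rpow_le_rpow_of_exponent_le hm1 (by norm_num))
  have hzle : ((⌊(m : ℝ) ^ (51 / 100 : ℝ)⌋₊ : ℕ) : ℝ) ≤ (m : ℝ) ^ (51 / 100 : ℝ) :=
    Nat.floor_le (Real.rpow_nonneg (Nat.cast_nonneg m) _)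
  have hwge : (m : ℝ) ^ (49 / 100 : ℝ) < (yy m : ℝ) + 1 := Nat.lt_floor_add_one _
  generalize ⌊(m : ℝ) ^ (51 / 100 : ℝ)⌋₊ = z at *
  generalize yy m = w at *
  have hw2 : 2 ≤ w := (le_max_right _ _).trans ha
  have hwn : n0 ≤ w := (le_max_left _ _).trans ha
  have hw0 : (2 : ℝ) ≤ w := by exact_mod_cast hw2
  have hzw : (w : ℝ) ≤ z := by exact_mod_cast hwz
  have hm0' : (0 : ℝ) < m := by linarith
  have lz : Real.log z ≤ 51 / 100 * Real.log m := by
    rw [← Real.log_rpow hm0']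
    exact Real.log_le_log (by linarith) hzle
  have lw : 49 / 100 * Real.log m ≤ Real.log 2 + Real.log w := by
    rw [← Real.log_rpow hm0', ← Real.log_mul (by norm_num) (by linarith)]
    exact Real.log_le_log (Real.rpow_pos_of_pos hm0' _) (by linarith)
  have l2 := Real.log_two_lt_d9
  have hlw : 0 < Real.log w := by linarith
  have hlz : 0 < Real.log z := lt_of_lt_of_le hlw (Real.log_le_log (by linarith) hzw)
  have hll : Real.log (Real.log z) - Real.log (Real.log w) ≤ 1 / 24 := by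
    rw [← Real.log_div hlz.ne' hlw.ne']
    have h1 := Real.log_le_sub_one_of_pos (div_pos hlz hlw)
    have h2 : Real.log z / Real.log w ≤ 25 / 24 := by
      rw [div_le_iff₀ hlw]
      linarith
    linarith
  have hfz := hn0 z (hwn.trans hwz)
  have hfw := hn0 w hwn
  rw [Real.dist_eq, abs_lt] at hfz hfw
  have hsub : (range (w + 1)).filter Nat.Prime ⊆ (range (z + 1)).filter Nat.Prime := by
    intro p hp
    rw [mem_filter, mem_range] at hp ⊢
    exact ⟨by omega, hp.2⟩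
  have hdiff := sum_sdiff (f := fun p : ℕ => -Real.log (1 - 1 / (p : ℝ))) hsub
  have hle : ∑ p ∈ (Icc 1 z).filter (fun p => p.Prime ∧ w < p), (1 : ℝ) / p ≤
      ∑ p ∈ (range (z + 1)).filter Nat.Prime \ (range (w + 1)).filter Nat.Prime,
        -Real.log (1 - 1 / (p : ℝ)) := by
    have hset : (Icc 1 z).filter (fun p => p.Prime ∧ w < p) =
        (range (z + 1)).filter Nat.Prime \ (range (w + 1)).filter Nat.Prime := by
      ext p
      simp only [mem_filter, mem_Icc, mem_sdiff, mem_range]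
      constructor
      · rintro ⟨⟨h1, h2⟩, h3, h4⟩
        exact ⟨⟨by omega, h3⟩, fun h5 => by omega⟩
      · rintro ⟨⟨h1, h2⟩, h3⟩
        refine ⟨⟨h2.one_le, by omega⟩, h2, ?_⟩
        by_contra h4
        exact h3 ⟨by omega, h2⟩
    rw [hset]
    apply sum_le_sum
    intro p hp
    rw [mem_sdiff, mem_filter] at hp
    have hp2 : (2 : ℝ) ≤ p := by exact_mod_cast hp.1.2.two_le
    have h3 : (1 : ℝ) / p < 1 := by
      rw [div_lt_one (by linarith)]
      linarith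
    have h4 := Real.log_le_sub_one_of_pos (x := 1 - 1 / (p : ℝ)) (by linarith)
    linarith
  have hfS : ∀ n : ℕ, Pool.Agent.H36.IS.fS n =
      ∑ p ∈ (range (n + 1)).filter Nat.Prime, -Real.log (1 - 1 / (p : ℝ)) := fun n => rfl
  rw [hfS] at hfz hfw
  linarith [hfz.1, hfz.2, hfw.1, hfw.2]

theorem harm (m : ℕ) (hm : 1 ≤ m) : ∑ p ∈ PY m, (1 : ℝ) / p ≤ 1 + Real.log m := by
  have hm1 : (1 : ℝ) ≤ m := by exact_mod_cast hm
  have hy : yy m ≤ m := by
    unfold yy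
    calc ⌊(m : ℝ) ^ (49 / 100 : ℝ)⌋₊ ≤ ⌊(m : ℝ) ^ (1 : ℝ)⌋₊ :=
          Nat.floor_le_floor (Real.rpow_le_rpow_of_exponent_le hm1 (by norm_num))
      _ = m := by rw [Real.rpow_one, Nat.floor_natCast]
  have h1 : ∑ p ∈ PY m, (1 : ℝ) / p ≤ ∑ i ∈ Finset.range m, ((i : ℝ) + 1)⁻¹ := by
    have h2 : PY m ⊆ (Finset.range m).image (fun i : ℕ => i + 1) := by
      intro p hp
      rw [mem_PY] at hp
      rw [mem_image]
      have := hp.2.1.one_le
      exact ⟨p - 1, mem_range.2 (by omega), by omega⟩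
    calc ∑ p ∈ PY m, (1 : ℝ) / p
        ≤ ∑ p ∈ (Finset.range m).image (fun i : ℕ => i + 1), (1 : ℝ) / (p : ℝ) :=
          sum_le_sum_of_subset_of_nonneg h2 fun _ _ _ => by positivity
      _ = ∑ i ∈ Finset.range m, (1 : ℝ) / ((i + 1 : ℕ) : ℝ) := by
          rw [sum_image]
          intro a _ b _ h
          simpa using h
      _ = ∑ i ∈ Finset.range m, ((i : ℝ) + 1)⁻¹ := by
          apply sum_congr rfl
          intro i _
          rw [one_div, Nat.cast_add, Nat.cast_one]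
  have h3 := harmonic_le_one_add_log m
  unfold harmonic at h3
  push_cast at h3
  exact h1.trans h3

end Pool.Agent.H78.PG
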