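import Pool.Agent.H78.PG.TDefs

/-!
# LQ / PG, TPret: `∑_{n ≤ M} ‖1 - g(n)‖ ≤ 2 M ∑_{p ≤ M} ‖1 - g(p)‖/p` for completely multiplicative `g`

`‖1 - g(n)‖ ≤ ∑_p v_p(n) ‖1 - g(p)‖` (all `‖g‖ ≤ 1`; e.g. strong induction: `n = p n'`,
`1 - g(p) g(n') = (1 - g(p)) + g(p) (1 - g(n'))`), and for a prime `p`:
`∑_{n ≤ M} v_p(n) = ∑_{k ≥ 1} ⌊M/p^k⌋ ≤ M/(p-1) ≤ 2M/p` (Mathlib: `v_p(M!)`,
`Nat.Prime.sub_one_mul_padicValNat_factorial` / `sub_one_mul_padicValNat_factorial`: `(p-1) v_p(M!) = M - digit sum ≤ M`).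
`psum`: partial summation, `a n = A n - A (n-1)`, `∑_{n ≤ N} 1/n ≤ 1 + log N`.
-/

set_option autoImplicit false

namespace Pool.Agent.H78.PG

open Finset
open Pool.Agent.H34PG (lam lam_val lam_mul lam_prime)
open Pool.Agent.H11.LQ

/-- the completely additive function with the values `‖1 - g p‖` at primes -/
noncomputable def tpret_S (g : ℕ → ℂ) (n : ℕ) : ℝ :=
  n.factorization.sum (fun p k => (k : ℝ) * ‖1 - g p‖)

theorem tpret_S_mul (g : ℕ → ℂ) {a b : ℕ} (ha : a ≠ 0) (hb : b ≠ 0) :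
    tpret_S g (a * b) = tpret_S g a + tpret_S g b := by
  unfold tpret_S
  rw [Nat.factorization_mul ha hb]
  exact Finsupp.sum_add_index' (fun p => by simp) (fun p k l => by push_cast; ring)

theorem tpret_S_prime (g : ℕ → ℂ) {p : ℕ} (hp : p.Prime) : tpret_S g p = ‖1 - g p‖ := by
  unfold tpret_S
  rw [hp.factorization, Finsupp.sum_single_index (by simp)]
  simp

theorem tpret_le (g : ℕ → ℂ) (hg1 : g 1 = 1)
    (hmul : ∀ a b : ℕ, 1 ≤ a → 1 ≤ b → g (a * b) = g a * g b) (hb : ∀ n, ‖g n‖ ≤ 1) (n : ℕ)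
    (hn : 1 ≤ n) : ‖1 - g n‖ ≤ tpret_S g n := by
  induction n using Nat.recOnMul with
  | zero => omega
  | one => simp [tpret_S, hg1]
  | prime p hp => exact (tpret_S_prime g hp).ge
  | mul a b iha ihb =>
    rcases Nat.eq_zero_or_pos a with h | h
    · subst h; omega
    rcases Nat.eq_zero_or_pos b with h' | h'
    · subst h'; omega
    rw [hmul a b h h', tpret_S_mul g (by omega) (by omega)]
    have e : 1 - g a * g b = (1 - g a) + g a * (1 - g b) := by ring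
    rw [e]
    calc ‖(1 - g a) + g a * (1 - g b)‖ ≤ ‖1 - g a‖ + ‖g a * (1 - g b)‖ := norm_add_le _ _
      _ = ‖1 - g a‖ + ‖g a‖ * ‖1 - g b‖ := by rw [norm_mul]
      _ ≤ ‖1 - g a‖ + 1 * ‖1 - g b‖ := by
          have := mul_le_mul_of_nonneg_right (hb a) (norm_nonneg (1 - g b))
          linarith
      _ ≤ tpret_S g a + tpret_S g b := by rw [one_mul]; exact add_le_add (iha h) (ihb h')

theorem tpret_sum (g : ℕ → ℂ) (M : ℕ) :
    ∑ n ∈ Icc 1 M, tpret_S g n = tpret_S g M.factorial := by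
  induction M with
  | zero => simp [tpret_S]
  | succ M ih =>
    rw [sum_Icc_succ_top (by omega), ih, Nat.factorial_succ,
      tpret_S_mul g (by omega) (Nat.factorial_ne_zero M), add_comm]

theorem tpret_fac (g : ℕ → ℂ) (M : ℕ) :
    tpret_S g M.factorial ≤ 2 * M * ∑ p ∈ (Icc 1 M).filter Nat.Prime, ‖1 - g p‖ / p := by
  unfold tpret_S
  rw [Finsupp.sum, mul_sum]
  have hsub : (M.factorial).factorization.support ⊆ (Icc 1 M).filter Nat.Prime := by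
    intro p hp
    rw [Nat.support_factorization, Nat.mem_primeFactors] at hp
    rw [mem_filter, mem_Icc]
    exact ⟨⟨hp.1.one_lt.le, (hp.1.dvd_factorial).mp hp.2.1⟩, hp.1⟩
  refine (sum_le_sum ?_).trans (sum_le_sum_of_subset_of_nonneg hsub ?_)
  · intro p hp
    have hp' := (mem_filter.mp (hsub hp)).2
    have : Fact p.Prime := ⟨hp'⟩
    have h1 := sub_one_mul_padicValNat_factorial (p := p) M
    have h2 : (p - 1) * padicValNat p M.factorial ≤ M := by rw [h1]; exact Nat.sub_le _ _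
    have h3 : (M.factorial).factorization p = padicValNat p M.factorial :=
      Nat.factorization_def _ hp'
    rw [h3]
    have h4 : p * padicValNat p M.factorial ≤ 2 * M := by
      have h5 : p ≤ 2 * (p - 1) := by have := hp'.two_le; omega
      calc p * padicValNat p M.factorial ≤ 2 * (p - 1) * padicValNat p M.factorial :=
            Nat.mul_le_mul_right _ h5
        _ = 2 * ((p - 1) * padicValNat p M.factorial) := by ring
        _ ≤ 2 * M := Nat.mul_le_mul_left _ h2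
    have h6 : (p : ℝ) * (padicValNat p M.factorial : ℝ) ≤ 2 * M := by exact_mod_cast h4
    have h7 : (0 : ℝ) < p := by exact_mod_cast hp'.pos
    have h8 : (padicValNat p M.factorial : ℝ) ≤ 2 * M / p := by
      rw [le_div_iff₀ h7]; linarith
    calc (padicValNat p M.factorial : ℝ) * ‖1 - g p‖ ≤ 2 * M / p * ‖1 - g p‖ :=
          mul_le_mul_of_nonneg_right h8 (norm_nonneg _)
      _ = 2 * M * (‖1 - g p‖ / p) := by ring
  · intro p _ _
    positivity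

theorem pret (g : ℕ → ℂ) (hg1 : g 1 = 1)
    (hmul : ∀ a b : ℕ, 1 ≤ a → 1 ≤ b → g (a * b) = g a * g b) (hb : ∀ n, ‖g n‖ ≤ 1) (M : ℕ) :
    ∑ n ∈ Icc 1 M, ‖1 - g n‖ ≤ 2 * M * ∑ p ∈ (Icc 1 M).filter Nat.Prime, ‖1 - g p‖ / p := by
  calc ∑ n ∈ Icc 1 M, ‖1 - g n‖ ≤ ∑ n ∈ Icc 1 M, tpret_S g n :=
        sum_le_sum fun n hn => tpret_le g hg1 hmul hb n (mem_Icc.mp hn).1
    _ = tpret_S g M.factorial := tpret_sum g M
    _ ≤ _ := tpret_fac g M

theorem psum (a : ℕ → ℝ) (θ : ℝ) (hθ : 0 ≤ θ) (N : ℕ)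
    (h : ∀ M : ℕ, 1 ≤ M → M ≤ N → ∑ n ∈ Icc 1 M, a n ≤ θ * M) :
    ∑ n ∈ Icc 1 N, a n / n ≤ θ * (1 + Real.log N) := by
  rcases Nat.eq_zero_or_pos N with hN | hN
  · subst hN
    simpa using hθ
  have key : ∀ K : ℕ, K < N → ∑ n ∈ Icc 1 (K + 1), a n / n
      - (∑ n ∈ Icc 1 (K + 1), a n) / ((K + 1 : ℕ) : ℝ) ≤ θ * ((harmonic (K + 1) : ℝ) - 1) := by
    intro K
    induction K with
    | zero => intro _; simp
    | succ K ih =>
      intro hK
      have h1 := ih (by omega)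
      have h2 := h (K + 1) (by omega) (by omega)
      have e1 : ∑ n ∈ Icc 1 (K + 1 + 1), a n / n
          = ∑ n ∈ Icc 1 (K + 1), a n / n + a (K + 1 + 1) / ((K + 1 + 1 : ℕ) : ℝ) :=
        sum_Icc_succ_top (by omega) _
      have e2 : ∑ n ∈ Icc 1 (K + 1 + 1), a n = ∑ n ∈ Icc 1 (K + 1), a n + a (K + 1 + 1) :=
        sum_Icc_succ_top (by omega) _
      have e3 : ((harmonic (K + 1 + 1) : ℚ) : ℝ)
          = (harmonic (K + 1) : ℝ) + 1 / ((K + 1 + 1 : ℕ) : ℝ) := by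
        rw [harmonic_succ]; push_cast; ring
      rw [e1, e2, e3]
      set A : ℝ := ∑ n ∈ Icc 1 (K + 1), a n with hA
      have hk : (0 : ℝ) < ((K + 1 : ℕ) : ℝ) := by positivity
      have hk2 : (0 : ℝ) < ((K + 1 + 1 : ℕ) : ℝ) := by positivity
      have e4 : A / ((K + 1 : ℕ) : ℝ) - A / ((K + 1 + 1 : ℕ) : ℝ)
          ≤ θ * (1 / ((K + 1 + 1 : ℕ) : ℝ)) := by
        have e5 : A / ((K + 1 : ℕ) : ℝ) - A / ((K + 1 + 1 : ℕ) : ℝ)
            = A / (((K + 1 : ℕ) : ℝ) * ((K + 1 + 1 : ℕ) : ℝ)) := by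
          field_simp
          push_cast
          ring
        rw [e5, div_le_iff₀ (mul_pos hk hk2)]
        calc A ≤ θ * ((K + 1 : ℕ) : ℝ) := h2
          _ = θ * (1 / ((K + 1 + 1 : ℕ) : ℝ)) * (((K + 1 : ℕ) : ℝ) * ((K + 1 + 1 : ℕ) : ℝ)) := by
              field_simp
      have e6 : (A + a (K + 1 + 1)) / ((K + 1 + 1 : ℕ) : ℝ)
          = A / ((K + 1 + 1 : ℕ) : ℝ) + a (K + 1 + 1) / ((K + 1 + 1 : ℕ) : ℝ) := add_div _ _ _
      rw [e6]
      have e7 : θ * ((harmonic (K + 1) : ℝ) + 1 / ((K + 1 + 1 : ℕ) : ℝ) - 1)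
          = θ * ((harmonic (K + 1) : ℝ) - 1) + θ * (1 / ((K + 1 + 1 : ℕ) : ℝ)) := by ring
      rw [e7]
      linarith
  obtain ⟨K, rfl⟩ : ∃ K, N = K + 1 := ⟨N - 1, by omega⟩
  have h1 := key K (by omega)
  have h2 := h (K + 1) (by omega) le_rfl
  have hk : (0 : ℝ) < ((K + 1 : ℕ) : ℝ) := by positivity
  have h3 : (∑ n ∈ Icc 1 (K + 1), a n) / ((K + 1 : ℕ) : ℝ) ≤ θ := by
    rw [div_le_iff₀ hk]; exact h2
  have h4 : (harmonic (K + 1) : ℝ) ≤ 1 + Real.log ((K + 1 : ℕ) : ℝ) :=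
    harmonic_le_one_add_log (K + 1)
  have h5 := mul_le_mul_of_nonneg_left h4 hθ
  have e8 : θ * ((harmonic (K + 1) : ℝ) - 1) = θ * (harmonic (K + 1) : ℝ) - θ := by ring
  linarith

end Pool.Agent.H78.PG
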