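import Mathlib
import Pool.Agent.H11.LQ.Defs

/-!
# LQ / PG, analytic part: definitions (helper78)

`m` is the modulus; all characters are Dirichlet characters mod `m` with complex values.

* `FC m η` : the function `F m η` on `ZMod m`, complex valued;
* `cc m f χ` : the Fourier coefficient of `f` on the unit group;
* `rr δ = ⌈200/δ⌉`, `BB δ m = ⌊m^(1/rr)⌋`;
* `XX δ m` : the characters with `χ q` close to `-1` at all primes `q ≤ BB` not dividing `m`;
* `GG δ m η` : the part of the Fourier expansion with characters in `XX`;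
* `PB`, `SS δ m j` : primes `≤ BB` not dividing `m`, and products of `j` different ones;
* `yy m = ⌊m^(49/100)⌋`, `VV m χ = ∑ ‖1 + χ p‖² / p` over primes `p ≤ yy` not dividing `m`;
* `KK m = √m d(m) (1 + log m)` : the Polya-Vinogradov bound;
* `Hyp δ m η` : the hypothesis to be refuted for large `m`.
-/

set_option autoImplicit false

namespace Pool.Agent.H78.PG

open Finset
open Pool.Agent.H34PG (lam lam_val lam_mul lam_prime)
open Pool.Agent.H11.LQ

/-- the function `F m η` on `ZMod m`, with complex values -/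
noncomputable def FC (m : ℕ) (η : ℤ) (x : ZMod m) : ℂ := ((F m η x.val : ℤ) : ℂ)

/-- Fourier coefficients on the unit group -/
noncomputable def cc (m : ℕ) [NeZero m] (f : ZMod m → ℂ) (χ : DirichletCharacter ℂ m) : ℂ :=
  (1 / (m.totient : ℂ)) * ∑ u : (ZMod m)ˣ, f (u : ZMod m) * (starRingEnd ℂ) (χ (u : ZMod m))

/-- the number of prime factors of the longest auxiliary products -/
noncomputable def rr (δ : ℝ) : ℕ := ⌈200 / δ⌉₊

/-- the bound for the auxiliary primes -/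
noncomputable def BB (δ : ℝ) (m : ℕ) : ℕ := ⌊(m : ℝ) ^ (1 / (rr δ : ℝ))⌋₊

open Classical in
/-- the characters close to `-1` at all small primes -/
noncomputable def XX (δ : ℝ) (m : ℕ) [NeZero m] : Finset (DirichletCharacter ℂ m) :=
  univ.filter (fun χ => ∀ q : ℕ, q.Prime → q ≤ BB δ m → ¬ q ∣ m →
    ‖χ (q : ZMod m) + 1‖ ≤ (m : ℝ) ^ (-(δ / 4)))

/-- the main part of the expansion of `F` -/
noncomputable def GG (δ : ℝ) (m : ℕ) [NeZero m] (η : ℤ) (n : ℕ) : ℂ :=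
  ∑ χ ∈ XX δ m, cc m (FC m η) χ * χ (n : ZMod m)

/-- the auxiliary primes -/
noncomputable def PB (δ : ℝ) (m : ℕ) : Finset ℕ :=
  (Finset.range (BB δ m + 1)).filter (fun p => p.Prime ∧ ¬ p ∣ m)

/-- the auxiliary products -/
noncomputable def SS (δ : ℝ) (m j : ℕ) : Finset ℕ :=
  (powersetCard j (PB δ m)).image (fun A => ∏ p ∈ A, p)

/-- the length `m^(49/100)` -/
noncomputable def yy (m : ℕ) : ℕ := ⌊(m : ℝ) ^ (49 / 100 : ℝ)⌋₊

/-- the primes up to `yy m` not dividing `m` -/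
noncomputable def PY (m : ℕ) : Finset ℕ :=
  (Finset.range (yy m + 1)).filter (fun p => p.Prime ∧ ¬ p ∣ m)

/-- the distance of `χ` to `-1` -/
noncomputable def VV (m : ℕ) (χ : DirichletCharacter ℂ m) : ℝ :=
  ∑ p ∈ PY m, ‖1 + χ (p : ZMod m)‖ ^ 2 / p

/-- the Polya-Vinogradov bound -/
noncomputable def KK (m : ℕ) : ℝ := Real.sqrt m * m.divisors.card * (1 + Real.log m)

/-- the numbers up to `M` prime to `m` -/
def cop (m M : ℕ) : Finset ℕ := (Icc 1 M).filter (fun x => x.Coprime m)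

/-- the hypothesis to be refuted -/
def Hyp (δ : ℝ) (m : ℕ) (η : ℤ) : Prop :=
  (η = 1 ∨ η = -1) ∧ ∀ q : ℕ, q.Prime → (q : ℝ) ≤ (m : ℝ) ^ δ →
    ((Ex m η q).card : ℝ) ≤ (m : ℝ) ^ (1 - δ)

/-- `D(M, χ) = ∑_{d ≤ M} χ(d) ⌊M/d⌋` -/
noncomputable def DD (m M : ℕ) (χ : DirichletCharacter ℂ m) : ℂ :=
  ∑ d ∈ Icc 1 M, χ (d : ZMod m) * ((M / d : ℕ) : ℂ)

theorem mem_cop {m M x : ℕ} : x ∈ cop m M ↔ 1 ≤ x ∧ x ≤ M ∧ x.Coprime m := by
  unfold cop
  rw [mem_filter, mem_Icc, and_assoc]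

open Classical in
theorem mem_XX {δ : ℝ} {m : ℕ} [NeZero m] {χ : DirichletCharacter ℂ m} :
    χ ∈ XX δ m ↔ ∀ q : ℕ, q.Prime → q ≤ BB δ m → ¬ q ∣ m →
      ‖χ (q : ZMod m) + 1‖ ≤ (m : ℝ) ^ (-(δ / 4)) := by
  unfold XX
  simp

theorem mem_PB {δ : ℝ} {m p : ℕ} :
    p ∈ PB δ m ↔ p ≤ BB δ m ∧ p.Prime ∧ ¬ p ∣ m := by
  unfold PB
  rw [mem_filter, mem_range, Nat.lt_succ_iff]

theorem mem_PY {m p : ℕ} : p ∈ PY m ↔ p ≤ yy m ∧ p.Prime ∧ ¬ p ∣ m := by
  unfold PY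
  rw [mem_filter, mem_range, Nat.lt_succ_iff]

theorem FC_natCast {m : ℕ} (η : ℤ) (n : ℕ) : FC m η (n : ZMod m) = ((F m η n : ℤ) : ℂ) := by
  unfold FC
  rw [ZMod.val_natCast, F_mod]

end Pool.Agent.H78.PG
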