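import Pool.Agent.H78.PG.TDefs

/-!
# LQ / PG, TFour: Fourier analysis on the unit group

Orthogonality of the Dirichlet characters over the characters: Mathlib
`DirichletCharacter.sum_char_inv_mul_char_eq`; over the group: `MulChar.sum_eq_zero_of_ne_one` (a sum
over `ZMod m` of a nontrivial character; it vanishes at non-units) or by hand.
`parseval`: expand `‖cc‖²`, orthogonality over the characters.
`part_sum`: `f u = ∑_χ cc f χ * χ u` for all units (inversion), hence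
`f - ∑_{χ ∈ X} = ∑_{χ ∉ X} cc f χ * χ`, whose mean square is `∑_{χ ∉ X} ‖cc‖²` (orthogonality over `u`).
`twist`: `cc (x ↦ f (a x) + f x) χ = (χ a + 1) cc f χ` (substitute `u ↦ a⁻¹ u`; `conj (χ a⁻¹) = χ a`), then
`parseval`.
`ortho_sum`: expand the square, `∑_χ χ(s) conj(χ(s')) = φ(m)` if `s = s'` in `ZMod m`, `0` otherwise;
different elements of `S` (in `[1,m]`, prime to `m`) are different mod `m`.
-/

set_option autoImplicit false

namespace Pool.Agent.H78.PG

open Finset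
open Pool.Agent.H34PG (lam lam_val lam_mul lam_prime)
open Pool.Agent.H11.LQ

theorem tfour_conj (m : ℕ) [NeZero m] (χ : DirichletCharacter ℂ m) (u : (ZMod m)ˣ) :
    (starRingEnd ℂ) (χ (u : ZMod m)) = χ ((u : ZMod m)⁻¹) := by
  have h1 : ‖χ (u : ZMod m)‖ = 1 := DirichletCharacter.unit_norm_eq_one χ u
  have h2 : χ (u : ZMod m) * χ ((u : ZMod m)⁻¹) = 1 := by
    rw [← map_mul, ZMod.mul_inv_of_unit _ u.isUnit, map_one]
  have h3 : χ (u : ZMod m) ≠ 0 := by
    intro h
    rw [h, zero_mul] at h2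
    exact zero_ne_one h2
  have h4 : χ (u : ZMod m) * (starRingEnd ℂ) (χ (u : ZMod m)) = 1 := by
    rw [Complex.mul_conj, Complex.normSq_eq_norm_sq, h1]
    norm_num
  exact mul_left_cancel₀ h3 (h4.trans h2.symm)

theorem tfour_ortho (m : ℕ) [NeZero m] (u v : (ZMod m)ˣ) :
    ∑ χ : DirichletCharacter ℂ m, (starRingEnd ℂ) (χ (u : ZMod m)) * χ (v : ZMod m)
      = if u = v then (m.totient : ℂ) else 0 := by
  have h := DirichletCharacter.sum_char_inv_mul_char_eq ℂ (n := m) u.isUnit (v : ZMod m)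
  have h' : ∑ χ : DirichletCharacter ℂ m, (starRingEnd ℂ) (χ (u : ZMod m)) * χ (v : ZMod m)
      = ∑ χ : DirichletCharacter ℂ m, χ ((u : ZMod m)⁻¹) * χ (v : ZMod m) :=
    Finset.sum_congr rfl (fun χ _ => by rw [tfour_conj m χ u])
  rw [h', h]
  by_cases huv : u = v
  · rw [if_pos huv, if_pos (by rw [huv])]
  · rw [if_neg huv, if_neg (fun h' => huv (Units.ext h'))]

theorem tfour_tot (m : ℕ) [NeZero m] : (m.totient : ℂ) ≠ 0 := by
  exact_mod_cast (Nat.totient_pos.2 (Nat.pos_of_ne_zero (NeZero.ne m))).ne'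

/-- a bilinear form of Parseval -/
theorem tfour_bil (m : ℕ) [NeZero m] (f g : ZMod m → ℂ) :
    ∑ χ : DirichletCharacter ℂ m, cc m f χ * (starRingEnd ℂ) (cc m g χ)
      = (1 / (m.totient : ℂ)) * ∑ u : (ZMod m)ˣ, f (u : ZMod m) * (starRingEnd ℂ) (g (u : ZMod m)) := by
  have hφ := tfour_tot m
  have h1 : ∀ χ : DirichletCharacter ℂ m, cc m f χ * (starRingEnd ℂ) (cc m g χ)
      = (1 / (m.totient : ℂ)) * (1 / (m.totient : ℂ)) * ∑ u : (ZMod m)ˣ, ∑ v : (ZMod m)ˣ,
        f (u : ZMod m) * (starRingEnd ℂ) (g (v : ZMod m)) *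
          ((starRingEnd ℂ) (χ (u : ZMod m)) * χ (v : ZMod m)) := by
    intro χ
    unfold cc
    rw [map_mul, map_sum, map_div₀, map_one, Complex.conj_natCast]
    rw [mul_mul_mul_comm, Finset.sum_mul_sum]
    congr 1
    refine Finset.sum_congr rfl (fun u _ => Finset.sum_congr rfl (fun v _ => ?_))
    rw [map_mul, Complex.conj_conj]
    ring
  rw [Finset.sum_congr rfl (fun χ _ => h1 χ), ← Finset.mul_sum, Finset.sum_comm]
  have h2 : ∀ u : (ZMod m)ˣ, ∑ χ : DirichletCharacter ℂ m, ∑ v : (ZMod m)ˣ,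
      f (u : ZMod m) * (starRingEnd ℂ) (g (v : ZMod m)) *
          ((starRingEnd ℂ) (χ (u : ZMod m)) * χ (v : ZMod m))
      = (m.totient : ℂ) * (f (u : ZMod m) * (starRingEnd ℂ) (g (u : ZMod m))) := by
    intro u
    rw [Finset.sum_comm]
    have h3 : ∀ v : (ZMod m)ˣ, ∑ χ : DirichletCharacter ℂ m,
        f (u : ZMod m) * (starRingEnd ℂ) (g (v : ZMod m)) *
          ((starRingEnd ℂ) (χ (u : ZMod m)) * χ (v : ZMod m))
        = if u = v then f (u : ZMod m) * (starRingEnd ℂ) (g (v : ZMod m)) * (m.totient : ℂ)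
          else 0 := by
      intro v
      rw [← Finset.mul_sum, tfour_ortho]
      split_ifs <;> simp
    rw [Finset.sum_congr rfl (fun v _ => h3 v), Finset.sum_ite_eq, if_pos (Finset.mem_univ _)]
    ring
  rw [Finset.sum_congr rfl (fun u _ => h2 u), ← Finset.mul_sum]
  field_simp

theorem parseval (m : ℕ) [NeZero m] (f : ZMod m → ℂ) :
    ∑ χ : DirichletCharacter ℂ m, ‖cc m f χ‖ ^ 2
      = (1 / (m.totient : ℝ)) * ∑ u : (ZMod m)ˣ, ‖f (u : ZMod m)‖ ^ 2 := by
  have h := tfour_bil m f f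
  have h1 : ∀ z : ℂ, z * (starRingEnd ℂ) z = ((‖z‖ ^ 2 : ℝ) : ℂ) := by
    intro z
    rw [Complex.mul_conj, Complex.normSq_eq_norm_sq]
  simp only [h1] at h
  have h2 : (((∑ χ : DirichletCharacter ℂ m, ‖cc m f χ‖ ^ 2 : ℝ)) : ℂ)
      = (((1 / (m.totient : ℝ)) * ∑ u : (ZMod m)ˣ, ‖f (u : ZMod m)‖ ^ 2 : ℝ) : ℂ) := by
    push_cast
    push_cast at h
    exact h
  exact_mod_cast h2

/-- Fourier inversion at units -/
theorem tfour_inv (m : ℕ) [NeZero m] (f : ZMod m → ℂ) (u : (ZMod m)ˣ) :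
    f (u : ZMod m) = ∑ χ : DirichletCharacter ℂ m, cc m f χ * χ (u : ZMod m) := by
  have hφ := tfour_tot m
  have h1 : ∀ χ : DirichletCharacter ℂ m, cc m f χ * χ (u : ZMod m)
      = ∑ v : (ZMod m)ˣ, (1 / (m.totient : ℂ)) * f (v : ZMod m) *
          ((starRingEnd ℂ) (χ (v : ZMod m)) * χ (u : ZMod m)) := by
    intro χ
    unfold cc
    rw [Finset.mul_sum, Finset.sum_mul]
    refine Finset.sum_congr rfl (fun v _ => ?_)
    ring
  rw [Finset.sum_congr rfl (fun χ _ => h1 χ), Finset.sum_comm]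
  have h3 : ∀ v : (ZMod m)ˣ, ∑ χ : DirichletCharacter ℂ m,
      (1 / (m.totient : ℂ)) * f (v : ZMod m) *
          ((starRingEnd ℂ) (χ (v : ZMod m)) * χ (u : ZMod m))
      = if v = u then f (v : ZMod m) else 0 := by
    intro v
    rw [← Finset.mul_sum, tfour_ortho]
    split_ifs
    · field_simp
    · simp
  rw [Finset.sum_congr rfl (fun v _ => h3 v), Finset.sum_ite_eq', if_pos (Finset.mem_univ _)]

/-- the coefficients of a finite character sum -/
theorem tfour_coef (m : ℕ) [NeZero m] (d : DirichletCharacter ℂ m → ℂ)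
    (χ : DirichletCharacter ℂ m) :
    cc m (fun x => ∑ ψ : DirichletCharacter ℂ m, d ψ * ψ x) χ = d χ := by
  classical
  have hφ := tfour_tot m
  unfold cc
  have h1 : ∑ u : (ZMod m)ˣ, (∑ ψ : DirichletCharacter ℂ m, d ψ * ψ (u : ZMod m)) *
      (starRingEnd ℂ) (χ (u : ZMod m))
      = ∑ ψ : DirichletCharacter ℂ m, d ψ * ∑ u : (ZMod m)ˣ, (ψ * χ⁻¹) (u : ZMod m) := by
    simp only [Finset.sum_mul]
    rw [Finset.sum_comm]
    refine Finset.sum_congr rfl (fun ψ _ => ?_)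
    rw [Finset.mul_sum]
    refine Finset.sum_congr rfl (fun u _ => ?_)
    have h2 : (starRingEnd ℂ) (χ (u : ZMod m)) = χ⁻¹ (u : ZMod m) := MulChar.star_apply' χ _
    rw [MulChar.mul_apply, h2, mul_assoc]
  rw [h1]
  have h2 : ∀ ψ : DirichletCharacter ℂ m, ∑ u : (ZMod m)ˣ, (ψ * χ⁻¹) (u : ZMod m)
      = if ψ = χ then (m.totient : ℂ) else 0 := by
    intro ψ
    split_ifs with h
    · subst h
      rw [mul_inv_cancel]
      simp [MulChar.one_apply_coe, ZMod.card_units_eq_totient]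
    · have h3 : ψ * χ⁻¹ ≠ 1 := fun h' => h (mul_inv_eq_one.1 h')
      have h4 := MulChar.sum_eq_zero_of_ne_one h3
      rw [← h4]
      rw [← Finset.sum_subset (Finset.subset_univ (univ.image (fun u : (ZMod m)ˣ => (u : ZMod m))))]
      · rw [Finset.sum_image]
        intro a _ b _ hab
        exact Units.ext hab
      · intro x _ hx
        apply MulChar.map_nonunit
        intro hu
        apply hx
        rw [Finset.mem_image]
        exact ⟨hu.unit, Finset.mem_univ _, hu.unit_spec⟩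
  simp only [h2, mul_ite, mul_zero, Finset.sum_ite_eq', Finset.mem_univ, if_true]
  field_simp

open Classical in
theorem part_sum (m : ℕ) [NeZero m] (f : ZMod m → ℂ) (X : Finset (DirichletCharacter ℂ m)) :
    ∑ u : (ZMod m)ˣ, ‖f (u : ZMod m) - ∑ χ ∈ X, cc m f χ * χ (u : ZMod m)‖ ^ 2
      = (m.totient : ℝ) * ∑ χ ∈ univ.filter (fun χ => χ ∉ X), ‖cc m f χ‖ ^ 2 := by
  have hφ : (m.totient : ℝ) ≠ 0 := by
    exact_mod_cast (Nat.totient_pos.2 (Nat.pos_of_ne_zero (NeZero.ne m))).ne'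
  set d : DirichletCharacter ℂ m → ℂ := fun χ => if χ ∈ X then 0 else cc m f χ with hd
  set g : ZMod m → ℂ := fun x => ∑ ψ : DirichletCharacter ℂ m, d ψ * ψ x with hg
  have h1 : ∀ u : (ZMod m)ˣ, f (u : ZMod m) - ∑ χ ∈ X, cc m f χ * χ (u : ZMod m)
      = g (u : ZMod m) := by
    intro u
    rw [tfour_inv m f u, hg]
    have h2 : ∑ χ : DirichletCharacter ℂ m, cc m f χ * χ (u : ZMod m)
        = ∑ χ : DirichletCharacter ℂ m, ((if χ ∈ X then cc m f χ * χ (u : ZMod m) else 0)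
          + d χ * χ (u : ZMod m)) := by
      refine Finset.sum_congr rfl (fun χ _ => ?_)
      simp only [hd]
      split_ifs <;> simp
    rw [h2, Finset.sum_add_distrib, Finset.sum_ite_mem, Finset.univ_inter]
    ring
  have h3 := parseval m g
  have h4 : ∀ χ : DirichletCharacter ℂ m, cc m g χ = d χ := tfour_coef m d
  simp only [h4] at h3
  rw [Finset.sum_congr rfl (fun u _ => by rw [h1 u])]
  have h5 : ∑ χ : DirichletCharacter ℂ m, ‖d χ‖ ^ 2
      = ∑ χ ∈ univ.filter (fun χ => χ ∉ X), ‖cc m f χ‖ ^ 2 := by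
    rw [Finset.sum_filter]
    refine Finset.sum_congr rfl (fun χ _ => ?_)
    simp only [hd]
    split_ifs <;> simp_all
  rw [← h5, h3]
  field_simp

theorem twist (m : ℕ) [NeZero m] (f : ZMod m → ℂ) (a : ZMod m) (ha : IsUnit a) :
    ∑ χ : DirichletCharacter ℂ m, ‖cc m f χ‖ ^ 2 * ‖χ a + 1‖ ^ 2
      = (1 / (m.totient : ℝ)) * ∑ u : (ZMod m)ˣ, ‖f (a * u) + f (u : ZMod m)‖ ^ 2 := by
  obtain ⟨a', rfl⟩ := ha
  have h1 : ∀ χ : DirichletCharacter ℂ m,
      cc m (fun x => f ((a' : ZMod m) * x) + f x) χ = cc m f χ * (χ (a' : ZMod m) + 1) := by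
    intro χ
    unfold cc
    have h2 : ∑ u : (ZMod m)ˣ, f ((a' : ZMod m) * u) * (starRingEnd ℂ) (χ (u : ZMod m))
        = χ (a' : ZMod m) * ∑ u : (ZMod m)ˣ, f (u : ZMod m) * (starRingEnd ℂ) (χ (u : ZMod m)) := by
      rw [Finset.mul_sum]
      rw [← Equiv.sum_comp (Equiv.mulLeft a')
        (fun u : (ZMod m)ˣ => χ (a' : ZMod m) * (f (u : ZMod m) * (starRingEnd ℂ) (χ (u : ZMod m))))]
      refine Finset.sum_congr rfl (fun u _ => ?_)
      simp only [Equiv.coe_mulLeft, Units.val_mul, map_mul]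
      have h3 : χ (a' : ZMod m) * (starRingEnd ℂ) (χ (a' : ZMod m)) = 1 := by
        have h1 : ‖χ (a' : ZMod m)‖ = 1 := DirichletCharacter.unit_norm_eq_one χ a'
        rw [Complex.mul_conj, Complex.normSq_eq_norm_sq, h1]
        norm_num
      calc f ((a' : ZMod m) * u) * (starRingEnd ℂ) (χ (u : ZMod m))
          = (χ (a' : ZMod m) * (starRingEnd ℂ) (χ (a' : ZMod m))) *
            (f ((a' : ZMod m) * u) * (starRingEnd ℂ) (χ (u : ZMod m))) := by rw [h3, one_mul]
        _ = _ := by ring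
    simp only [add_mul, Finset.sum_add_distrib, h2]
    ring
  have h3 := parseval m (fun x => f ((a' : ZMod m) * x) + f x)
  rw [← h3]
  refine Finset.sum_congr rfl (fun χ _ => ?_)
  rw [h1, norm_mul]
  ring

theorem ortho_sum (m : ℕ) [NeZero m] (S : Finset ℕ)
    (hS : ∀ s ∈ S, s.Coprime m ∧ 1 ≤ s ∧ s ≤ m) :
    ∑ χ : DirichletCharacter ℂ m, ‖∑ s ∈ S, χ (s : ZMod m)‖ ^ 2 = (m.totient : ℝ) * S.card := by
  have hinj : ∀ s ∈ S, ∀ t ∈ S, (s : ZMod m) = (t : ZMod m) → s = t := by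
    intro s hs t ht h
    rw [ZMod.natCast_eq_natCast_iff] at h
    obtain ⟨hs1, hs2, hs3⟩ := hS s hs
    obtain ⟨ht1, ht2, ht3⟩ := hS t ht
    rcases Nat.lt_or_ge 1 m with hm | hm
    · have hs4 : s < m := by
        refine lt_of_le_of_ne hs3 (fun h' => ?_)
        rw [h'] at hs1
        have : m = 1 := by simpa using hs1
        omega
      have ht4 : t < m := by
        refine lt_of_le_of_ne ht3 (fun h' => ?_)
        rw [h'] at ht1
        have : m = 1 := by simpa using ht1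
        omega
      have := h
      unfold Nat.ModEq at this
      rwa [Nat.mod_eq_of_lt hs4, Nat.mod_eq_of_lt ht4] at this
    · omega
  have h1 : ∀ χ : DirichletCharacter ℂ m, ((‖∑ s ∈ S, χ (s : ZMod m)‖ ^ 2 : ℝ) : ℂ)
      = ∑ s ∈ S, ∑ t ∈ S, (starRingEnd ℂ) (χ (s : ZMod m)) * χ (t : ZMod m) := by
    intro χ
    have : ((‖∑ s ∈ S, χ (s : ZMod m)‖ ^ 2 : ℝ) : ℂ)
        = (starRingEnd ℂ) (∑ s ∈ S, χ (s : ZMod m)) * ∑ t ∈ S, χ (t : ZMod m) := by
      rw [mul_comm, Complex.mul_conj, Complex.normSq_eq_norm_sq]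
    rw [this, map_sum, Finset.sum_mul_sum]
  have h2 : ((∑ χ : DirichletCharacter ℂ m, ‖∑ s ∈ S, χ (s : ZMod m)‖ ^ 2 : ℝ) : ℂ)
      = ((m.totient : ℝ) * S.card : ℝ) := by
    rw [Complex.ofReal_sum, Finset.sum_congr rfl (fun χ _ => h1 χ), Finset.sum_comm]
    have h3 : ∀ s ∈ S, ∑ χ : DirichletCharacter ℂ m, ∑ t ∈ S,
        (starRingEnd ℂ) (χ (s : ZMod m)) * χ (t : ZMod m) = (m.totient : ℂ) := by
      intro s hs
      rw [Finset.sum_comm]
      have h4 : ∀ t ∈ S, ∑ χ : DirichletCharacter ℂ m,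
          (starRingEnd ℂ) (χ (s : ZMod m)) * χ (t : ZMod m)
          = if s = t then (m.totient : ℂ) else 0 := by
        intro t ht
        have hsu : IsUnit (s : ZMod m) := (ZMod.isUnit_iff_coprime _ _).2 (hS s hs).1
        have htu : IsUnit (t : ZMod m) := (ZMod.isUnit_iff_coprime _ _).2 (hS t ht).1
        have h5 := tfour_ortho m hsu.unit htu.unit
        simp only [IsUnit.unit_spec] at h5
        rw [h5]
        by_cases hst : s = t
        · subst hst
          simp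
        · rw [if_neg hst, if_neg]
          intro h6
          apply hst
          apply hinj s hs t ht
          have := congrArg (fun u : (ZMod m)ˣ => (u : ZMod m)) h6
          simpa using this
      rw [Finset.sum_congr rfl h4, Finset.sum_ite_eq, if_pos hs]
    rw [Finset.sum_congr rfl h3, Finset.sum_const, nsmul_eq_mul]
    push_cast
    ring
  exact_mod_cast h2

end Pool.Agent.H78.PG
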