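import Pool.Agent.H78.PG.TDefs

/-!
# LQ / PG, TPVb: geometric sums and a gcd sum

`geo`: geometric series: `‖∑_{x=1}^M z^x‖ ≤ 2/‖1 - z‖` for `‖z‖ = 1`, `z = e(h/m)` (`ZMod.stdAddChar_apply`,
`ZMod.toCircle`), `‖1 - z‖ = 2 |sin(π h/m)| ≥ 4 min(h, m-h)/m` (`Real.mul_le_sin`, `2/π x ≤ sin x` on `[0, π/2]`).
`gcdsum`: symmetry `h ↔ m - h` (`gcd(m-h,m) = gcd(h,m)`): the sum is `≤ ∑_{1 ≤ h ≤ m/2} √gcd(h,m)/h`
`≤ ∑_{g | m} ∑_{h ≤ m, g | h} √g/h = ∑_{g | m} g^(-1/2) ∑_{k ≤ m/g} 1/k ≤ d(m) (1 + log m)`.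
-/

set_option autoImplicit false

namespace Pool.Agent.H78.PG

open Finset
open Pool.Agent.H34PG (lam lam_val lam_mul lam_prime)
open Pool.Agent.H11.LQ

private theorem tpvb_geom (z : ℂ) (M : ℕ) : (z - 1) * ∑ x ∈ Icc 1 M, z ^ x = z * (z ^ M - 1) := by
  induction M with
  | zero => simp
  | succ M ih =>
    rw [Finset.sum_Icc_succ_top (by omega), mul_add, ih]
    ring

private theorem tpvb_norm (m : ℕ) [NeZero m] (h : ℕ) (h1 : 1 ≤ h) (h2 : h < m) :
    4 * ((min h (m - h) : ℕ) : ℝ) / m ≤ ‖ZMod.stdAddChar (h : ZMod m) - 1‖ := by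
  have hm : (0 : ℝ) < m := by
    have : 0 < m := by omega
    exact_mod_cast this
  have e1 : ZMod.stdAddChar (h : ZMod m) =
      Complex.exp (Complex.I * ((2 * Real.pi * h / m : ℝ) : ℂ)) := by
    have := ZMod.stdAddChar_coe (N := m) (h : ℤ)
    rw [Int.cast_natCast] at this
    rw [this]
    congr 1
    push_cast
    ring
  rw [e1, Complex.norm_exp_I_mul_ofReal_sub_one, Real.norm_eq_abs]
  have e2 : 2 * Real.pi * h / m / 2 = Real.pi * h / m := by ring
  rw [e2]
  set t : ℕ := min h (m - h) with ht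
  have e3 : Real.sin (Real.pi * h / m) = Real.sin (Real.pi * t / m) := by
    rcases le_total h (m - h) with h3 | h3
    · rw [ht, min_eq_left h3]
    · rw [ht, min_eq_right h3, ← Real.sin_pi_sub]
      congr 1
      rw [Nat.cast_sub h2.le]
      field_simp
  have t2 : (2 * t : ℝ) ≤ m := by
    have : 2 * t ≤ m := by omega
    exact_mod_cast this
  have h4 : 2 / Real.pi * (Real.pi * t / m) ≤ Real.sin (Real.pi * t / m) := by
    apply Real.mul_le_sin
    · positivity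
    · rw [div_le_div_iff₀ hm two_pos]
      nlinarith [Real.pi_pos]
  have h5 : 2 / Real.pi * (Real.pi * t / m) = 2 * t / m := by
    have := Real.pi_ne_zero
    field_simp
  rw [h5] at h4
  rw [e3]
  have h6 : 0 ≤ 2 * (t : ℝ) / m := by positivity
  rw [abs_of_nonneg (by linarith)]
  calc 4 * (t : ℝ) / m = 2 * (2 * t / m) := by ring
    _ ≤ _ := by linarith

theorem geo (m : ℕ) [NeZero m] (h : ℕ) (h1 : 1 ≤ h) (h2 : h < m) (M : ℕ) :
    ‖∑ x ∈ Icc 1 M, ZMod.stdAddChar ((h : ZMod m) * (x : ZMod m))‖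
      ≤ (m : ℝ) / (2 * (min h (m - h) : ℕ)) := by
  have hm : (0 : ℝ) < m := by
    have : 0 < m := by omega
    exact_mod_cast this
  have ht : (0 : ℝ) < ((min h (m - h) : ℕ) : ℝ) := by
    have : 0 < min h (m - h) := by omega
    exact_mod_cast this
  set z : ℂ := ZMod.stdAddChar (h : ZMod m) with hz
  have e1 : ∑ x ∈ Icc 1 M, ZMod.stdAddChar ((h : ZMod m) * (x : ZMod m)) = ∑ x ∈ Icc 1 M, z ^ x := by
    apply sum_congr rfl
    intro x _
    rw [hz, ← AddChar.map_nsmul_eq_pow, nsmul_eq_mul, mul_comm]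
  rw [e1]
  have hn : ‖z‖ = 1 := by
    rw [hz]
    exact AddChar.norm_apply _ _
  have h3 := tpvb_norm m h h1 h2
  rw [← hz] at h3
  have h4 : ‖z - 1‖ * ‖∑ x ∈ Icc 1 M, z ^ x‖ ≤ 2 := by
    rw [← norm_mul, tpvb_geom, norm_mul, hn, one_mul]
    calc ‖z ^ M - 1‖ ≤ ‖z ^ M‖ + ‖(1 : ℂ)‖ := norm_sub_le _ _
      _ = 2 := by rw [norm_pow, hn, one_pow, norm_one]; norm_num
  have h5 : 4 * ((min h (m - h) : ℕ) : ℝ) / m * ‖∑ x ∈ Icc 1 M, z ^ x‖ ≤ 2 :=
    (mul_le_mul_of_nonneg_right h3 (norm_nonneg _)).trans h4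
  rw [le_div_iff₀ (by positivity)]
  have h6 : 4 * ((min h (m - h) : ℕ) : ℝ) / m * ‖∑ x ∈ Icc 1 M, z ^ x‖ * m
      = 2 * (‖∑ x ∈ Icc 1 M, z ^ x‖ * (2 * ((min h (m - h) : ℕ) : ℝ))) := by
    field_simp
    ring
  have h7 := mul_le_mul_of_nonneg_right h5 hm.le
  rw [h6] at h7
  linarith

private theorem tpvb_harm (n : ℕ) : ∑ k ∈ Icc 1 n, (1 : ℝ) / k ≤ 1 + Real.log n := by
  have h := harmonic_le_one_add_log n
  rw [harmonic_eq_sum_Icc] at h
  push_cast at h
  simpa [one_div] using h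

private theorem tpvb_mult (m g : ℕ) (hm : 1 ≤ m) (hg : g ∈ m.divisors) :
    ∑ h ∈ (Icc 1 (m - 1)).filter (fun h => g ∣ h), Real.sqrt g / h ≤ 1 + Real.log m := by
  have hgm : g ∣ m := Nat.dvd_of_mem_divisors hg
  have hg0 : 0 < g := Nat.pos_of_mem_divisors hg
  have hg1 : (1 : ℝ) ≤ g := by exact_mod_cast hg0
  have hsub : (Icc 1 (m - 1)).filter (fun h => g ∣ h) ⊆ (Icc 1 (m / g)).image (fun k => g * k) := by
    intro h hh
    rw [mem_filter, mem_Icc] at hh
    obtain ⟨⟨h1, h2⟩, k, rfl⟩ := hh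
    rw [mem_image]
    refine ⟨k, ?_, rfl⟩
    rw [mem_Icc]
    constructor
    · rcases Nat.eq_zero_or_pos k with h3 | h3
      · subst h3
        omega
      · exact h3
    · rw [Nat.le_div_iff_mul_le hg0, mul_comm]
      omega
  have hinj : Set.InjOn (fun k => g * k) (Icc 1 (m / g) : Finset ℕ) := by
    intro a _ b _ hab
    exact Nat.eq_of_mul_eq_mul_left hg0 hab
  have hs1 : (1 : ℝ) ≤ Real.sqrt g := by
    rw [Real.one_le_sqrt]
    exact hg1
  calc ∑ h ∈ (Icc 1 (m - 1)).filter (fun h => g ∣ h), Real.sqrt g / h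
      ≤ ∑ h ∈ (Icc 1 (m / g)).image (fun k => g * k), Real.sqrt g / h :=
        sum_le_sum_of_subset_of_nonneg hsub fun h _ _ => by positivity
    _ = ∑ k ∈ Icc 1 (m / g), Real.sqrt g / ((g * k : ℕ) : ℝ) := sum_image hinj
    _ ≤ ∑ k ∈ Icc 1 (m / g), (1 : ℝ) / k := by
        apply sum_le_sum
        intro k hk
        rw [mem_Icc] at hk
        have hk0 : (0 : ℝ) < k := by
          have : 0 < k := hk.1
          exact_mod_cast this
        rw [div_le_div_iff₀ (by push_cast; positivity) hk0]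
        push_cast
        have h3 : Real.sqrt g ≤ g := by
          have h4 : Real.sqrt g * Real.sqrt g = g := Real.mul_self_sqrt (by positivity)
          nlinarith
        nlinarith
    _ ≤ 1 + Real.log ((m / g : ℕ) : ℝ) := tpvb_harm _
    _ ≤ 1 + Real.log m := by
        have h5 : 0 < m / g := Nat.div_pos (Nat.le_of_dvd hm hgm) hg0
        have h6 : m / g ≤ m := Nat.div_le_self _ _
        have h7 : Real.log ((m / g : ℕ) : ℝ) ≤ Real.log m :=
          Real.log_le_log (by exact_mod_cast h5) (by exact_mod_cast h6)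
        linarith

theorem gcdsum (m : ℕ) (hm : 1 ≤ m) :
    ∑ h ∈ Icc 1 (m - 1), Real.sqrt (Nat.gcd h m : ℕ) / (2 * (min h (m - h) : ℕ))
      ≤ (m.divisors.card : ℝ) * (1 + Real.log m) := by
  have hA : ∑ h ∈ Icc 1 (m - 1), Real.sqrt (Nat.gcd h m : ℕ) / ((m - h : ℕ) : ℝ)
      = ∑ h ∈ Icc 1 (m - 1), Real.sqrt (Nat.gcd h m : ℕ) / (h : ℝ) := by
    apply sum_nbij' (fun h => m - h) (fun h => m - h)
    · intro h hh
      rw [mem_Icc] at hh ⊢
      omega
    · intro h hh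
      rw [mem_Icc] at hh ⊢
      omega
    · intro h hh
      rw [mem_Icc] at hh
      omega
    · intro h hh
      rw [mem_Icc] at hh
      omega
    · intro h hh
      rw [mem_Icc] at hh
      have h1 : Nat.gcd (m - h) m = Nat.gcd h m := by
        have h2 : h ≤ m := by omega
        rw [Nat.gcd_comm, Nat.gcd_self_sub_right h2, Nat.gcd_comm]
      rw [h1]
  calc ∑ h ∈ Icc 1 (m - 1), Real.sqrt (Nat.gcd h m : ℕ) / (2 * (min h (m - h) : ℕ))
      ≤ ∑ h ∈ Icc 1 (m - 1), (1 / 2 * (Real.sqrt (Nat.gcd h m : ℕ) / (h : ℝ)) +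
          1 / 2 * (Real.sqrt (Nat.gcd h m : ℕ) / ((m - h : ℕ) : ℝ))) := by
        apply sum_le_sum
        intro h hh
        rw [mem_Icc] at hh
        have h1 : (0 : ℝ) < h := by
          have : 0 < h := hh.1
          exact_mod_cast this
        have h2 : (0 : ℝ) < ((m - h : ℕ) : ℝ) := by
          have : 0 < m - h := by omega
          exact_mod_cast this
        have h3 : 0 ≤ Real.sqrt (Nat.gcd h m : ℕ) := Real.sqrt_nonneg _
        rcases le_total h (m - h) with h4 | h4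
        · rw [min_eq_left h4]
          have h5 : 0 ≤ 1 / 2 * (Real.sqrt (Nat.gcd h m : ℕ) / ((m - h : ℕ) : ℝ)) := by positivity
          have h6 : Real.sqrt (Nat.gcd h m : ℕ) / (2 * (h : ℝ)) =
              1 / 2 * (Real.sqrt (Nat.gcd h m : ℕ) / (h : ℝ)) := by
            field_simp
          linarith
        · rw [min_eq_right h4]
          have h5 : 0 ≤ 1 / 2 * (Real.sqrt (Nat.gcd h m : ℕ) / (h : ℝ)) := by positivity
          have h6 : Real.sqrt (Nat.gcd h m : ℕ) / (2 * ((m - h : ℕ) : ℝ)) =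
              1 / 2 * (Real.sqrt (Nat.gcd h m : ℕ) / ((m - h : ℕ) : ℝ)) := by
            field_simp
          linarith
    _ = ∑ h ∈ Icc 1 (m - 1), Real.sqrt (Nat.gcd h m : ℕ) / (h : ℝ) := by
        rw [sum_add_distrib, ← mul_sum, ← mul_sum, hA]
        ring
    _ ≤ ∑ h ∈ Icc 1 (m - 1), ∑ g ∈ m.divisors, (if g ∣ h then Real.sqrt g / (h : ℝ) else 0) := by
        apply sum_le_sum
        intro h hh
        have h1 : Nat.gcd h m ∈ m.divisors := by
          rw [Nat.mem_divisors]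
          exact ⟨Nat.gcd_dvd_right _ _, by omega⟩
        have h2 := single_le_sum (f := fun g : ℕ => if g ∣ h then Real.sqrt g / (h : ℝ) else 0)
          (fun g _ => by
            show 0 ≤ if g ∣ h then Real.sqrt g / (h : ℝ) else 0
            split_ifs <;> positivity) h1
        have h3 : (if Nat.gcd h m ∣ h then Real.sqrt (Nat.gcd h m : ℕ) / (h : ℝ) else 0)
            = Real.sqrt (Nat.gcd h m : ℕ) / (h : ℝ) := if_pos (Nat.gcd_dvd_left _ _)
        rw [← h3]
        exact h2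
    _ = ∑ g ∈ m.divisors, ∑ h ∈ (Icc 1 (m - 1)).filter (fun h => g ∣ h), Real.sqrt g / (h : ℝ) := by
        rw [sum_comm]
        apply sum_congr rfl
        intro g _
        rw [sum_filter]
    _ ≤ ∑ _g ∈ m.divisors, (1 + Real.log m) := sum_le_sum fun g hg => tpvb_mult m g hm hg
    _ = (m.divisors.card : ℝ) * (1 + Real.log m) := by rw [sum_const, nsmul_eq_mul]

end Pool.Agent.H78.PG
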