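import Pool.Agent.H78.PG.TPVa
import Pool.Agent.H78.PG.TPVb

/-!
# LQ / PG, TPV: Polya-Vinogradov for all nonprincipal characters

`inversion` summed over `x ∈ Icc 1 M`: `∑ χ x = (1/m) ∑_h chat h ∑_{x ≤ M} e(hx/m)`; `chat 0 = 0` (`chat_zero`);
`‖chat h‖ ≤ √m √gcd(h,m)` (`chat_sq`); `geo`, `gcdsum`.  (`ZMod m ∖ {0} ↔ Icc 1 (m-1)` by `val`.)
-/

set_option autoImplicit false

namespace Pool.Agent.H78.PG

open Finset
open Pool.Agent.H34PG (lam lam_val lam_mul lam_prime)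
open Pool.Agent.H11.LQ

private theorem tpv_chat (m : ℕ) [NeZero m] (χ : DirichletCharacter ℂ m) (h : ZMod m) :
    ‖chat m χ h‖ ≤ Real.sqrt m * Real.sqrt (Nat.gcd h.val m : ℕ) := by
  rw [← Real.sqrt_mul (Nat.cast_nonneg m)]
  exact Real.le_sqrt_of_sq_le (chat_sq m χ h)

private theorem tpv_geo (m : ℕ) [NeZero m] (h : ZMod m) (h0 : h ≠ 0) (M : ℕ) :
    ‖∑ x ∈ Icc 1 M, ZMod.stdAddChar (h * (x : ZMod m))‖
      ≤ (m : ℝ) / (2 * (min h.val (m - h.val) : ℕ)) := by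
  have h1 : 1 ≤ h.val := by
    rcases Nat.eq_zero_or_pos h.val with h2 | h2
    · exact absurd ((ZMod.val_eq_zero h).mp h2) h0
    · exact h2
  have h3 := geo m h.val h1 (ZMod.val_lt h) M
  rwa [ZMod.natCast_zmod_val h] at h3

private theorem tpv_term (m : ℕ) [NeZero m] (χ : DirichletCharacter ℂ m) (h : ZMod m) (h0 : h ≠ 0)
    (M : ℕ) :
    ‖chat m χ h * ∑ x ∈ Icc 1 M, ZMod.stdAddChar (h * (x : ZMod m))‖
      ≤ (Real.sqrt m * m) *
        (Real.sqrt (Nat.gcd h.val m : ℕ) / (2 * (min h.val (m - h.val) : ℕ))) := by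
  rw [norm_mul]
  calc ‖chat m χ h‖ * ‖∑ x ∈ Icc 1 M, ZMod.stdAddChar (h * (x : ZMod m))‖
      ≤ (Real.sqrt m * Real.sqrt (Nat.gcd h.val m : ℕ)) *
          ((m : ℝ) / (2 * (min h.val (m - h.val) : ℕ))) :=
        mul_le_mul (tpv_chat m χ h) (tpv_geo m h h0 M) (norm_nonneg _) (by positivity)
    _ = _ := by ring

theorem pv (m : ℕ) [NeZero m] (χ : DirichletCharacter ℂ m) (hχ : χ ≠ 1) (M : ℕ) :
    ‖∑ x ∈ Icc 1 M, χ (x : ZMod m)‖ ≤ KK m := by
  classical
  have hm : 1 ≤ m := Nat.one_le_iff_ne_zero.mpr (NeZero.ne m)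
  have hmR : (0 : ℝ) < m := by exact_mod_cast hm
  have e1 : ∑ x ∈ Icc 1 M, χ (x : ZMod m)
      = (1 / (m : ℂ)) * ∑ h : ZMod m, chat m χ h *
          ∑ x ∈ Icc 1 M, ZMod.stdAddChar (h * (x : ZMod m)) := by
    have e0 : ∑ x ∈ Icc 1 M, χ (x : ZMod m) = ∑ x ∈ Icc 1 M, (1 / (m : ℂ)) *
        ∑ h : ZMod m, chat m χ h * ZMod.stdAddChar (h * (x : ZMod m)) :=
      Finset.sum_congr rfl fun x _ => inversion m χ (x : ZMod m)
    rw [e0, ← Finset.mul_sum, Finset.sum_comm]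
    congr 1
    exact Finset.sum_congr rfl fun h _ => by rw [Finset.mul_sum]
  have e2 : ∑ h : ZMod m, chat m χ h * ∑ x ∈ Icc 1 M, ZMod.stdAddChar (h * (x : ZMod m))
      = ∑ h ∈ univ.erase (0 : ZMod m), chat m χ h *
          ∑ x ∈ Icc 1 M, ZMod.stdAddChar (h * (x : ZMod m)) := by
    rw [← Finset.add_sum_erase univ _ (mem_univ (0 : ZMod m)), chat_zero m χ hχ, zero_mul, zero_add]
  have e3 : ‖∑ h ∈ univ.erase (0 : ZMod m), chat m χ h *
          ∑ x ∈ Icc 1 M, ZMod.stdAddChar (h * (x : ZMod m))‖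
      ≤ (Real.sqrt m * m) * ((m.divisors.card : ℝ) * (1 + Real.log m)) := by
    calc _ ≤ ∑ h ∈ univ.erase (0 : ZMod m), (Real.sqrt m * m) *
            (Real.sqrt (Nat.gcd h.val m : ℕ) / (2 * (min h.val (m - h.val) : ℕ))) :=
          (norm_sum_le _ _).trans (Finset.sum_le_sum fun h hh =>
            tpv_term m χ h (Finset.ne_of_mem_erase hh) M)
      _ = (Real.sqrt m * m) * ∑ h ∈ univ.erase (0 : ZMod m),
            (Real.sqrt (Nat.gcd h.val m : ℕ) / (2 * (min h.val (m - h.val) : ℕ))) := by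
          rw [Finset.mul_sum]
      _ = (Real.sqrt m * m) * ∑ k ∈ (univ.erase (0 : ZMod m)).image ZMod.val,
            (Real.sqrt (Nat.gcd k m : ℕ) / (2 * (min k (m - k) : ℕ))) := by
          rw [Finset.sum_image fun a _ b _ hab => ZMod.val_injective m hab]
      _ ≤ (Real.sqrt m * m) * ∑ k ∈ Icc 1 (m - 1),
            (Real.sqrt (Nat.gcd k m : ℕ) / (2 * (min k (m - k) : ℕ))) := by
          apply mul_le_mul_of_nonneg_left _ (by positivity)
          apply Finset.sum_le_sum_of_subset_of_nonneg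
          · intro k hk
            rw [Finset.mem_image] at hk
            obtain ⟨h, hh, rfl⟩ := hk
            have h1 : h ≠ 0 := Finset.ne_of_mem_erase hh
            have h2 : h.val < m := ZMod.val_lt h
            have h3 : h.val ≠ 0 := fun h4 => h1 ((ZMod.val_eq_zero h).mp h4)
            rw [Finset.mem_Icc]
            omega
          · intro k _ _
            positivity
      _ ≤ _ := mul_le_mul_of_nonneg_left (gcdsum m hm) (by positivity)
  rw [e1, e2, norm_mul]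
  have e4 : ‖(1 / (m : ℂ))‖ = 1 / (m : ℝ) := by
    rw [norm_div, norm_one, Complex.norm_natCast]
  rw [e4]
  unfold KK
  calc 1 / (m : ℝ) * _ ≤ 1 / (m : ℝ) *
        ((Real.sqrt m * m) * ((m.divisors.card : ℝ) * (1 + Real.log m))) :=
        mul_le_mul_of_nonneg_left e3 (by positivity)
    _ = Real.sqrt m * m.divisors.card * (1 + Real.log m) := by
        field_simp

end Pool.Agent.H78.PG
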