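import Pool.Agent.H78.PG.TDefs

/-!
# LQ / PG, TPVa: the finite Fourier transform of a Dirichlet character (primitive or not)

`chat_sq`: (1) `‖χ̂(u h)‖ = ‖χ̂(h)‖` for units `u` (substitute `x ↦ u⁻¹ x`).  (2) Parseval over `ZMod m`:
`∑_h ‖χ̂(h)‖² = m ∑_x ‖χ x‖² ≤ m φ(m)`.  (3) For every `h` the set `{u h : u unit}` has at least `φ(m)/g` elements,
`g = gcd(h, m)`: `u h = u' h` iff `u ≡ u'` mod `m/g`, and at most `g` residues mod `m` lie in a class mod `m/g`.  Hence
`(φ(m)/g) ‖χ̂(h)‖² ≤ m φ(m)`.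
`inversion`: orthogonality of the additive characters (`AddChar.sum_eq_zero_of_ne_one`,
`ZMod.stdAddChar` primitive; or Mathlib `ZMod.dft` inversion `ZMod.invDFT_apply`).
-/

set_option autoImplicit false

namespace Pool.Agent.H78.PG

open Finset
open Pool.Agent.H34PG (lam lam_val lam_mul lam_prime)
open Pool.Agent.H11.LQ

/-- the finite Fourier transform of `χ` -/
noncomputable def chat (m : ℕ) [NeZero m] (χ : DirichletCharacter ℂ m) (h : ZMod m) : ℂ :=
  ∑ x : ZMod m, χ x * ZMod.stdAddChar (-(h * x))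

theorem chat_zero (m : ℕ) [NeZero m] (χ : DirichletCharacter ℂ m) (hχ : χ ≠ 1) :
    chat m χ 0 = 0 := by
  unfold chat
  simp only [zero_mul, neg_zero, AddChar.map_zero_eq_one, mul_one]
  exact MulChar.sum_eq_zero_of_ne_one hχ

theorem tpva_inv (m : ℕ) [NeZero m] (χ : DirichletCharacter ℂ m) (x : ZMod m) :
    χ x = (1 / (m : ℂ)) * ∑ h : ZMod m, chat m χ h * ZMod.stdAddChar (h * x) := by
  have h1 : ZMod.dft (fun y => χ y) = fun h => chat m χ h := by
    funext h
    rw [ZMod.dft_apply]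
    unfold chat
    apply Finset.sum_congr rfl
    intro y _
    rw [smul_eq_mul, mul_comm, mul_comm y h]
  have h2 : (ZMod.dft.symm (ZMod.dft (fun y => χ y))) x = χ x := by
    rw [LinearEquiv.symm_apply_apply]
  rw [h1, ZMod.invDFT_apply] at h2
  rw [← h2, smul_eq_mul, one_div]
  congr 1
  apply Finset.sum_congr rfl
  intro y _
  rw [smul_eq_mul, mul_comm]

theorem tpva_parseval (m : ℕ) [NeZero m] (χ : DirichletCharacter ℂ m) :
    ∑ h : ZMod m, ‖chat m χ h‖ ^ 2 = (m : ℝ) * ∑ x : ZMod m, ‖χ x‖ ^ 2 := by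
  have hm : (m : ℂ) ≠ 0 := Nat.cast_ne_zero.mpr (NeZero.ne m)
  have key : ∑ h : ZMod m, chat m χ h * (starRingEnd ℂ) (chat m χ h)
      = (m : ℂ) * ∑ x : ZMod m, χ x * (starRingEnd ℂ) (χ x) := by
    have e1 : ∀ h : ZMod m, (starRingEnd ℂ) (chat m χ h)
        = ∑ x : ZMod m, (starRingEnd ℂ) (χ x) * ZMod.stdAddChar (h * x) := by
      intro h
      unfold chat
      rw [map_sum]
      apply Finset.sum_congr rfl
      intro x _
      rw [map_mul, AddChar.map_neg_eq_conj, Complex.conj_conj]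
    simp only [e1, Finset.mul_sum]
    rw [Finset.sum_comm]
    apply Finset.sum_congr rfl
    intro x _
    have e2 := tpva_inv m χ x
    have e3 : (m : ℂ) * χ x = ∑ h : ZMod m, chat m χ h * ZMod.stdAddChar (h * x) := by
      rw [e2, ← mul_assoc, mul_one_div_cancel hm, one_mul]
    calc ∑ h : ZMod m, chat m χ h * ((starRingEnd ℂ) (χ x) * ZMod.stdAddChar (h * x))
        = (starRingEnd ℂ) (χ x) * ∑ h : ZMod m, chat m χ h * ZMod.stdAddChar (h * x) := by
          rw [Finset.mul_sum]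
          apply Finset.sum_congr rfl
          intro h _
          ring
      _ = (starRingEnd ℂ) (χ x) * ((m : ℂ) * χ x) := by rw [e3]
      _ = (m : ℂ) * (χ x * (starRingEnd ℂ) (χ x)) := by ring
  have c1 : ∀ z : ℂ, z * (starRingEnd ℂ) z = ((‖z‖ ^ 2 : ℝ) : ℂ) := by
    intro z
    rw [Complex.mul_conj, Complex.normSq_eq_norm_sq]
  simp only [c1] at key
  exact_mod_cast key

theorem tpva_norm_sq_sum (m : ℕ) [NeZero m] (χ : DirichletCharacter ℂ m) :
    ∑ x : ZMod m, ‖χ x‖ ^ 2 ≤ (m.totient : ℝ) := by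
  classical
  have h1 : ∀ x : ZMod m, ‖χ x‖ ^ 2 = if IsUnit x then (1 : ℝ) else 0 := by
    intro x
    split_ifs with hx
    · obtain ⟨u, rfl⟩ := hx
      rw [DirichletCharacter.unit_norm_eq_one χ u, one_pow]
    · rw [χ.map_nonunit hx, norm_zero]
      norm_num
  simp only [h1]
  rw [Finset.sum_ite, Finset.sum_const_zero, add_zero, Finset.sum_const, nsmul_eq_mul, mul_one]
  have h2 : (univ.filter (fun x : ZMod m => IsUnit x))
      = (univ : Finset (ZMod m)ˣ).image (fun u : (ZMod m)ˣ => (u : ZMod m)) := by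
    ext x
    simp only [mem_filter, mem_univ, true_and, mem_image]
    rfl
  rw [h2]
  have h3 : ((univ : Finset (ZMod m)ˣ).image (fun u : (ZMod m)ˣ => (u : ZMod m))).card
      ≤ (univ : Finset (ZMod m)ˣ).card := Finset.card_image_le
  rw [Finset.card_univ, ZMod.card_units_eq_totient] at h3
  exact_mod_cast h3

theorem tpva_unit (m : ℕ) [NeZero m] (χ : DirichletCharacter ℂ m) (u : (ZMod m)ˣ) (h : ZMod m) :
    ‖chat m χ ((u : ZMod m) * h)‖ = ‖chat m χ h‖ := by
  have e1 : χ (u : ZMod m) * chat m χ ((u : ZMod m) * h) = chat m χ h := by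
    unfold chat
    rw [Finset.mul_sum]
    rw [← Equiv.sum_comp (Units.mulLeft u) (fun x => χ x * ZMod.stdAddChar (-(h * x)))]
    apply Finset.sum_congr rfl
    intro x _
    rw [Units.mulLeft_apply, map_mul, ← mul_assoc]
    congr 2
    ring
  have e2 := DirichletCharacter.unit_norm_eq_one χ u
  rw [← e1, norm_mul, e2, one_mul]

theorem tpva_ann (m : ℕ) [NeZero m] (h : ZMod m) :
    (univ.filter (fun x : ZMod m => x * h = 0)).card ≤ Nat.gcd h.val m := by
  classical
  have hm : 0 < m := Nat.pos_of_ne_zero (NeZero.ne m)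
  set g := Nat.gcd h.val m with hg
  have hgpos : 0 < g := Nat.gcd_pos_of_pos_right _ hm
  have hgm : g ∣ m := Nat.gcd_dvd_right _ _
  have hgh : g ∣ h.val := Nat.gcd_dvd_left _ _
  have hmg : 0 < m / g := Nat.div_pos (Nat.le_of_dvd hm hgm) hgpos
  have hdiv : ∀ x : ZMod m, x * h = 0 → m / g ∣ x.val := by
    intro x hx
    have h1 : ((x.val * h.val : ℕ) : ZMod m) = 0 := by
      rw [Nat.cast_mul, ZMod.natCast_zmod_val, ZMod.natCast_zmod_val, hx]
    rw [ZMod.natCast_eq_zero_iff] at h1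
    have hcop : Nat.Coprime (m / g) (h.val / g) := (Nat.coprime_div_gcd_div_gcd hgpos).symm
    apply hcop.dvd_of_dvd_mul_right
    obtain ⟨c, hc⟩ := h1
    refine ⟨c, ?_⟩
    apply Nat.eq_of_mul_eq_mul_right hgpos
    calc x.val * (h.val / g) * g = x.val * (h.val / g * g) := by ring
      _ = x.val * h.val := by rw [Nat.div_mul_cancel hgh]
      _ = m * c := hc
      _ = (m / g * g) * c := by rw [Nat.div_mul_cancel hgm]
      _ = m / g * c * g := by ring
  have hcard : (univ.filter (fun x : ZMod m => x * h = 0)).card ≤ (Finset.range g).card := by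
    apply Finset.card_le_card_of_injOn (fun x => x.val / (m / g))
    · intro x hx
      rw [Finset.mem_coe, mem_filter] at hx
      rw [Finset.mem_coe, mem_range, Nat.div_lt_iff_lt_mul hmg, Nat.mul_div_cancel' hgm]
      exact ZMod.val_lt x
    · intro x hx y hy hxy
      rw [Finset.mem_coe, mem_filter] at hx hy
      have d1 := hdiv x hx.2
      have d2 := hdiv y hy.2
      apply ZMod.val_injective m
      have hxy' : x.val / (m / g) = y.val / (m / g) := hxy
      rw [← Nat.div_mul_cancel d1, ← Nat.div_mul_cancel d2, hxy']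
  rwa [Finset.card_range] at hcard

theorem tpva_orbit (m : ℕ) [NeZero m] (h : ZMod m) :
    m.totient ≤ ((univ : Finset (ZMod m)ˣ).image (fun u : (ZMod m)ˣ => (u : ZMod m) * h)).card
      * Nat.gcd h.val m := by
  classical
  have h1 : (univ : Finset (ZMod m)ˣ).card ≤ Nat.gcd h.val m *
      ((univ : Finset (ZMod m)ˣ).image (fun u : (ZMod m)ˣ => (u : ZMod m) * h)).card := by
    apply Finset.card_le_mul_card_image
    intro b hb
    rw [mem_image] at hb
    obtain ⟨u0, _, hu0⟩ := hb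
    refine le_trans ?_ (tpva_ann m h)
    apply Finset.card_le_card_of_injOn (fun u : (ZMod m)ˣ => (u : ZMod m) - (u0 : ZMod m))
    · intro u hu
      rw [Finset.mem_coe, mem_filter] at hu
      rw [Finset.mem_coe, mem_filter]
      refine ⟨mem_univ _, ?_⟩
      rw [sub_mul, hu.2, hu0, sub_self]
    · intro u _ v _ huv
      have h2 : (u : ZMod m) - (u0 : ZMod m) = (v : ZMod m) - (u0 : ZMod m) := huv
      exact Units.ext (sub_left_inj.mp h2)
  rw [Finset.card_univ, ZMod.card_units_eq_totient, mul_comm] at h1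
  exact h1

theorem chat_sq (m : ℕ) [NeZero m] (χ : DirichletCharacter ℂ m) (h : ZMod m) :
    ‖chat m χ h‖ ^ 2 ≤ (m : ℝ) * (Nat.gcd h.val m : ℕ) := by
  classical
  have hm : 0 < m := Nat.pos_of_ne_zero (NeZero.ne m)
  have hφ : (0 : ℝ) < (m.totient : ℝ) := Nat.cast_pos.mpr (Nat.totient_pos.mpr hm)
  set S := (univ : Finset (ZMod m)ˣ).image (fun u : (ZMod m)ˣ => (u : ZMod m) * h) with hS
  have h1 : (S.card : ℝ) * ‖chat m χ h‖ ^ 2 = ∑ k ∈ S, ‖chat m χ k‖ ^ 2 := by
    rw [Finset.sum_congr rfl (g := fun _ => ‖chat m χ h‖ ^ 2), Finset.sum_const, nsmul_eq_mul]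
    intro k hk
    rw [hS, mem_image] at hk
    obtain ⟨u, _, rfl⟩ := hk
    rw [tpva_unit]
  have h2 : ∑ k ∈ S, ‖chat m χ k‖ ^ 2 ≤ ∑ k : ZMod m, ‖chat m χ k‖ ^ 2 :=
    Finset.sum_le_sum_of_subset_of_nonneg (Finset.subset_univ S)
      (fun _ _ _ => sq_nonneg _)
  have h3 : ∑ k : ZMod m, ‖chat m χ k‖ ^ 2 ≤ (m : ℝ) * m.totient := by
    rw [tpva_parseval]
    exact mul_le_mul_of_nonneg_left (tpva_norm_sq_sum m χ) (Nat.cast_nonneg m)
  have h4 : (m.totient : ℝ) ≤ (S.card : ℝ) * (Nat.gcd h.val m : ℕ) := by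
    exact_mod_cast tpva_orbit m h
  have h5 : (S.card : ℝ) * ‖chat m χ h‖ ^ 2 ≤ (m : ℝ) * m.totient := by
    rw [h1]; exact h2.trans h3
  have hg0 : (0 : ℝ) ≤ ((Nat.gcd h.val m : ℕ) : ℝ) := Nat.cast_nonneg _
  have h6 : (m.totient : ℝ) * ‖chat m χ h‖ ^ 2
      ≤ (m.totient : ℝ) * ((m : ℝ) * (Nat.gcd h.val m : ℕ)) := by
    calc (m.totient : ℝ) * ‖chat m χ h‖ ^ 2
        ≤ ((S.card : ℝ) * (Nat.gcd h.val m : ℕ)) * ‖chat m χ h‖ ^ 2 :=
          mul_le_mul_of_nonneg_right h4 (sq_nonneg _)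
      _ = (Nat.gcd h.val m : ℕ) * ((S.card : ℝ) * ‖chat m χ h‖ ^ 2) := by ring
      _ ≤ (Nat.gcd h.val m : ℕ) * ((m : ℝ) * m.totient) := mul_le_mul_of_nonneg_left h5 hg0
      _ = (m.totient : ℝ) * ((m : ℝ) * (Nat.gcd h.val m : ℕ)) := by ring
  exact le_of_mul_le_mul_left h6 hφ

theorem inversion (m : ℕ) [NeZero m] (χ : DirichletCharacter ℂ m) (x : ZMod m) :
    χ x = (1 / (m : ℂ)) * ∑ h : ZMod m, chat m χ h * ZMod.stdAddChar (h * x) :=
  tpva_inv m χ x

end Pool.Agent.H78.PG
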