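import Pool.Agent.H78.PG.TDefs

/-!
# LQ / PG, TSplit: `n = d y` with `d | m^∞` and `y` prime to `m`

`split`: the map `(d, y) ↦ d y` is a bijection from `{(d,y) : d ∈ sm m M, y ∈ cop m (M/d)}` onto `[1, M]`
(`Finset.sum_sigma'`, `Finset.sum_bij'`; inverse: `cp m n = n / gcd(n, m^n)` is the part prime to `m`, or
`Nat.factoredNumbers`, or `∏ p ∈ n.primeFactors with p ∣ m, p^(v_p n)`).
`sm_sum`: `∑_{d ∈ sm m M} d^(-1/2) ≤ ∏_{p | m} ∑_k p^(-k/2)`: Mathlib
`EulerProduct.summable_and_hasSum_factoredNumbers_prod_filter_prime_geometric` with `s = m.primeFactors`,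
`f n = n^(-1/2)`; `sm m M ⊆ Nat.factoredNumbers m.primeFactors`.
-/

set_option autoImplicit false

namespace Pool.Agent.H78.PG

open Finset
open Pool.Agent.H34PG (lam lam_val lam_mul lam_prime)
open Pool.Agent.H11.LQ

open Classical in
/-- the numbers up to `M` all of whose prime factors divide `m` -/
noncomputable def sm (m M : ℕ) : Finset ℕ :=
  (Icc 1 M).filter (fun d => ∀ p : ℕ, p.Prime → p ∣ d → p ∣ m)

open Classical in
theorem mem_sm {m M d : ℕ} :
    d ∈ sm m M ↔ (1 ≤ d ∧ d ≤ M) ∧ ∀ p : ℕ, p.Prime → p ∣ d → p ∣ m := by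
  unfold sm
  rw [mem_filter, mem_Icc]

/-- existence of the decomposition -/
private theorem tsplit_exists (m : ℕ) (n : ℕ) (hn : n ≠ 0) :
    ∃ d y : ℕ, d * y = n ∧ (∀ p : ℕ, p.Prime → p ∣ d → p ∣ m) ∧ y.Coprime m := by
  induction n using Nat.recOnMul with
  | zero => exact absurd rfl hn
  | one =>
    exact ⟨1, 1, rfl, fun p hp h => absurd (Nat.dvd_one.mp h) hp.one_lt.ne',
      Nat.coprime_one_left m⟩
  | prime p hp =>
    by_cases h : p ∣ m
    · refine ⟨p, 1, mul_one p, fun q hq hqp => ?_, Nat.coprime_one_left m⟩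
      rw [(Nat.prime_dvd_prime_iff_eq hq hp).mp hqp]
      exact h
    · exact ⟨1, p, one_mul p, fun q hq h => absurd (Nat.dvd_one.mp h) hq.one_lt.ne',
        (Nat.Prime.coprime_iff_not_dvd hp).mpr h⟩
  | mul a b ha hb =>
    obtain ⟨d, y, h1, h2, h3⟩ := ha (fun h => hn (by rw [h, zero_mul]))
    obtain ⟨e, z, g1, g2, g3⟩ := hb (fun h => hn (by rw [h, mul_zero]))
    refine ⟨d * e, y * z, ?_, fun p hp hpd => ?_, Nat.Coprime.mul_left h3 g3⟩
    · rw [← h1, ← g1]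
      ring
    · rcases (Nat.Prime.dvd_mul hp).mp hpd with h | h
      · exact h2 p hp h
      · exact g2 p hp h

/-- a number all of whose prime factors divide `m` is prime to a number prime to `m` -/
private theorem tsplit_coprime {m d y : ℕ} (hd : ∀ p : ℕ, p.Prime → p ∣ d → p ∣ m)
    (hy : y.Coprime m) : d.Coprime y := by
  by_contra h
  obtain ⟨p, hp, h1, h2⟩ := Nat.Prime.not_coprime_iff_dvd.mp h
  exact Nat.Prime.not_coprime_iff_dvd.mpr ⟨p, hp, h2, hd p hp h1⟩ hy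

/-- uniqueness of the decomposition -/
private theorem tsplit_unique {m d y e z : ℕ} (hd : ∀ p : ℕ, p.Prime → p ∣ d → p ∣ m)
    (hy : y.Coprime m) (he : ∀ p : ℕ, p.Prime → p ∣ e → p ∣ m) (hz : z.Coprime m)
    (h : d * y = e * z) : d = e := by
  apply Nat.dvd_antisymm
  · exact (tsplit_coprime hd hz).dvd_of_dvd_mul_right (h ▸ dvd_mul_right d y)
  · exact (tsplit_coprime he hy).dvd_of_dvd_mul_right (h ▸ dvd_mul_right e z)

theorem split {E : Type*} [AddCommMonoid E] (m M : ℕ) (hm : 1 ≤ m) (f : ℕ → E) :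
    ∑ n ∈ Icc 1 M, f n = ∑ d ∈ sm m M, ∑ y ∈ cop m (M / d), f (d * y) := by
  rw [Finset.sum_sigma']
  symm
  apply Finset.sum_nbij (fun x : (_ : ℕ) × ℕ => x.1 * x.2)
  · rintro ⟨d, y⟩ h
    rw [mem_sigma, mem_sm, mem_cop] at h
    obtain ⟨⟨⟨h1, h2⟩, h3⟩, h4, h5, h6⟩ := h
    simp only at h1 h2 h3 h4 h5 h6 ⊢
    rw [mem_Icc]
    refine ⟨Nat.mul_pos h1 h4, ?_⟩
    calc d * y ≤ d * (M / d) := Nat.mul_le_mul_left d h5
      _ ≤ M := Nat.mul_div_le M d
  · rintro ⟨d, y⟩ h ⟨e, z⟩ g heq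
    rw [mem_coe, mem_sigma, mem_sm, mem_cop] at h g
    obtain ⟨⟨⟨h1, h2⟩, h3⟩, h4, h5, h6⟩ := h
    obtain ⟨⟨⟨g1, g2⟩, g3⟩, g4, g5, g6⟩ := g
    simp only at h1 h2 h3 h4 h5 h6 g1 g2 g3 g4 g5 g6 heq
    have h7 : d = e := tsplit_unique h3 h6 g3 g6 heq
    subst h7
    have h8 : y = z := Nat.eq_of_mul_eq_mul_left h1 heq
    subst h8
    rfl
  · intro n hn
    rw [mem_coe, mem_Icc] at hn
    obtain ⟨d, y, h1, h2, h3⟩ := tsplit_exists m n (by omega)
    have hd : d ≠ 0 := fun h => by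
      rw [h, zero_mul] at h1
      omega
    have hy : y ≠ 0 := fun h => by
      rw [h, mul_zero] at h1
      omega
    have hdn : d ≤ n := by
      rw [← h1]
      exact Nat.le_mul_of_pos_right d (Nat.pos_of_ne_zero hy)
    refine ⟨⟨d, y⟩, ?_, h1⟩
    rw [mem_coe, mem_sigma, mem_sm, mem_cop]
    refine ⟨⟨⟨Nat.pos_of_ne_zero hd, hdn.trans hn.2⟩, h2⟩, Nat.pos_of_ne_zero hy, ?_, h3⟩
    show y ≤ M / d
    rw [Nat.le_div_iff_mul_le (Nat.pos_of_ne_zero hd), mul_comm, h1]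
    exact hn.2
  · intro x _
    rfl

/-- the completely multiplicative function `n ↦ n^(-1/2)` -/
private noncomputable def tsplitF : ℕ →* ℝ where
  toFun n := (n : ℝ) ^ (-(1 / 2 : ℝ))
  map_one' := by
    rw [Nat.cast_one, Real.one_rpow]
  map_mul' a b := by
    rw [Nat.cast_mul, Real.mul_rpow (Nat.cast_nonneg a) (Nat.cast_nonneg b)]

theorem sm_sum (m M : ℕ) (hm : 1 ≤ m) :
    ∑ d ∈ sm m M, (d : ℝ) ^ (-(1 / 2 : ℝ))
      ≤ ∏ p ∈ m.primeFactors, (1 - (p : ℝ) ^ (-(1 / 2 : ℝ)))⁻¹ := by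
  have hlt : ∀ {p : ℕ}, p.Prime → ‖tsplitF p‖ < 1 := by
    intro p hp
    show ‖(p : ℝ) ^ (-(1 / 2 : ℝ))‖ < 1
    have h1 : (1 : ℝ) < p := by exact_mod_cast hp.one_lt
    rw [Real.norm_of_nonneg (Real.rpow_nonneg (by linarith) _)]
    exact Real.rpow_lt_one_of_one_lt_of_neg h1 (by norm_num)
  obtain ⟨-, hs⟩ :=
    EulerProduct.summable_and_hasSum_factoredNumbers_prod_filter_prime_geometric hlt
      m.primeFactors
  have hfil : m.primeFactors.filter (fun p => p.Prime) = m.primeFactors :=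
    filter_true_of_mem fun p hp => Nat.prime_of_mem_primeFactors hp
  rw [hfil] at hs
  have hmem : ∀ d ∈ sm m M, d ∈ Nat.factoredNumbers m.primeFactors := by
    intro d hd
    rw [mem_sm] at hd
    rw [Nat.mem_factoredNumbers']
    intro p hp hpd
    exact Nat.mem_primeFactors.mpr ⟨hp, hd.2 p hp hpd, by omega⟩
  have h2 : ∑ d ∈ sm m M, (d : ℝ) ^ (-(1 / 2 : ℝ))
      = ∑ x ∈ (sm m M).attach.image
          (fun d => (⟨d.1, hmem d.1 d.2⟩ : Nat.factoredNumbers m.primeFactors)),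
          tsplitF (x : ℕ) := by
    rw [sum_image]
    · rw [← sum_attach]
      rfl
    · intro a _ b _ hab
      exact Subtype.ext (congrArg (fun z : Nat.factoredNumbers m.primeFactors => (z : ℕ)) hab)
  rw [h2]
  refine (sum_le_hasSum _ (fun x _ => ?_) hs).trans_eq rfl
  exact Real.rpow_nonneg (Nat.cast_nonneg _) _

end Pool.Agent.H78.PG
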