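import Pool.Agent.H78.PG.TSup

/-!
# LQ / PG, TSup2: properties of the auxiliary products

`SS_prop`: `s = ∏ p ∈ A, p`, `A ⊆ PB`, `#A = j`.  `lam s = (-1)^j`, `χ s = ∏ χ p`; `‖χ s - (-1)^j‖ ≤ ∑_{p ∈ A} ‖χ p + 1‖` since all
factors have norm `≤ 1` (induction over `A`).
`SS_div`: the elements of `SS` dividing `y` are divisors of `y`: `div_le'`.
-/

set_option autoImplicit false

namespace Pool.Agent.H78.PG

open Finset
open Pool.Agent.H34PG (lam lam_val lam_mul lam_prime)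
open Pool.Agent.H11.LQ

theorem tsup2_lam {A : Finset ℕ} (hA : ∀ p ∈ A, p.Prime) :
    lam (∏ p ∈ A, p) = (-1) ^ A.card := by
  classical
  induction A using Finset.induction_on with
  | empty => simp [Pool.Agent.H34PG.lam_one]
  | insert a s ha ih =>
    rw [Finset.prod_insert ha, Finset.card_insert_of_notMem ha, lam_mul, lam_prime, ih, pow_succ]
    · ring
    · exact fun p hp => hA p (Finset.mem_insert_of_mem hp)
    · exact hA a (Finset.mem_insert_self _ _)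
    · exact (hA a (Finset.mem_insert_self _ _)).pos
    · exact Finset.prod_pos fun p hp => (hA p (Finset.mem_insert_of_mem hp)).pos

theorem tsup2_chi {m : ℕ} [NeZero m] (χ : DirichletCharacter ℂ m) {ε : ℝ} {A : Finset ℕ}
    (hA : ∀ p ∈ A, ‖χ (p : ZMod m) + 1‖ ≤ ε) :
    ‖χ ((∏ p ∈ A, p : ℕ) : ZMod m) - (-1) ^ A.card‖ ≤ A.card * ε := by
  classical
  induction A using Finset.induction_on with
  | empty => simp
  | insert a s ha ih =>
    have h1 := ih fun p hp => hA p (Finset.mem_insert_of_mem hp)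
    have h2 := hA a (Finset.mem_insert_self _ _)
    rw [Finset.prod_insert ha, Finset.card_insert_of_notMem ha, Nat.cast_mul, map_mul]
    set P : ℂ := χ ((∏ p ∈ s, p : ℕ) : ZMod m) with hP
    have h3 : ‖P‖ ≤ 1 := DirichletCharacter.norm_le_one χ _
    have e1 : χ (a : ZMod m) * P - (-1) ^ (s.card + 1)
        = (χ (a : ZMod m) + 1) * P - (P - (-1) ^ s.card) := by
      rw [pow_succ]
      ring
    rw [e1]
    calc ‖(χ (a : ZMod m) + 1) * P - (P - (-1) ^ s.card)‖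
        ≤ ‖(χ (a : ZMod m) + 1) * P‖ + ‖P - (-1) ^ s.card‖ := norm_sub_le _ _
      _ ≤ ε * 1 + s.card * ε := by
          refine add_le_add ?_ h1
          rw [norm_mul]
          exact mul_le_mul h2 h3 (norm_nonneg _) (le_trans (norm_nonneg _) h2)
      _ = ((s.card + 1 : ℕ) : ℝ) * ε := by
          push_cast
          ring

theorem SS_prop {δ : ℝ} {m : ℕ} [NeZero m] {j s : ℕ} (hs : s ∈ SS δ m j) :
    s.Coprime m ∧ 1 ≤ s ∧ s ≤ BB δ m ^ j ∧ lam s = (-1) ^ j ∧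
      ∀ χ ∈ XX δ m, ‖χ (s : ZMod m) - (-1) ^ j‖ ≤ j * (m : ℝ) ^ (-(δ / 4)) := by
  unfold SS at hs
  rw [Finset.mem_image] at hs
  obtain ⟨A, hA, rfl⟩ := hs
  rw [Finset.mem_powersetCard] at hA
  obtain ⟨hA1, rfl⟩ := hA
  have hP : ∀ p ∈ A, p ≤ BB δ m ∧ p.Prime ∧ ¬ p ∣ m := fun p hp => mem_PB.mp (hA1 hp)
  refine ⟨?_, ?_, ?_, ?_, ?_⟩
  · exact Nat.Coprime.prod_left fun p hp => ((hP p hp).2.1.coprime_iff_not_dvd).mpr (hP p hp).2.2
  · exact Finset.prod_pos fun p hp => (hP p hp).2.1.pos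
  · exact Finset.prod_le_pow_card _ _ _ fun p hp => (hP p hp).1
  · exact tsup2_lam fun p hp => (hP p hp).2.1
  · intro χ hχ
    rw [mem_XX] at hχ
    exact tsup2_chi χ fun p hp => hχ p (hP p hp).2.1 (hP p hp).1 (hP p hp).2.2

theorem SS_div (θ : ℝ) (hθ : 0 < θ) : ∃ m0 : ℕ, ∀ m : ℕ, m0 ≤ m → ∀ δ : ℝ, ∀ j y : ℕ, 1 ≤ y →
    y ≤ m → (((SS δ m j).filter (fun s => s ∣ y)).card : ℝ) ≤ (m : ℝ) ^ θ := by
  obtain ⟨m0, hm0⟩ := div_le' θ hθ
  refine ⟨m0, fun m hm δ j y hy hym => ?_⟩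
  refine le_trans ?_ (hm0 m hm y hy hym)
  have h1 : (SS δ m j).filter (fun s => s ∣ y) ⊆ y.divisors := by
    intro s hs
    rw [Finset.mem_filter] at hs
    rw [Nat.mem_divisors]
    exact ⟨hs.2, by omega⟩
  exact_mod_cast Finset.card_le_card h1

end Pool.Agent.H78.PG
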