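import Pool.Agent.H78.PG.TSup2
import Pool.Agent.H78.PG.TFour

/-!
# LQ / PG, TXc: the number of characters in `XX`

`ortho_sum` with `S = SS δ m (rr δ)` (elements in `[1, BB^rr]`, `BB^rr ≤ m`, prime to `m`: `SS_prop`, `BB_low`); for `χ ∈ XX`:
`‖∑_S χ s‖ ≥ #S (1 - rr m^(-δ/4)) ≥ #S/2` for large `m` (`SS_prop`), so `#XX (#S)²/4 ≤ φ(m) #S ≤ m #S`, and
`#S ≥ BB^rr m^(-δ/50) ≥ m 2^(-rr) m^(-δ/50)` (`SS_card`, `BB_low`); `4 * 2^rr * m^(δ/50) ≤ m^(δ/40)` (`grow`).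
-/

set_option autoImplicit false

namespace Pool.Agent.H78.PG

open Finset
open Pool.Agent.H34PG (lam lam_val lam_mul lam_prime)
open Pool.Agent.H11.LQ

private lemma txc_low (δ : ℝ) (m : ℕ) [NeZero m] (hrr : (rr δ : ℝ) * (m : ℝ) ^ (-(δ / 4)) ≤ 1 / 2)
    (χ : DirichletCharacter ℂ m) (hχ : χ ∈ XX δ m) :
    ((SS δ m (rr δ)).card : ℝ) / 2 ≤ ‖∑ s ∈ SS δ m (rr δ), χ (s : ZMod m)‖ := by
  have h1 : ‖∑ s ∈ SS δ m (rr δ), (χ (s : ZMod m) - (-1) ^ (rr δ))‖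
      ≤ ((SS δ m (rr δ)).card : ℝ) * (1 / 2) := by
    calc ‖∑ s ∈ SS δ m (rr δ), (χ (s : ZMod m) - (-1) ^ (rr δ))‖
        ≤ ∑ s ∈ SS δ m (rr δ), ‖χ (s : ZMod m) - (-1) ^ (rr δ)‖ := norm_sum_le _ _
      _ ≤ ∑ _s ∈ SS δ m (rr δ), (1 / 2 : ℝ) :=
          Finset.sum_le_sum fun s hs => ((SS_prop hs).2.2.2.2 χ hχ).trans hrr
      _ = ((SS δ m (rr δ)).card : ℝ) * (1 / 2) := by rw [sum_const, nsmul_eq_mul]
  have h2 : ‖∑ _s ∈ SS δ m (rr δ), ((-1 : ℂ) ^ (rr δ))‖ = ((SS δ m (rr δ)).card : ℝ) := by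
    rw [sum_const, nsmul_eq_mul, norm_mul, norm_pow, norm_neg, norm_one, one_pow, mul_one,
      Complex.norm_natCast]
  have h3 : ∑ _s ∈ SS δ m (rr δ), ((-1 : ℂ) ^ (rr δ))
      = ∑ s ∈ SS δ m (rr δ), χ (s : ZMod m)
        - ∑ s ∈ SS δ m (rr δ), (χ (s : ZMod m) - (-1) ^ (rr δ)) := by
    rw [← sum_sub_distrib]
    exact sum_congr rfl fun s _ => by ring
  have h4 := norm_sub_le (∑ s ∈ SS δ m (rr δ), χ (s : ZMod m))
    (∑ s ∈ SS δ m (rr δ), (χ (s : ZMod m) - (-1) ^ (rr δ)))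
  rw [← h3, h2] at h4
  linarith

theorem X_card (δ : ℝ) (h0 : 0 < δ) (h1 : δ ≤ 1 / 100) : ∃ m0 : ℕ, ∀ (m : ℕ) [NeZero m],
    m0 ≤ m → ((XX δ m).card : ℝ) ≤ (m : ℝ) ^ (δ / 40) := by
  obtain ⟨m1, H1⟩ := BB_low δ h0 h1
  obtain ⟨m2, H2⟩ := SS_card δ h0 h1
  obtain ⟨m3, H3⟩ := grow (2 * (rr δ : ℝ)) 0 (δ / 4) (by linarith)
  obtain ⟨m4, H4⟩ := grow (4 * 2 ^ rr δ : ℝ) 0 (δ / 200) (by linarith)
  refine ⟨m1 + m2 + m3 + m4 + 1, fun m hm0 hm => ?_⟩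
  obtain ⟨hB2, -, hBm, hmB, -⟩ := H1 m (by omega)
  have hS := H2 m (by omega) (rr δ) le_rfl
  have g3 := H3 m (by omega)
  have g4 := H4 m (by omega)
  rw [pow_zero, mul_one] at g3 g4
  have hmpos : (0 : ℝ) < m := by
    have : 0 < m := by omega
    exact_mod_cast this
  have hrr : (rr δ : ℝ) * (m : ℝ) ^ (-(δ / 4)) ≤ 1 / 2 := by
    rw [Real.rpow_neg hmpos.le, ← div_eq_mul_inv, div_le_iff₀ (Real.rpow_pos_of_pos hmpos _)]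
    linarith
  set T : ℝ := ((SS δ m (rr δ)).card : ℝ) with hT
  have hTpos : 0 < T := by
    refine lt_of_lt_of_le (mul_pos (pow_pos ?_ _) (Real.rpow_pos_of_pos hmpos _)) hS
    exact_mod_cast (show 0 < BB δ m by omega)
  have e1 := ortho_sum m (SS δ m (rr δ)) fun s hs => by
    have h := SS_prop hs
    exact ⟨h.1, h.2.1, h.2.2.1.trans hBm⟩
  rw [← hT] at e1
  have e2 : ((XX δ m).card : ℝ) * (T / 2) ^ 2 ≤ (m.totient : ℝ) * T := by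
    rw [← e1]
    calc ((XX δ m).card : ℝ) * (T / 2) ^ 2 = ∑ _χ ∈ XX δ m, (T / 2) ^ 2 := by
          rw [sum_const, nsmul_eq_mul]
      _ ≤ ∑ χ ∈ XX δ m, ‖∑ s ∈ SS δ m (rr δ), χ (s : ZMod m)‖ ^ 2 :=
          Finset.sum_le_sum fun χ hχ =>
            pow_le_pow_left₀ (by positivity) (txc_low δ m hrr χ hχ) 2
      _ ≤ ∑ χ : DirichletCharacter ℂ m, ‖∑ s ∈ SS δ m (rr δ), χ (s : ZMod m)‖ ^ 2 :=
          Finset.sum_le_univ_sum_of_nonneg fun χ => by positivity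
  have e3 : (m.totient : ℝ) * T ≤ m * T :=
    mul_le_mul_of_nonneg_right (by exact_mod_cast Nat.totient_le m) hTpos.le
  have e4 : ((XX δ m).card : ℝ) * T ≤ 4 * m := by
    have : ((XX δ m).card : ℝ) * T * T ≤ 4 * m * T := by nlinarith [e2, e3]
    exact le_of_mul_le_mul_right this hTpos
  have e5 : (m : ℝ) * (m : ℝ) ^ (-(δ / 50)) ≤ 2 ^ rr δ * T := by
    calc (m : ℝ) * (m : ℝ) ^ (-(δ / 50))
        ≤ (2 ^ rr δ * (BB δ m : ℝ) ^ rr δ) * (m : ℝ) ^ (-(δ / 50)) :=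
          mul_le_mul_of_nonneg_right hmB (Real.rpow_nonneg hmpos.le _)
      _ = 2 ^ rr δ * ((BB δ m : ℝ) ^ rr δ * (m : ℝ) ^ (-(δ / 50))) := by ring
      _ ≤ 2 ^ rr δ * T := mul_le_mul_of_nonneg_left hS (by positivity)
  have e6 : (m : ℝ) ≤ 2 ^ rr δ * T * (m : ℝ) ^ (δ / 50) := by
    have h := mul_le_mul_of_nonneg_right e5 (Real.rpow_nonneg hmpos.le (δ / 50))
    rw [mul_assoc, ← Real.rpow_add hmpos, neg_add_cancel, Real.rpow_zero, mul_one] at h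
    exact h
  have e7 : ((XX δ m).card : ℝ) * T ≤ (4 * 2 ^ rr δ * (m : ℝ) ^ (δ / 50)) * T := by
    calc ((XX δ m).card : ℝ) * T ≤ 4 * m := e4
      _ ≤ 4 * (2 ^ rr δ * T * (m : ℝ) ^ (δ / 50)) := by linarith
      _ = (4 * 2 ^ rr δ * (m : ℝ) ^ (δ / 50)) * T := by ring
  have e8 := le_of_mul_le_mul_right e7 hTpos
  refine e8.trans ((mul_le_mul_of_nonneg_right g4 (Real.rpow_nonneg hmpos.le _)).trans ?_)
  rw [← Real.rpow_add hmpos]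
  exact le_of_eq (by congr 1; ring)

end Pool.Agent.H78.PG
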