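import Pool.Agent.H78.PG.TW
import Pool.Agent.H78.PG.TXc

/-!
# LQ / PG, TT4: `λ` is close to `GG` in mean square on ALL intervals `[1, M]`

Let `B = BB`, `r = rr`, `j` the largest number with `2 M B^j ≤ m` (`j ≤ r` since `m < B^(r+1)`, `BB_low`); so
`m < 2 M B^(j+1)`.  For `s ∈ SS j` and `x ∈ cop m M`: `s x ≤ B^j M ≤ m/2`, so `F(s x) = λ(s x) = (-1)^j λ(x)`
(`F_small`), and `‖GG(s x) - (-1)^j GG(x)‖ ≤ ∑_{XX} ‖cc‖ ‖χ s - (-1)^j‖ ≤ r m^(-δ/4) (#XX)^(1/2) ≤ r m^(-δ/4 + δ/80) =: e`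
(`SS_prop`, Cauchy, `weight_one`, `X_card`).  Hence `‖λ(x) - GG(x)‖² ≤ 2 ‖F(s x) - GG(s x)‖² + 2 e²`.  Sum over `s`
and `x`; every `y ≤ m/2` prime to `m` is `s x` for at most `m^(δ/200)` values `s` (`SS_div`), so
`#SS_j ∑_x ‖λ - GG‖² ≤ 2 m^(δ/200) ∑_{y ∈ cop m (m/2)} ‖F(y) - GG(y)‖² + 2 #SS_j M e²`, and
`∑_y ‖F - GG‖² ≤ φ(m) ∑_{χ ∉ XX} ‖cc‖² ≤ m^(1-δ/4)` (`part_sum`, `weight`; `y ↦` unit of `ZMod m` injective on
`cop m (m/2)`).  `#SS_j ≥ B^j m^(-δ/50) ≥ (m/(2 M B)) m^(-δ/50)`, `B ≤ m^(δ/200)`: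
`∑_x ≤ 4 M m^(δ/200 + δ/200 + δ/50 - δ/4) + 2 M e² ≤ M m^(-δ/5)`.
-/

set_option autoImplicit false

namespace Pool.Agent.H78.PG

open Finset
open Pool.Agent.H34PG (lam lam_val lam_mul lam_prime)
open Pool.Agent.H11.LQ

/-- double counting of the products `s x` -/
theorem tt4_sum_le (S C D : Finset ℕ) (h : ℕ → ℝ) (K : ℝ) (hh : ∀ y, 0 ≤ h y)
    (hS : ∀ s ∈ S, 1 ≤ s) (hD : ∀ s ∈ S, ∀ x ∈ C, s * x ∈ D)
    (hK : ∀ y ∈ D, ((S.filter (fun s => s ∣ y)).card : ℝ) ≤ K) :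
    ∑ s ∈ S, ∑ x ∈ C, h (s * x) ≤ K * ∑ y ∈ D, h y := by
  classical
  have e1 : ∀ s ∈ S, ∑ x ∈ C, h (s * x) ≤ ∑ y ∈ D, if s ∣ y then h y else 0 := by
    intro s hs
    have e2 : ∑ x ∈ C, h (s * x) = ∑ y ∈ C.image (fun x => s * x), h y := by
      rw [sum_image]
      intro a _ b _ hab
      exact Nat.eq_of_mul_eq_mul_left (hS s hs) hab
    rw [e2, ← sum_filter]
    refine sum_le_sum_of_subset_of_nonneg ?_ (fun y _ _ => hh y)
    intro y hy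
    rw [mem_image] at hy
    obtain ⟨x, hx, rfl⟩ := hy
    rw [mem_filter]
    exact ⟨hD s hs x hx, dvd_mul_right _ _⟩
  calc ∑ s ∈ S, ∑ x ∈ C, h (s * x) ≤ ∑ s ∈ S, ∑ y ∈ D, (if s ∣ y then h y else 0) :=
        sum_le_sum e1
    _ = ∑ y ∈ D, ∑ s ∈ S, (if s ∣ y then h y else 0) := sum_comm
    _ = ∑ y ∈ D, ((S.filter (fun s => s ∣ y)).card : ℝ) * h y := by
        refine sum_congr rfl (fun y _ => ?_)
        rw [← sum_filter, sum_const, nsmul_eq_mul]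
    _ ≤ ∑ y ∈ D, K * h y := sum_le_sum fun y hy => mul_le_mul_of_nonneg_right (hK y hy) (hh y)
    _ = K * ∑ y ∈ D, h y := by rw [mul_sum]

/-- sums over numbers prime to `m` and sums over the unit group -/
theorem tt4_units (m : ℕ) [NeZero m] (hm : 2 ≤ m) (g : ZMod m → ℝ) (hg : ∀ z, 0 ≤ g z) :
    ∑ y ∈ cop m (m / 2), g (y : ZMod m) ≤ ∑ u : (ZMod m)ˣ, g (u : ZMod m) := by
  classical
  let f : ℕ → (ZMod m)ˣ := fun y => if h : y.Coprime m then ZMod.unitOfCoprime y h else 1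
  have hf : ∀ y ∈ cop m (m / 2), ((f y : (ZMod m)ˣ) : ZMod m) = (y : ZMod m) := by
    intro y hy
    have h := (mem_cop.mp hy).2.2
    simp only [f, dif_pos h, ZMod.coe_unitOfCoprime]
  have e1 : ∑ y ∈ cop m (m / 2), g (y : ZMod m) = ∑ u ∈ (cop m (m / 2)).image f, g (u : ZMod m) := by
    rw [sum_image]
    · exact sum_congr rfl fun y hy => by rw [hf y hy]
    · intro a ha b hb hab
      have ha1 := mem_cop.mp (mem_coe.mp ha)
      have hb1 := mem_cop.mp (mem_coe.mp hb)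
      have h1 : (a : ZMod m) = (b : ZMod m) := by
        rw [← hf a (mem_coe.mp ha), ← hf b (mem_coe.mp hb), hab]
      rw [ZMod.natCast_eq_natCast_iff'] at h1
      rwa [Nat.mod_eq_of_lt (by omega), Nat.mod_eq_of_lt (by omega)] at h1
  rw [e1]
  exact sum_le_sum_of_subset_of_nonneg (subset_univ _) fun _ _ _ => hg _

/-- the main part at `s x` and at `x` -/
theorem tt4_GG (δ : ℝ) (m : ℕ) [NeZero m] (hm : 2 ≤ m) (η : ℤ) (hη : η = 1 ∨ η = -1)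
    (j r s x : ℕ) (hjr : j ≤ r) (hs : s ∈ SS δ m j) :
    ‖GG δ m η (s * x) - (-1) ^ j * GG δ m η x‖ ^ 2
      ≤ (r * (m : ℝ) ^ (-(δ / 4))) ^ 2 * (XX δ m).card := by
  obtain ⟨_, _, _, _, h5⟩ := SS_prop hs
  set a : ℝ := r * (m : ℝ) ^ (-(δ / 4)) with ha
  have ha0 : 0 ≤ a := by rw [ha]; positivity
  have e1 : GG δ m η (s * x) - (-1) ^ j * GG δ m η x
      = ∑ χ ∈ XX δ m, cc m (FC m η) χ * (χ (s : ZMod m) - (-1) ^ j) * χ (x : ZMod m) := by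
    unfold GG
    rw [mul_sum, ← sum_sub_distrib]
    refine sum_congr rfl fun χ _ => ?_
    rw [Nat.cast_mul, map_mul]
    ring
  have e2 : ‖GG δ m η (s * x) - (-1) ^ j * GG δ m η x‖
      ≤ a * ∑ χ ∈ XX δ m, ‖cc m (FC m η) χ‖ := by
    rw [e1, mul_sum]
    refine (norm_sum_le _ _).trans (sum_le_sum fun χ hχ => ?_)
    rw [norm_mul, norm_mul]
    have h6 := h5 χ hχ
    have h7 : ‖χ (x : ZMod m)‖ ≤ 1 := DirichletCharacter.norm_le_one χ _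
    have h8 : (j : ℝ) * (m : ℝ) ^ (-(δ / 4)) ≤ a := by
      rw [ha]
      gcongr
    calc ‖cc m (FC m η) χ‖ * ‖χ (s : ZMod m) - (-1) ^ j‖ * ‖χ (x : ZMod m)‖
        ≤ ‖cc m (FC m η) χ‖ * a * 1 := by
          have := h6.trans h8
          gcongr
      _ = a * ‖cc m (FC m η) χ‖ := by ring
  have e3 : (∑ χ ∈ XX δ m, ‖cc m (FC m η) χ‖) ^ 2 ≤ (XX δ m).card := by
    have h6 := sq_sum_le_card_mul_sum_sq (s := XX δ m) (f := fun χ => ‖cc m (FC m η) χ‖)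
    have h7 : ∑ χ ∈ XX δ m, ‖cc m (FC m η) χ‖ ^ 2 ≤ 1 := by
      rw [← weight_one m hm η hη]
      exact sum_le_sum_of_subset_of_nonneg (subset_univ _) fun _ _ _ => by positivity
    have h8 : (0 : ℝ) ≤ ((XX δ m).card : ℝ) := by positivity
    calc (∑ χ ∈ XX δ m, ‖cc m (FC m η) χ‖) ^ 2
        ≤ ((XX δ m).card : ℝ) * ∑ χ ∈ XX δ m, ‖cc m (FC m η) χ‖ ^ 2 := h6
      _ ≤ ((XX δ m).card : ℝ) * 1 := by gcongr
      _ = (XX δ m).card := mul_one _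
  calc ‖GG δ m η (s * x) - (-1) ^ j * GG δ m η x‖ ^ 2
      ≤ (a * ∑ χ ∈ XX δ m, ‖cc m (FC m η) χ‖) ^ 2 := by gcongr
    _ = a ^ 2 * (∑ χ ∈ XX δ m, ‖cc m (FC m η) χ‖) ^ 2 := by ring
    _ ≤ a ^ 2 * (XX δ m).card := by gcongr

/-- the pointwise comparison -/
theorem tt4_point (δ : ℝ) (m : ℕ) [NeZero m] (hm : 2 ≤ m) (η : ℤ) (hη : η = 1 ∨ η = -1)
    (j r s x M : ℕ) (hjr : j ≤ r) (hs : s ∈ SS δ m j) (hx : x ∈ cop m M)
    (hj : 2 * M * BB δ m ^ j ≤ m) :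
    ‖((lam x : ℤ) : ℂ) - GG δ m η x‖ ^ 2
      ≤ 2 * ‖FC m η ((s * x : ℕ) : ZMod m) - GG δ m η (s * x)‖ ^ 2
        + 2 * ((r * (m : ℝ) ^ (-(δ / 4))) ^ 2 * (XX δ m).card) := by
  have hG := tt4_GG δ m hm η hη j r s x hjr hs
  obtain ⟨_, h2, h3, h4, _⟩ := SS_prop hs
  obtain ⟨hx1, hx2, _⟩ := mem_cop.mp hx
  have h6 : 2 * (s * x) ≤ m := by
    calc 2 * (s * x) ≤ 2 * (BB δ m ^ j * M) := by gcongr
      _ = 2 * M * BB δ m ^ j := by ring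
      _ ≤ m := hj
  have h7 : FC m η ((s * x : ℕ) : ZMod m) = (-1) ^ j * ((lam x : ℤ) : ℂ) := by
    rw [FC_natCast, F_small (Nat.mul_pos h2 hx1) h6, lam_mul s x h2 hx1, h4]
    push_cast
    ring
  have h8 : ((-1 : ℂ) ^ j) * (-1) ^ j = 1 := by
    rw [← mul_pow]
    norm_num
  have h9 : ((lam x : ℤ) : ℂ) - GG δ m η x
      = (-1) ^ j * ((FC m η ((s * x : ℕ) : ZMod m) - GG δ m η (s * x))
        + (GG δ m η (s * x) - (-1) ^ j * GG δ m η x)) := by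
    rw [h7]
    linear_combination (-(((lam x : ℤ) : ℂ) - GG δ m η x)) * h8
  rw [h9, norm_mul, norm_pow, norm_neg, norm_one, one_pow, one_mul]
  have h10 := norm_add_le (FC m η ((s * x : ℕ) : ZMod m) - GG δ m η (s * x))
    (GG δ m η (s * x) - (-1) ^ j * GG δ m η x)
  have h11 := norm_nonneg (FC m η ((s * x : ℕ) : ZMod m) - GG δ m η (s * x)
    + (GG δ m η (s * x) - (-1) ^ j * GG δ m η x))
  nlinarith [sq_nonneg (‖FC m η ((s * x : ℕ) : ZMod m) - GG δ m η (s * x)‖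
    - ‖GG δ m η (s * x) - (-1) ^ j * GG δ m η x‖),
    norm_nonneg (FC m η ((s * x : ℕ) : ZMod m) - GG δ m η (s * x)),
    norm_nonneg (GG δ m η (s * x) - (-1) ^ j * GG δ m η x)]

theorem t4 (δ : ℝ) (h0 : 0 < δ) (h1 : δ ≤ 1 / 100) : ∃ m0 : ℕ, ∀ (m : ℕ) [NeZero m],
    m0 ≤ m → ∀ η : ℤ, Hyp δ m η → ∀ M : ℕ, 1 ≤ M → 2 * M ≤ m →
      ∑ x ∈ cop m M, ‖((lam x : ℤ) : ℂ) - GG δ m η x‖ ^ 2 ≤ M * (m : ℝ) ^ (-(δ / 5)) := by
  obtain ⟨m1, H1⟩ := BB_low δ h0 h1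
  obtain ⟨m2, H2⟩ := SS_card δ h0 h1
  obtain ⟨m3, H3⟩ := SS_div (δ / 200) (by positivity)
  obtain ⟨m4, H4⟩ := weight δ h0 h1
  obtain ⟨m5, H5⟩ := X_card δ h0 h1
  obtain ⟨m6, H6⟩ := grow 8 0 (δ / 50) (by positivity)
  obtain ⟨m7, H7⟩ := grow (4 * (rr δ : ℝ) ^ 2) 0 (δ / 4) (by positivity)
  refine ⟨m1 + m2 + m3 + m4 + m5 + m6 + m7 + 2, fun m _ hm η hH M hM hM2 => ?_⟩
  have hm2 : 2 ≤ m := by omega
  have hX1 : (1 : ℝ) ≤ m := by exact_mod_cast (by omega : 1 ≤ m)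
  have hX0 : (0 : ℝ) < m := by linarith
  obtain ⟨b1, _, _, _, b5⟩ := H1 m (by omega)
  have e2 := H2 m (by omega)
  have e3 := H3 m (by omega) δ
  have e4 := H4 m (by omega) η hH
  have e5 := H5 m (by omega)
  have e6 := H6 m (by omega)
  have e7 := H7 m (by omega)
  rw [pow_zero, mul_one] at e6 e7
  have hη := hH.1
  -- the choice of `j`
  obtain ⟨j, hjr, hj1, hj2⟩ : ∃ j, j ≤ rr δ ∧ 2 * M * BB δ m ^ j ≤ m ∧
      m < 2 * M * BB δ m ^ (j + 1) := by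
    classical
    set j := Nat.findGreatest (fun j => 2 * M * BB δ m ^ j ≤ m) (rr δ) with hj
    have hj3 : j ≤ rr δ := Nat.findGreatest_le _
    refine ⟨j, hj3, ?_, ?_⟩
    · exact Nat.findGreatest_spec (P := fun j => 2 * M * BB δ m ^ j ≤ m) (Nat.zero_le (rr δ))
        (by rw [pow_zero, mul_one]; exact hM2)
    · rcases Nat.lt_or_ge j (rr δ) with h | h
      · have := Nat.findGreatest_is_greatest (P := fun j => 2 * M * BB δ m ^ j ≤ m)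
          (Nat.lt_succ_self j) h
        exact not_le.mp this
      · have hjj : j = rr δ := le_antisymm hj3 h
        rw [hjj]
        refine b5.trans_le ?_
        exact Nat.le_mul_of_pos_left _ (by omega)
  set T : ℝ := ∑ x ∈ cop m M, ‖((lam x : ℤ) : ℂ) - GG δ m η x‖ ^ 2 with hT
  set E : ℝ := ((rr δ : ℝ) * (m : ℝ) ^ (-(δ / 4))) ^ 2 * (XX δ m).card with hE
  set h : ℕ → ℝ := fun y => ‖FC m η (y : ZMod m) - GG δ m η y‖ ^ 2 with hh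
  have hh0 : ∀ y, 0 ≤ h y := fun y => by simp only [hh]; positivity
  have hE0 : 0 ≤ E := by rw [hE]; positivity
  -- sum over `s` and `x`
  have f1 : ((SS δ m j).card : ℝ) * T
      ≤ 2 * (∑ s ∈ SS δ m j, ∑ x ∈ cop m M, h (s * x)) + 2 * ((SS δ m j).card * (M * E)) := by
    have g1 : ((SS δ m j).card : ℝ) * T = ∑ s ∈ SS δ m j, T := by
      rw [sum_const, nsmul_eq_mul]
    have g2 : ∀ s ∈ SS δ m j, T ≤ 2 * (∑ x ∈ cop m M, h (s * x)) + 2 * (M * E) := by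
      intro s hs
      have g3 : T ≤ ∑ x ∈ cop m M, (2 * h (s * x) + 2 * E) := by
        rw [hT]
        refine sum_le_sum fun x hx => ?_
        exact tt4_point δ m hm2 η hη j (rr δ) s x M hjr hs hx hj1
      refine g3.trans ?_
      rw [sum_add_distrib, ← mul_sum, sum_const, nsmul_eq_mul]
      have g4 : ((cop m M).card : ℝ) ≤ M := by
        have : (cop m M).card ≤ M := by
          unfold cop
          refine (card_filter_le _ _).trans ?_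
          rw [Nat.card_Icc]
          omega
        exact_mod_cast this
      have g5 : ((cop m M).card : ℝ) * (2 * E) ≤ M * (2 * E) := by gcongr
      linarith
    rw [g1]
    refine (sum_le_sum g2).trans ?_
    rw [sum_add_distrib, ← mul_sum, sum_const, nsmul_eq_mul]
    apply le_of_eq
    ring
  -- the products
  have f2 : ∑ s ∈ SS δ m j, ∑ x ∈ cop m M, h (s * x)
      ≤ (m : ℝ) ^ (δ / 200) * ∑ y ∈ cop m (m / 2), h y := by
    refine tt4_sum_le _ _ _ h _ hh0 (fun s hs => (SS_prop hs).2.1) ?_ ?_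
    · intro s hs x hx
      obtain ⟨h1, h2, h3, _, _⟩ := SS_prop hs
      obtain ⟨hx1, hx2, hx3⟩ := mem_cop.mp hx
      rw [mem_cop]
      refine ⟨Nat.mul_pos h2 hx1, ?_, Nat.Coprime.mul_left h1 hx3⟩
      rw [Nat.le_div_iff_mul_le (by norm_num)]
      calc s * x * 2 ≤ BB δ m ^ j * M * 2 := by gcongr
        _ = 2 * M * BB δ m ^ j := by ring
        _ ≤ m := hj1
    · intro y hy
      obtain ⟨hy1, hy2, _⟩ := mem_cop.mp hy
      exact e3 j y hy1 (by omega)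
  have f3 : ∑ y ∈ cop m (m / 2), h y ≤ (m : ℝ) * (m : ℝ) ^ (-(δ / 4)) := by
    have g1 := tt4_units m hm2
      (fun z => ‖FC m η z - ∑ χ ∈ XX δ m, cc m (FC m η) χ * χ z‖ ^ 2) (fun z => by positivity)
    have g2 := part_sum m (FC m η) (XX δ m)
    have g3 : (m.totient : ℝ) ≤ m := by exact_mod_cast Nat.totient_le m
    calc ∑ y ∈ cop m (m / 2), h y
        ≤ ∑ u : (ZMod m)ˣ, ‖FC m η (u : ZMod m)
            - ∑ χ ∈ XX δ m, cc m (FC m η) χ * χ (u : ZMod m)‖ ^ 2 := g1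
      _ ≤ (m : ℝ) * (m : ℝ) ^ (-(δ / 4)) := by
          rw [g2]
          refine mul_le_mul g3 ?_ (sum_nonneg fun _ _ => by positivity) hX0.le
          convert e4 using 2
  -- the number of products
  have f4 : (m : ℝ) * (m : ℝ) ^ (-(δ / 50)) ≤ 2 * M * (m : ℝ) ^ (δ / 200) * (SS δ m j).card := by
    have g1 : (m : ℝ) ≤ 2 * M * (BB δ m : ℝ) ^ (j + 1) := by exact_mod_cast hj2.le
    have g2 := e2 j hjr
    have g3 := BB_up (δ := δ) h0 (m := m) (by omega)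
    calc (m : ℝ) * (m : ℝ) ^ (-(δ / 50))
        ≤ 2 * M * (BB δ m : ℝ) ^ (j + 1) * (m : ℝ) ^ (-(δ / 50)) := by gcongr
      _ = 2 * M * (BB δ m : ℝ) * ((BB δ m : ℝ) ^ j * (m : ℝ) ^ (-(δ / 50))) := by ring
      _ ≤ 2 * M * (m : ℝ) ^ (δ / 200) * (SS δ m j).card := by gcongr
  -- the final computation
  set S : ℝ := ((SS δ m j).card : ℝ) with hSdef
  have hM0 : (0 : ℝ) < M := by exact_mod_cast hM
  have hS0 : 0 < S := by
    by_contra hcon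
    have hS1 : S = 0 := le_antisymm (not_lt.mp hcon) (by rw [hSdef]; positivity)
    rw [hS1, mul_zero] at f4
    have : 0 < (m : ℝ) * (m : ℝ) ^ (-(δ / 50)) := by positivity
    linarith
  have f5 : S * T ≤ 2 * ((m : ℝ) ^ (δ / 200) * ((m : ℝ) * (m : ℝ) ^ (-(δ / 4))))
      + 2 * (S * (M * E)) := by
    refine f1.trans ?_
    have : ∑ s ∈ SS δ m j, ∑ x ∈ cop m M, h (s * x)
        ≤ (m : ℝ) ^ (δ / 200) * ((m : ℝ) * (m : ℝ) ^ (-(δ / 4))) :=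
      f2.trans (by gcongr)
    linarith
  have f6 : (m : ℝ) ^ (δ / 200) * ((m : ℝ) * (m : ℝ) ^ (-(δ / 4)))
      ≤ S * (2 * M * (m : ℝ) ^ (-(11 * δ / 50))) := by
    have g1 : (m : ℝ) ^ (δ / 200) * ((m : ℝ) * (m : ℝ) ^ (-(δ / 4)))
        = ((m : ℝ) * (m : ℝ) ^ (-(δ / 50))) * (m : ℝ) ^ (-(9 * δ / 40)) := by
      have : (m : ℝ) ^ (δ / 200) * (m : ℝ) ^ (-(δ / 4))
          = (m : ℝ) ^ (-(δ / 50)) * (m : ℝ) ^ (-(9 * δ / 40)) := by
        rw [← Real.rpow_add hX0, ← Real.rpow_add hX0]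
        congr 1
        ring
      calc (m : ℝ) ^ (δ / 200) * ((m : ℝ) * (m : ℝ) ^ (-(δ / 4)))
          = m * ((m : ℝ) ^ (δ / 200) * (m : ℝ) ^ (-(δ / 4))) := by ring
        _ = ((m : ℝ) * (m : ℝ) ^ (-(δ / 50))) * (m : ℝ) ^ (-(9 * δ / 40)) := by
            rw [this]; ring
    have g2 : (m : ℝ) ^ (δ / 200) * (m : ℝ) ^ (-(9 * δ / 40)) = (m : ℝ) ^ (-(11 * δ / 50)) := by
      rw [← Real.rpow_add hX0]
      congr 1
      ring
    rw [g1, ← g2]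
    calc ((m : ℝ) * (m : ℝ) ^ (-(δ / 50))) * (m : ℝ) ^ (-(9 * δ / 40))
        ≤ (2 * M * (m : ℝ) ^ (δ / 200) * S) * (m : ℝ) ^ (-(9 * δ / 40)) := by gcongr
      _ = S * (2 * M * ((m : ℝ) ^ (δ / 200) * (m : ℝ) ^ (-(9 * δ / 40)))) := by ring
  have f7 : T ≤ 4 * M * (m : ℝ) ^ (-(11 * δ / 50)) + 2 * (M * E) := by
    have : S * T ≤ S * (4 * M * (m : ℝ) ^ (-(11 * δ / 50)) + 2 * (M * E)) := by
      refine f5.trans ?_
      nlinarith [f6]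
    exact le_of_mul_le_mul_left this hS0
  have f8 : 4 * (M : ℝ) * (m : ℝ) ^ (-(11 * δ / 50)) ≤ M * (m : ℝ) ^ (-(δ / 5)) / 2 := by
    have g1 : (m : ℝ) ^ (-(δ / 5)) = (m : ℝ) ^ (δ / 50) * (m : ℝ) ^ (-(11 * δ / 50)) := by
      rw [← Real.rpow_add hX0]
      congr 1
      ring
    rw [g1]
    have g2 : 8 * (m : ℝ) ^ (-(11 * δ / 50)) ≤ (m : ℝ) ^ (δ / 50) * (m : ℝ) ^ (-(11 * δ / 50)) := by
      gcongr
    have g3 := mul_le_mul_of_nonneg_left g2 hM0.le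
    linarith
  have f9 : 2 * ((M : ℝ) * E) ≤ M * (m : ℝ) ^ (-(δ / 5)) / 2 := by
    have g1 : E ≤ (rr δ : ℝ) ^ 2 * (m : ℝ) ^ (-(19 * δ / 40)) := by
      rw [hE, mul_pow, mul_assoc]
      have g2 : ((m : ℝ) ^ (-(δ / 4))) ^ 2 * (m : ℝ) ^ (δ / 40) = (m : ℝ) ^ (-(19 * δ / 40)) := by
        rw [pow_two, ← Real.rpow_add hX0, ← Real.rpow_add hX0]
        congr 1
        ring
      rw [← g2]
      gcongr
    have g3 : 4 * E ≤ (m : ℝ) ^ (-(δ / 5)) := by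
      calc 4 * E ≤ 4 * ((rr δ : ℝ) ^ 2 * (m : ℝ) ^ (-(19 * δ / 40))) := by gcongr
        _ = (4 * (rr δ : ℝ) ^ 2) * (m : ℝ) ^ (-(19 * δ / 40)) := by ring
        _ ≤ (m : ℝ) ^ (δ / 4) * (m : ℝ) ^ (-(19 * δ / 40)) := by gcongr
        _ = (m : ℝ) ^ (δ / 4 + -(19 * δ / 40)) := (Real.rpow_add hX0 _ _).symm
        _ ≤ (m : ℝ) ^ (-(δ / 5)) := Real.rpow_le_rpow_of_exponent_le hX1 (by linarith)
    have g4 := mul_le_mul_of_nonneg_left g3 hM0.le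
    linarith
  linarith

end Pool.Agent.H78.PG
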