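import Pool.Agent.H78.PG.TXc
import Pool.Agent.H78.PG.TQO
import Pool.Agent.H78.PG.TCop

/-!
# LQ / PG, TT5a: the bracket in the lower bound of TT5

`θ = δ/1000`: `#cop m M ≥ M φ(m)/m - 2^ω(m) ≥ M m^(-θ/2) - m^(θ/2)` (`cop_card_ge`, `tot_le`, `two_pow_le`), `M = m/(2p) ≥ m/(4p)` as
`2p ≤ m`, `p ≤ yy m ≤ m^(49/100)` so `m/p ≥ m^(51/100)`; `#XX * KK m ≤ m^(δ/40) m^(1/2 + δ/1000)` (`X_card`, `KK_le`), and
`δ/40 + δ/1000 + δ/1000 < 1/100`.  So the bracket is `≥ m^(1-θ/2)/(4p) - m^(θ/2) - m^(1/2 + ...) ≥ m^(1-θ)/(16 p)` for large `m`.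
-/

set_option autoImplicit false

namespace Pool.Agent.H78.PG

open Finset
open Pool.Agent.H34PG (lam lam_val lam_mul lam_prime)
open Pool.Agent.H11.LQ

/-- the bracket of the lower bound -/
theorem bracket (δ : ℝ) (h0 : 0 < δ) (h1 : δ ≤ 1 / 100) : ∃ m0 : ℕ, ∀ (m : ℕ) [NeZero m],
    m0 ≤ m → ∀ p ∈ PY m, (m : ℝ) ^ (1 - δ / 1000) / (16 * p)
      ≤ ((cop m (m / (2 * p))).card : ℝ) - (XX δ m).card * KK m := by
  obtain ⟨m1, H1⟩ := X_card δ h0 h1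
  obtain ⟨m2, H2⟩ := tot_le (δ / 2000) (by positivity)
  obtain ⟨m3, H3⟩ := two_pow_le (δ / 2000) (by positivity)
  obtain ⟨m4, H4⟩ := KK_le (δ / 1000) (by positivity)
  obtain ⟨m5, H5⟩ := grow 16 0 (1 / 200) (by norm_num)
  refine ⟨m1 + m2 + m3 + m4 + m5 + 1, fun m _ hm p hp => ?_⟩
  have hm1 : 1 ≤ m := by omega
  have hX1 : (1 : ℝ) ≤ m := by exact_mod_cast hm1
  have hX0 : (0 : ℝ) < m := by linarith
  obtain ⟨hpy, hpp, hpm⟩ := mem_PY.mp hp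
  have hp2 : (2 : ℝ) ≤ p := by exact_mod_cast hpp.two_le
  have hp0 : (0 : ℝ) < p := by linarith
  have e1 := H1 m (by omega)
  have e2 := H2 m (by omega)
  have e3 := H3 m (by omega)
  have e4 := H4 m (by omega)
  have e5 := H5 m (by omega)
  rw [pow_zero, mul_one] at e5
  -- p ≤ m^(49/100)
  have e6 : (p : ℝ) ≤ (m : ℝ) ^ (49 / 100 : ℝ) := by
    have h2 : (p : ℝ) ≤ (yy m : ℝ) := by exact_mod_cast hpy
    exact h2.trans (Nat.floor_le (by positivity))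
  -- m / p ≥ m^(51/100)
  have e7 : (m : ℝ) ^ (51 / 100 : ℝ) ≤ m / p := by
    rw [le_div_iff₀ hp0]
    calc (m : ℝ) ^ (51 / 100 : ℝ) * p ≤ (m : ℝ) ^ (51 / 100 : ℝ) * (m : ℝ) ^ (49 / 100 : ℝ) := by
          gcongr
      _ = m := by
          rw [← Real.rpow_add hX0]
          norm_num
  have e8 : (16 : ℝ) ≤ (m : ℝ) ^ (51 / 100 : ℝ) :=
    e5.trans (Real.rpow_le_rpow_of_exponent_le hX1 (by norm_num))
  have e9 : (m : ℝ) / (4 * p) ≤ ((m / (2 * p) : ℕ) : ℝ) := by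
    have h2 : (m : ℝ) / ((2 * p : ℕ) : ℝ) - 1 ≤ ((m / (2 * p) : ℕ) : ℝ) := by
      have h3 := Nat.lt_floor_add_one ((m : ℝ) / ((2 * p : ℕ) : ℝ))
      rw [Nat.floor_div_eq_div] at h3
      linarith
    refine le_trans ?_ h2
    push_cast
    have h3 : (m : ℝ) / (2 * p) = (m / p) / 2 := by
      field_simp
    have h4 : (m : ℝ) / (4 * p) = (m / p) / 4 := by
      field_simp
    rw [h3, h4]
    linarith
  have e10 := cop_card_ge m (m / (2 * p)) hm1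
  -- totient
  have e11 : (m : ℝ) ^ (-(δ / 2000)) ≤ (m.totient : ℝ) / m := by
    rw [Real.rpow_neg hX0.le, le_div_iff₀ hX0, inv_mul_le_iff₀ (by positivity)]
    exact e2
  have e12 : (m : ℝ) ^ (1 - δ / 2000) / (4 * p) ≤ ((m / (2 * p) : ℕ) : ℝ) * m.totient / m := by
    calc (m : ℝ) ^ (1 - δ / 2000) / (4 * p) = (m : ℝ) / (4 * p) * (m : ℝ) ^ (-(δ / 2000)) := by
          rw [sub_eq_add_neg, Real.rpow_add hX0, Real.rpow_one]
          ring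
      _ ≤ ((m / (2 * p) : ℕ) : ℝ) * ((m.totient : ℝ) / m) := by
          gcongr
      _ = ((m / (2 * p) : ℕ) : ℝ) * m.totient / m := by ring
  have hKK : 0 ≤ KK m := by
    unfold KK
    have : 0 ≤ Real.log m := Real.log_nonneg hX1
    positivity
  have e13 : ((XX δ m).card : ℝ) * KK m ≤ (m : ℝ) ^ (δ / 40 + (1 / 2 + δ / 1000)) := by
    rw [Real.rpow_add hX0]
    gcongr
  have e14 : (m : ℝ) ^ (δ / 2000) ≤ (m : ℝ) ^ (δ / 40 + (1 / 2 + δ / 1000)) :=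
    Real.rpow_le_rpow_of_exponent_le hX1 (by linarith)
  have e15 : (m : ℝ) ^ (1 - δ / 1000) / (16 * p) ≤ (m : ℝ) ^ (1 - δ / 2000) / (16 * p) := by
    have h2 : (m : ℝ) ^ (1 - δ / 1000) ≤ (m : ℝ) ^ (1 - δ / 2000) :=
      Real.rpow_le_rpow_of_exponent_le hX1 (by linarith)
    gcongr
  have e16 : (m : ℝ) ^ (δ / 40 + (1 / 2 + δ / 1000)) ≤ (m : ℝ) ^ (1 - δ / 2000) / (16 * p) := by
    have h2 : (m : ℝ) ^ (1 - δ / 2000) / (16 * p) = (m / p) * (m : ℝ) ^ (-(δ / 2000)) / 16 := by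
      rw [sub_eq_add_neg, Real.rpow_add hX0, Real.rpow_one]
      field_simp
    rw [h2, le_div_iff₀ (by norm_num)]
    calc (m : ℝ) ^ (δ / 40 + (1 / 2 + δ / 1000)) * 16
        ≤ (m : ℝ) ^ (δ / 40 + (1 / 2 + δ / 1000)) * (m : ℝ) ^ (1 / 200 : ℝ) := by gcongr
      _ = (m : ℝ) ^ (δ / 40 + (1 / 2 + δ / 1000) + 1 / 200) := (Real.rpow_add hX0 _ _).symm
      _ ≤ (m : ℝ) ^ (51 / 100 + -(δ / 2000)) :=
          Real.rpow_le_rpow_of_exponent_le hX1 (by linarith)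
      _ = (m : ℝ) ^ (51 / 100 : ℝ) * (m : ℝ) ^ (-(δ / 2000)) := Real.rpow_add hX0 _ _
      _ ≤ (m / p) * (m : ℝ) ^ (-(δ / 2000)) := by gcongr
  have e17 : (m : ℝ) ^ (1 - δ / 2000) / (4 * p) = 4 * ((m : ℝ) ^ (1 - δ / 2000) / (16 * p)) := by
    field_simp
    ring
  have e18 : 0 ≤ (m : ℝ) ^ (1 - δ / 2000) / (16 * p) := by positivity
  linarith

end Pool.Agent.H78.PG
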