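import Pool.Agent.H78.PG.TPV

/-!
# LQ / PG, TTail: the tail of `L(1,χ)`

`tail`: `‖L(1,χ) - ∑_{d ≤ D} χ(d)/d‖ ≤ 2 KK m/(D+1)`.  For real `s > 1`: `LFunction χ s = ∑ χ(n) n^(-s)`
(`DirichletCharacter.LFunction_eq_LSeries`), Abel summation for `n > D` with the decreasing `n^(-s)` and
`‖∑_{D < n ≤ N} χ(n)‖ ≤ 2 KK m` (`pv`): the tail is `≤ 2 KK m (D+1)^(-s)`; let `s → 1+`
(`DirichletCharacter.differentiable_LFunction` gives continuity, `χ ≠ 1`).
-/

set_option autoImplicit false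

namespace Pool.Agent.H78.PG

open Finset
open Pool.Agent.H34PG (lam lam_val lam_mul lam_prime)
open Pool.Agent.H11.LQ

/-- Abel's inequality for a decreasing nonnegative weight -/
private lemma ttail_abel {a : ℕ → ℂ} {f : ℕ → ℝ} {K : ℝ} (hf : Antitone f) (hf0 : ∀ n, 0 ≤ f n)
    (h : ∀ n, ‖∑ i ∈ range n, a i‖ ≤ K) (n : ℕ) :
    ‖∑ i ∈ range n, (f i) • a i‖ ≤ K * f 0 := by
  have hK : 0 ≤ K := (norm_nonneg _).trans (h 0)
  rcases n with _ | n
  · simp only [range_zero, sum_empty, norm_zero]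
    exact mul_nonneg hK (hf0 0)
  rw [Finset.sum_range_by_parts]
  simp only [Nat.add_sub_cancel]
  have h1 : ‖f n • ∑ i ∈ range (n + 1), a i‖ ≤ f n * K := by
    rw [norm_smul, Real.norm_of_nonneg (hf0 n)]
    exact mul_le_mul_of_nonneg_left (h _) (hf0 n)
  have h2 : ‖∑ i ∈ range n, (f (i + 1) - f i) • ∑ j ∈ range (i + 1), a j‖ ≤ (f 0 - f n) * K := by
    calc ‖∑ i ∈ range n, (f (i + 1) - f i) • ∑ j ∈ range (i + 1), a j‖
        ≤ ∑ i ∈ range n, ‖(f (i + 1) - f i) • ∑ j ∈ range (i + 1), a j‖ := norm_sum_le _ _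
      _ ≤ ∑ i ∈ range n, (f i - f (i + 1)) * K := by
          apply Finset.sum_le_sum
          intro i _
          rw [norm_smul, Real.norm_eq_abs, abs_sub_comm,
            abs_of_nonneg (sub_nonneg.mpr (hf (Nat.le_succ i)))]
          exact mul_le_mul_of_nonneg_left (h _) (sub_nonneg.mpr (hf (Nat.le_succ i)))
      _ = (f 0 - f n) * K := by
          rw [← Finset.sum_mul, Finset.sum_range_sub']
  calc ‖f n • ∑ i ∈ range (n + 1), a i - ∑ i ∈ range n, (f (i + 1) - f i) • ∑ j ∈ range (i + 1), a j‖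
      ≤ f n * K + (f 0 - f n) * K := (norm_sub_le _ _).trans (add_le_add h1 h2)
    _ = K * f 0 := by ring

/-- the tail for `s > 1` -/
private lemma ttail_gt (m : ℕ) [NeZero m] (χ : DirichletCharacter ℂ m) (hχ : χ ≠ 1) (D : ℕ)
    {s : ℝ} (hs : 1 < s) :
    ‖DirichletCharacter.LFunction χ (s : ℂ) - ∑ d ∈ Icc 1 D, χ (d : ZMod m) / (d : ℂ) ^ (s : ℂ)‖
      ≤ 2 * KK m * ((D : ℝ) + 1) ^ (-s) := by
  have hre : 1 < (s : ℂ).re := by simpa using hs
  rw [DirichletCharacter.LFunction_eq_LSeries χ hre]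
  have hsum : LSeriesSummable (fun n : ℕ => χ (n : ZMod m)) (s : ℂ) :=
    ZMod.LSeriesSummable_of_one_lt_re χ hre
  have hlim := (hsum.hasSum).tendsto_sum_nat
  have hlim2 := (hlim.sub_const (∑ d ∈ Icc 1 D, χ (d : ZMod m) / (d : ℂ) ^ (s : ℂ))).norm
  refine le_of_tendsto hlim2 ?_
  filter_upwards [Filter.eventually_ge_atTop (D + 1)] with N hN
  obtain ⟨n, rfl⟩ := Nat.exists_eq_add_of_le hN
  have e1 : ∑ i ∈ range (D + 1 + n), LSeries.term (fun n : ℕ => χ (n : ZMod m)) (s : ℂ) i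
      - ∑ d ∈ Icc 1 D, χ (d : ZMod m) / (d : ℂ) ^ (s : ℂ)
      = ∑ i ∈ range n, (((D : ℝ) + 1 + (i : ℝ)) ^ (-s)) • χ ((D + 1 + i : ℕ) : ZMod m) := by
    rw [Finset.sum_range_add]
    have e2 : ∑ i ∈ range (D + 1), LSeries.term (fun n : ℕ => χ (n : ZMod m)) (s : ℂ) i
        = ∑ d ∈ Icc 1 D, χ (d : ZMod m) / (d : ℂ) ^ (s : ℂ) := by
      rw [Finset.sum_range_succ', LSeries.term_zero, add_zero, ← Finset.Ico_succ_right_eq_Icc,
        Finset.sum_Ico_eq_sum_range]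
      simp only [Order.succ_eq_add_one, Nat.add_sub_cancel]
      apply Finset.sum_congr rfl
      intro i _
      rw [LSeries.term_of_ne_zero (by omega), add_comm 1 i]
    rw [e2, add_sub_cancel_left]
    apply Finset.sum_congr rfl
    intro i _
    rw [LSeries.term_of_ne_zero (by omega)]
    have hpos : (0 : ℝ) ≤ (D : ℝ) + 1 + (i : ℝ) := by positivity
    have e3 : (((D + 1 + i : ℕ) : ℂ)) ^ (s : ℂ) = ((((D : ℝ) + 1 + (i : ℝ)) ^ s : ℝ) : ℂ) := by
      rw [Complex.ofReal_cpow hpos]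
      push_cast
      rfl
    rw [e3, Real.rpow_neg hpos, Complex.real_smul, Complex.ofReal_inv, div_eq_inv_mul]
  rw [e1]
  have hanti : Antitone (fun i : ℕ => ((D : ℝ) + 1 + (i : ℝ)) ^ (-s)) := by
    intro i j hij
    have hij' : (i : ℝ) ≤ (j : ℝ) := by exact_mod_cast hij
    apply Real.rpow_le_rpow_of_nonpos (by positivity) (by linarith) (by linarith)
  have hbound : ∀ n, ‖∑ i ∈ range n, χ ((D + 1 + i : ℕ) : ZMod m)‖ ≤ 2 * KK m := by
    intro n
    have e4 : ∑ i ∈ range n, χ ((D + 1 + i : ℕ) : ZMod m)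
        = ∑ x ∈ Icc 1 (D + n), χ (x : ZMod m) - ∑ x ∈ Icc 1 D, χ (x : ZMod m) := by
      rw [← Finset.Ico_succ_right_eq_Icc, ← Finset.Ico_succ_right_eq_Icc,
        Finset.sum_Ico_eq_sum_range, Finset.sum_Ico_eq_sum_range]
      simp only [Order.succ_eq_add_one, Nat.add_sub_cancel]
      rw [Finset.sum_range_add, add_sub_cancel_left]
      apply Finset.sum_congr rfl
      intro i _
      congr 2
      omega
    rw [e4]
    calc ‖∑ x ∈ Icc 1 (D + n), χ (x : ZMod m) - ∑ x ∈ Icc 1 D, χ (x : ZMod m)‖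
        ≤ ‖∑ x ∈ Icc 1 (D + n), χ (x : ZMod m)‖ + ‖∑ x ∈ Icc 1 D, χ (x : ZMod m)‖ :=
          norm_sub_le _ _
      _ ≤ KK m + KK m := add_le_add (pv m χ hχ _) (pv m χ hχ _)
      _ = 2 * KK m := by ring
  have h := ttail_abel (a := fun i : ℕ => χ ((D + 1 + i : ℕ) : ZMod m)) hanti
    (fun i => Real.rpow_nonneg (by positivity) _) hbound n
  simpa using h

theorem tail (m : ℕ) [NeZero m] (χ : DirichletCharacter ℂ m) (hχ : χ ≠ 1) (D : ℕ) :
    ‖DirichletCharacter.LFunction χ 1 - ∑ d ∈ Icc 1 D, χ (d : ZMod m) / (d : ℂ)‖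
      ≤ 2 * KK m / (D + 1) := by
  have hcast : Filter.Tendsto (fun s : ℝ => (s : ℂ)) (nhdsWithin 1 (Set.Ioi 1)) (nhds (1 : ℂ)) := by
    have h := (Complex.continuous_ofReal.tendsto (1 : ℝ)).mono_left
      (nhdsWithin_le_nhds (s := Set.Ioi (1 : ℝ)))
    simpa using h
  have hL : Filter.Tendsto (fun s : ℝ => DirichletCharacter.LFunction χ (s : ℂ))
      (nhdsWithin 1 (Set.Ioi 1)) (nhds (DirichletCharacter.LFunction χ 1)) :=
    ((DirichletCharacter.differentiable_LFunction hχ).continuous.tendsto 1).comp hcast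
  have hS : Filter.Tendsto (fun s : ℝ => ∑ d ∈ Icc 1 D, χ (d : ZMod m) / (d : ℂ) ^ (s : ℂ))
      (nhdsWithin 1 (Set.Ioi 1)) (nhds (∑ d ∈ Icc 1 D, χ (d : ZMod m) / (d : ℂ))) := by
    apply tendsto_finsetSum
    intro d hd
    rw [mem_Icc] at hd
    have hd0 : (d : ℂ) ≠ 0 := by
      have : d ≠ 0 := by omega
      exact_mod_cast this
    have h1 : Filter.Tendsto (fun s : ℝ => (d : ℂ) ^ (s : ℂ)) (nhdsWithin 1 (Set.Ioi 1))
        (nhds ((d : ℂ) ^ (1 : ℂ))) :=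
      ((continuousAt_const_cpow hd0).tendsto).comp hcast
    rw [Complex.cpow_one] at h1
    exact tendsto_const_nhds.div h1 hd0
  have hR : Filter.Tendsto (fun s : ℝ => 2 * KK m * ((D : ℝ) + 1) ^ (-s))
      (nhdsWithin 1 (Set.Ioi 1)) (nhds (2 * KK m / (D + 1))) := by
    have h1 : Continuous (fun s : ℝ => 2 * KK m * ((D : ℝ) + 1) ^ (-s)) := by
      apply Continuous.mul continuous_const
      exact Continuous.rpow continuous_const continuous_neg
        (fun x => Or.inl (by positivity))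
    have h2 := (h1.tendsto 1).mono_left (nhdsWithin_le_nhds (s := Set.Ioi (1 : ℝ)))
    rw [Real.rpow_neg_one, ← div_eq_mul_inv] at h2
    exact h2
  refine le_of_tendsto_of_tendsto (hL.sub hS).norm hR ?_
  filter_upwards [self_mem_nhdsWithin] with s hs
  exact ttail_gt m χ hχ D hs

end Pool.Agent.H78.PG
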