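import Pool.Agent.H78.PG.TSup2
import Pool.Agent.H78.PG.TFour

/-!
# LQ / PG, TW: total weight 1, weight outside `XX`

`weight_one`: `parseval`; `‖FC m η u‖ = 1` for units `u` (`m ≥ 2`, so `m ∤ u.val`; `F_val`).
`weight`: for a prime `q ≤ BB` (`≤ m^(δ/200) ≤ m^δ`) not dividing `m`: by `twist`,
`∑ ‖cc‖² ‖χ q + 1‖² = (1/φ) ∑_u ‖FC (q u) + FC u‖² ≤ 4 #Ex(q)/φ ≤ 4 m^(1-δ)/φ(m) ≤ m^(-δ + δ/50)` (`tot_le`; `u.val ∉ Ex`
gives `F (q u) = lam q F u = - F u`).  A `χ ∉ XX` has a `q` with `‖χ q + 1‖² > m^(-δ/2)`, so the weight outside is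
`≤ ∑_{q ≤ BB} m^(δ/2) m^(-δ+δ/50) ≤ m^(δ/200 + δ/2 - δ + δ/50) ≤ m^(-δ/4)`.
-/

set_option autoImplicit false

namespace Pool.Agent.H78.PG

open Finset
open Pool.Agent.H34PG (lam lam_val lam_mul lam_prime)
open Pool.Agent.H11.LQ

private theorem tw_val {m : ℕ} [NeZero m] (hm : 2 ≤ m) (u : (ZMod m)ˣ) : ¬ m ∣ (u : ZMod m).val := by
  intro h
  have h1 : (u : ZMod m).val < m := ZMod.val_lt _
  have h2 : (u : ZMod m).val = 0 := Nat.eq_zero_of_dvd_of_lt h h1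
  have h3 : (u : ZMod m) = 0 := (ZMod.val_eq_zero _).mp h2
  have : Fact (1 < m) := ⟨by omega⟩
  exact u.ne_zero h3

private theorem tw_norm {m : ℕ} [NeZero m] (hm : 2 ≤ m) {η : ℤ} (hη : η = 1 ∨ η = -1)
    (u : (ZMod m)ˣ) : ‖FC m η (u : ZMod m)‖ = 1 := by
  unfold FC
  rcases F_val (m := m) hη (tw_val hm u) with h | h <;> rw [h] <;> simp

theorem weight_one (m : ℕ) [NeZero m] (hm : 2 ≤ m) (η : ℤ) (hη : η = 1 ∨ η = -1) :
    ∑ χ : DirichletCharacter ℂ m, ‖cc m (FC m η) χ‖ ^ 2 = 1 := by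
  rw [parseval]
  have h1 : ∀ u : (ZMod m)ˣ, ‖FC m η (u : ZMod m)‖ ^ 2 = 1 := fun u => by
    rw [tw_norm hm hη u, one_pow]
  rw [Finset.sum_congr rfl fun u _ => h1 u, sum_const, card_univ, ZMod.card_units_eq_totient,
    nsmul_eq_mul, mul_one]
  have h2 : 0 < m.totient := Nat.totient_pos.mpr (by omega)
  have h3 : (m.totient : ℝ) ≠ 0 := by positivity
  field_simp

private theorem tw_bound {m : ℕ} [NeZero m] (hm : 2 ≤ m) {η : ℤ} (hη : η = 1 ∨ η = -1) {q : ℕ}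
    (hq : q.Prime) :
    ∑ u : (ZMod m)ˣ, ‖FC m η ((q : ZMod m) * u) + FC m η (u : ZMod m)‖ ^ 2
      ≤ 4 * ((Ex m η q).card : ℝ) := by
  classical
  have h1 : ∀ u : (ZMod m)ˣ, ‖FC m η ((q : ZMod m) * u) + FC m η (u : ZMod m)‖ ^ 2
      ≤ if (u : ZMod m).val ∈ Ex m η q then (4 : ℝ) else 0 := by
    intro u
    have e1 : FC m η ((q : ZMod m) * u) = ((F m η (q * (u : ZMod m).val) : ℤ) : ℂ) := by
      rw [← FC_natCast]
      congr 1
      rw [Nat.cast_mul, ZMod.natCast_zmod_val]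
    have e2 : FC m η (u : ZMod m) = ((F m η (u : ZMod m).val : ℤ) : ℂ) := rfl
    rw [e1, e2]
    split_ifs with h
    · have h3 : ‖((F m η (q * (u : ZMod m).val) : ℤ) : ℂ)‖ ≤ 1 := by
        by_cases h4 : m ∣ q * (u : ZMod m).val
        · rw [F_dvd h4]; simp
        · rcases F_val (m := m) hη h4 with h5 | h5 <;> rw [h5] <;> simp
      have h4 : ‖((F m η (u : ZMod m).val : ℤ) : ℂ)‖ = 1 := tw_norm hm hη u
      have h5 := norm_add_le ((F m η (q * (u : ZMod m).val) : ℤ) : ℂ)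
        ((F m η (u : ZMod m).val : ℤ) : ℂ)
      have h6 : ‖((F m η (q * (u : ZMod m).val) : ℤ) : ℂ) + ((F m η (u : ZMod m).val : ℤ) : ℂ)‖ ≤ 2 := by
        linarith
      nlinarith [norm_nonneg (((F m η (q * (u : ZMod m).val) : ℤ) : ℂ) +
        ((F m η (u : ZMod m).val : ℤ) : ℂ))]
    · have h3 : F m η (q * (u : ZMod m).val) = lam q * F m η (u : ZMod m).val := by
        by_contra hc
        exact h (mem_Ex.mpr ⟨ZMod.val_lt _, hc⟩)
      rw [h3, lam_prime hq]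
      simp
  refine (sum_le_sum fun u _ => h1 u).trans ?_
  rw [← sum_filter, sum_const, nsmul_eq_mul, mul_comm]
  refine mul_le_mul_of_nonneg_left ?_ (by norm_num)
  rw [Nat.cast_le]
  refine card_le_card_of_injOn (fun u : (ZMod m)ˣ => (u : ZMod m).val) ?_ ?_
  · intro u hu
    rw [mem_coe, mem_filter] at hu
    exact hu.2
  · intro u _ v _ huv
    exact Units.ext (ZMod.val_injective m huv)

open Classical in
theorem weight (δ : ℝ) (h0 : 0 < δ) (h1 : δ ≤ 1 / 100) : ∃ m0 : ℕ, ∀ (m : ℕ) [NeZero m],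
    m0 ≤ m → ∀ η : ℤ, Hyp δ m η →
      ∑ χ ∈ univ.filter (fun χ => χ ∉ XX δ m), ‖cc m (FC m η) χ‖ ^ 2 ≤ (m : ℝ) ^ (-(δ / 4)) := by
  obtain ⟨m1, hm1⟩ := tot_le (δ / 50) (by positivity)
  obtain ⟨m2, hm2⟩ := grow 8 0 (9 * δ / 40) (by positivity)
  refine ⟨m1 + m2 + 2, fun m _ hm η hH => ?_⟩
  obtain ⟨hη, hEx⟩ := hH
  have hmm : 2 ≤ m := by omega
  have hm0 : (0 : ℝ) < m := by
    have : 0 < m := by omega
    exact_mod_cast this
  have hm1' : (1 : ℝ) ≤ m := by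
    have : 1 ≤ m := by omega
    exact_mod_cast this
  have hBB : ((BB δ m : ℕ) : ℝ) ≤ (m : ℝ) ^ (δ / 200) := BB_up h0 (by omega)
  have hφ : 0 < (m.totient : ℝ) := by
    have h2 : 0 < m.totient := Nat.totient_pos.mpr (by omega)
    exact_mod_cast h2
  have hT : (1 / (m.totient : ℝ)) ≤ (m : ℝ) ^ (δ / 50) / m := by
    have h2 := hm1 m (by omega)
    rw [div_le_div_iff₀ hφ hm0, one_mul]
    exact h2
  -- the bound for one prime
  have hq : ∀ q ∈ PB δ m, ∑ χ : DirichletCharacter ℂ m,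
      ‖cc m (FC m η) χ‖ ^ 2 * ‖χ (q : ZMod m) + 1‖ ^ 2 ≤ 4 * (m : ℝ) ^ (-δ + δ / 50) := by
    intro q hq
    rw [mem_PB] at hq
    obtain ⟨hq1, hq2, hq3⟩ := hq
    have hu : IsUnit (q : ZMod m) := by
      rw [ZMod.isUnit_iff_coprime]
      exact (Nat.Prime.coprime_iff_not_dvd hq2).mpr hq3
    rw [twist m (FC m η) (q : ZMod m) hu]
    have h3 := tw_bound hmm hη (q := q) hq2
    have h4 : (q : ℝ) ≤ (m : ℝ) ^ δ := by
      have h5 : (q : ℝ) ≤ ((BB δ m : ℕ) : ℝ) := by exact_mod_cast hq1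
      exact (h5.trans hBB).trans (Real.rpow_le_rpow_of_exponent_le hm1' (by linarith))
    have h5 := hEx q hq2 h4
    have h6 : 0 ≤ ∑ u : (ZMod m)ˣ, ‖FC m η ((q : ZMod m) * u) + FC m η (u : ZMod m)‖ ^ 2 :=
      sum_nonneg fun _ _ => by positivity
    calc (1 / (m.totient : ℝ)) * ∑ u : (ZMod m)ˣ,
          ‖FC m η ((q : ZMod m) * u) + FC m η (u : ZMod m)‖ ^ 2
        ≤ ((m : ℝ) ^ (δ / 50) / m) * (4 * (m : ℝ) ^ (1 - δ)) := by
          refine mul_le_mul hT (h3.trans (by linarith)) h6 (by positivity)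
      _ = 4 * (m : ℝ) ^ (-δ + δ / 50) := by
          have e1 : (m : ℝ) ^ (-δ + δ / 50) = (m : ℝ) ^ (δ / 50) / m * (m : ℝ) ^ (1 - δ) := by
            rw [div_mul_eq_mul_div, ← Real.rpow_add hm0, ← Real.rpow_sub_one hm0.ne']
            congr 1
            ring
          rw [e1]; ring
  -- comparison
  have hc : ∀ χ ∈ univ.filter (fun χ : DirichletCharacter ℂ m => χ ∉ XX δ m),
      ‖cc m (FC m η) χ‖ ^ 2 ≤ ∑ q ∈ PB δ m, (m : ℝ) ^ (δ / 2) *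
        (‖cc m (FC m η) χ‖ ^ 2 * ‖χ (q : ZMod m) + 1‖ ^ 2) := by
    intro χ hχ
    rw [mem_filter] at hχ
    have h3 := hχ.2
    rw [mem_XX] at h3
    push Not at h3
    obtain ⟨q, hq1, hq2, hq3, hq4⟩ := h3
    have h5 : q ∈ PB δ m := mem_PB.mpr ⟨hq2, hq1, hq3⟩
    have h6 : ‖cc m (FC m η) χ‖ ^ 2 ≤ (m : ℝ) ^ (δ / 2) *
        (‖cc m (FC m η) χ‖ ^ 2 * ‖χ (q : ZMod m) + 1‖ ^ 2) := by
      have h7 : (m : ℝ) ^ (-(δ / 2)) ≤ ‖χ (q : ZMod m) + 1‖ ^ 2 := by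
        have e1 : (m : ℝ) ^ (-(δ / 2)) = ((m : ℝ) ^ (-(δ / 4))) ^ 2 := by
          rw [← Real.rpow_natCast, ← Real.rpow_mul hm0.le]
          congr 1
          push_cast
          ring
        rw [e1]
        exact pow_le_pow_left₀ (by positivity) hq4.le 2
      have h8 : (m : ℝ) ^ (δ / 2) * (m : ℝ) ^ (-(δ / 2)) = 1 := by
        rw [← Real.rpow_add hm0, add_neg_cancel, Real.rpow_zero]
      calc ‖cc m (FC m η) χ‖ ^ 2
          = ‖cc m (FC m η) χ‖ ^ 2 * ((m : ℝ) ^ (δ / 2) * (m : ℝ) ^ (-(δ / 2))) := by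
            rw [h8, mul_one]
        _ = (m : ℝ) ^ (δ / 2) * (‖cc m (FC m η) χ‖ ^ 2 * (m : ℝ) ^ (-(δ / 2))) := by ring
        _ ≤ _ := by
            refine mul_le_mul_of_nonneg_left ?_ (by positivity)
            exact mul_le_mul_of_nonneg_left h7 (by positivity)
    refine h6.trans ?_
    exact single_le_sum (f := fun q : ℕ => (m : ℝ) ^ (δ / 2) *
        (‖cc m (FC m η) χ‖ ^ 2 * ‖χ (q : ZMod m) + 1‖ ^ 2)) (fun _ _ => by positivity) h5
  have hsum : ∑ χ ∈ univ.filter (fun χ : DirichletCharacter ℂ m => χ ∉ XX δ m),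
      ‖cc m (FC m η) χ‖ ^ 2 ≤ ∑ q ∈ PB δ m, (m : ℝ) ^ (δ / 2) *
        (4 * (m : ℝ) ^ (-δ + δ / 50)) := by
    refine (sum_le_sum hc).trans ?_
    rw [sum_comm]
    refine sum_le_sum fun q hq' => ?_
    rw [← mul_sum]
    refine mul_le_mul_of_nonneg_left ?_ (by positivity)
    refine le_trans ?_ (hq q hq')
    exact sum_le_sum_of_subset_of_nonneg (filter_subset _ _) fun _ _ _ => by positivity
  refine hsum.trans ?_
  rw [sum_const, nsmul_eq_mul]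
  have hcard : ((PB δ m).card : ℝ) ≤ 2 * (m : ℝ) ^ (δ / 200) := by
    have h3 : (PB δ m).card ≤ BB δ m + 1 := by
      unfold PB
      exact (card_filter_le _ _).trans (by rw [card_range])
    have h4 : ((PB δ m).card : ℝ) ≤ ((BB δ m : ℕ) : ℝ) + 1 := by exact_mod_cast h3
    have h5 : (1 : ℝ) ≤ (m : ℝ) ^ (δ / 200) := Real.one_le_rpow hm1' (by positivity)
    linarith
  have h8 : (8 : ℝ) ≤ (m : ℝ) ^ (9 * δ / 40) := by
    have := hm2 m (by omega)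
    simpa using this
  calc ((PB δ m).card : ℝ) * ((m : ℝ) ^ (δ / 2) * (4 * (m : ℝ) ^ (-δ + δ / 50)))
      ≤ (2 * (m : ℝ) ^ (δ / 200)) * ((m : ℝ) ^ (δ / 2) * (4 * (m : ℝ) ^ (-δ + δ / 50))) :=
        mul_le_mul_of_nonneg_right hcard (by positivity)
    _ = 8 * ((m : ℝ) ^ (δ / 200) * ((m : ℝ) ^ (δ / 2) * (m : ℝ) ^ (-δ + δ / 50))) := by ring
    _ ≤ (m : ℝ) ^ (9 * δ / 40) *
        ((m : ℝ) ^ (δ / 200) * ((m : ℝ) ^ (δ / 2) * (m : ℝ) ^ (-δ + δ / 50))) :=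
        mul_le_mul_of_nonneg_right h8 (by positivity)
    _ = (m : ℝ) ^ (-(δ / 4)) := by
        rw [← Real.rpow_add hm0, ← Real.rpow_add hm0, ← Real.rpow_add hm0]
        congr 1
        ring

end Pool.Agent.H78.PG
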